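import Pool.Agent.W_eea520_h25.Core

/-! Heights and highest weights. -/

set_option autoImplicit false

namespace Pool.Agent.EEA520

open Polynomial

/-- The height `∑_i (n - i) (2 μ_i - k)` of the weight `(k, μ)`, `i = 0, …, n - 1`. -/
def ht {n : ℕ} (w : Wt n) : ℤ := ∑ i : Fin n, ((n : ℤ) - (i : ℕ)) * (2 * w.2 i - w.1)

/-- `w` is the unique highest weight of `f`, with coefficient one. -/
def Top {n : ℕ} (w : Wt n) (f : R n) : Prop :=
  f.coeff w = 1 ∧ ∀ v, f.coeff v ≠ 0 → v ≠ w → ht v < ht w

/-- Dominant weights. -/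
def Dominant {n : ℕ} (w : Wt n) : Prop :=
  (∀ i, w.1 ≤ 2 * w.2 i) ∧ ∀ i j, i ≤ j → w.2 j ≤ w.2 i

theorem ht_zero {n : ℕ} : ht (0 : Wt n) = 0 := by
  simp [ht]

theorem ht_add {n : ℕ} (v w : Wt n) : ht (v + w) = ht v + ht w := by
  simp only [ht, ← Finset.sum_add_distrib]
  refine Finset.sum_congr rfl fun i _ => ?_
  simp only [Prod.fst_add, Prod.snd_add, Pi.add_apply]
  ring

theorem ht_neg {n : ℕ} (v : Wt n) : ht (-v) = -ht v := by
  have := ht_add v (-v)
  rw [add_neg_cancel, ht_zero] at this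
  linarith

theorem Dominant.ht_nonneg {n : ℕ} {w : Wt n} (h : Dominant w) : 0 ≤ ht w := by
  refine Finset.sum_nonneg fun i _ => mul_nonneg ?_ ?_
  · have := i.2
    omega
  · have := h.1 i
    omega

private theorem AlgA_mon_coeff {n : ℕ} (w v : Wt n) :
    (mon w).coeff v = if w = v then 1 else 0 := by
  classical
  rw [mon, AddMonoidAlgebra.coeff_single, Finsupp.single_apply]

theorem top_mon {n : ℕ} (w : Wt n) : Top w (mon w) := by
  refine ⟨by rw [AlgA_mon_coeff, if_pos rfl], fun v hv hvw => ?_⟩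
  rw [AlgA_mon_coeff, if_neg (fun h => hvw h.symm)] at hv
  exact absurd rfl hv

theorem top_one {n : ℕ} : Top 0 (1 : R n) := by
  have h : (1 : R n) = mon 0 := by rw [AddMonoidAlgebra.one_def, mon]
  rw [h]
  exact top_mon 0

private theorem AlgA_le {n : ℕ} {v a : Wt n} {f : R n} (hf : Top v f) (ha : f.coeff a ≠ 0) :
    a = v ∨ ht a < ht v := by
  by_cases h : a = v
  · exact Or.inl h
  · exact Or.inr (hf.2 a ha h)

private theorem AlgA_exists {n : ℕ} {f g : R n} {u : Wt n} (h : (f * g).coeff u ≠ 0) :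
    ∃ a b, f.coeff a ≠ 0 ∧ g.coeff b ≠ 0 ∧ a + b = u := by
  classical
  rw [AddMonoidAlgebra.coeff_mul, Finsupp.sum] at h
  obtain ⟨a, ha, ha'⟩ := Finset.exists_ne_zero_of_sum_ne_zero h
  rw [Finsupp.sum] at ha'
  obtain ⟨b, hb, hb'⟩ := Finset.exists_ne_zero_of_sum_ne_zero ha'
  refine ⟨a, b, Finsupp.mem_support_iff.1 ha, Finsupp.mem_support_iff.1 hb, ?_⟩
  by_contra hab
  exact hb' (if_neg hab)

/-- The support of a product is contained in the sum of the supports. -/
theorem top_mul {n : ℕ} {v w : Wt n} {f g : R n} (hf : Top v f) (hg : Top w g) :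
    Top (v + w) (f * g) := by
  classical
  have key : ∀ a b, f.coeff a ≠ 0 → g.coeff b ≠ 0 → (a = v ∧ b = w) ∨ ht (a + b) < ht (v + w) := by
    intro a b ha hb
    rw [ht_add, ht_add]
    rcases AlgA_le hf ha with h1 | h1 <;> rcases AlgA_le hg hb with h2 | h2
    · exact Or.inl ⟨h1, h2⟩
    · right; rw [h1]; linarith
    · right; rw [h2]; linarith
    · right; linarith
  refine ⟨?_, ?_⟩
  · rw [AddMonoidAlgebra.coeff_mul, Finsupp.sum, Finset.sum_eq_single v]
    · rw [Finsupp.sum, Finset.sum_eq_single w]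
      · rw [if_pos rfl, hf.1, hg.1, one_mul]
      · intro b hb hbw
        rw [if_neg]
        intro h
        exact hbw (add_left_cancel h)
      · intro hw
        rw [if_pos rfl, Finsupp.notMem_support_iff.1 hw, mul_zero]
    · intro a ha hav
      rw [Finsupp.sum]
      refine Finset.sum_eq_zero fun b hb => ?_
      rw [if_neg]
      intro h
      rcases key a b (Finsupp.mem_support_iff.1 ha) (Finsupp.mem_support_iff.1 hb) with h1 | h1
      · exact hav h1.1
      · rw [h] at h1
        exact lt_irrefl _ h1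
    · intro hv
      exact absurd (Finsupp.notMem_support_iff.1 hv) (by rw [hf.1]; exact one_ne_zero)
  · intro u hu huv
    obtain ⟨a, b, ha, hb, rfl⟩ := AlgA_exists hu
    rcases key a b ha hb with h1 | h1
    · exact absurd (by rw [h1.1, h1.2]) huv
    · exact h1

private theorem AlgA_prod {n : ℕ} {ι : Type*} (s : Finset ι) (w : ι → Wt n) (f : ι → R n)
    (h : ∀ i, Top (w i) (f i)) : Top (∑ i ∈ s, w i) (∏ i ∈ s, f i) := by
  classical
  induction s using Finset.induction_on with
  | empty => simpa using top_one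
  | insert a s ha ih =>
    rw [Finset.sum_insert ha, Finset.prod_insert ha]
    exact top_mul (h a) ih

private theorem AlgA_ht_single {n : ℕ} (i : Fin n) :
    0 < ht ((0, Pi.single i 1) : Wt n) := by
  classical
  rw [ht, Finset.sum_eq_single i]
  · have := i.2
    simp only [Pi.single_eq_same]
    omega
  · intro j _ hj
    simp only [Pi.single_eq_of_ne hj]
    ring
  · intro h
    exact absurd (Finset.mem_univ i) h

/-- `spR n = ∑_I [(1, 1_I)]`. Or by multiplicativity: each factor `1 + [(0, e_i)]` has the highest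
weight `(0, e_i)`. -/
theorem top_spR (n : ℕ) : Top (1, fun _ => 1) (spR n) := by
  classical
  have h1 : ∀ i : Fin n, Top ((0, Pi.single i 1) : Wt n)
      (1 + mon ((0, Pi.single i 1) : Wt n)) := by
    intro i
    have hpos := AlgA_ht_single i
    have hne : (0 : Wt n) ≠ (0, Pi.single i 1) := by
      intro h
      rw [← h, ht_zero] at hpos
      exact lt_irrefl _ hpos
    have hone : (1 : R n) = mon 0 := by rw [AddMonoidAlgebra.one_def, mon]
    refine ⟨?_, ?_⟩
    · rw [hone, AddMonoidAlgebra.coeff_add, Finsupp.add_apply, AlgA_mon_coeff, AlgA_mon_coeff,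
        if_neg hne, if_pos rfl, zero_add]
    · intro v hv hvw
      rw [hone, AddMonoidAlgebra.coeff_add, Finsupp.add_apply, AlgA_mon_coeff, AlgA_mon_coeff,
        if_neg (show ¬ ((0, Pi.single i 1) : Wt n) = v from fun h => hvw h.symm), add_zero] at hv
      have hv0 : (0 : Wt n) = v := by
        by_contra h
        exact hv (if_neg h)
      rw [← hv0, ht_zero]
      exact hpos
  have h2 := top_mul (top_mon ((1, 0) : Wt n))
    (AlgA_prod Finset.univ (fun i : Fin n => ((0, Pi.single i 1) : Wt n))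
      (fun i => 1 + mon ((0, Pi.single i 1) : Wt n)) h1)
  have h3 : ((1, 0) : Wt n) + ∑ i : Fin n, ((0, Pi.single i 1) : Wt n) = (1, fun _ => 1) := by
    refine Prod.ext ?_ ?_
    · rw [Prod.fst_add, Prod.fst_sum]
      simp
    · rw [Prod.snd_add, Prod.snd_sum]
      funext j
      rw [Pi.add_apply, Finset.sum_apply]
      simp [Pi.single_apply]
  rw [h3] at h2
  exact h2

end Pool.Agent.EEA520
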