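import Pool.Agent.W_eea520_h25.AlgA

/-! The highest weight of the exterior powers of the standard representation. -/

set_option autoImplicit false

namespace Pool.Agent.EEA520

open Polynomial

/-- The weights of the standard representation, indexed. -/
private def AlgB_w {n : ℕ} : Option (Fin n ⊕ Fin n) → Wt n
  | none => 0
  | some (Sum.inl i) => (0, Pi.single i 1)
  | some (Sum.inr i) => (0, -Pi.single i 1)

private theorem AlgB_std (n : ℕ) :
    stdW n = (Finset.univ : Finset (Option (Fin n ⊕ Fin n))).val.map AlgB_w := by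
  classical
  rw [stdW, univ_option]
  have h1 : (Finset.insertNone (Finset.univ : Finset (Fin n ⊕ Fin n))).val =
      none ::ₘ (Finset.univ : Finset (Fin n ⊕ Fin n)).val.map some := rfl
  have h2 : (Finset.univ : Finset (Fin n ⊕ Fin n)).val =
      (Finset.univ : Finset (Fin n)).val.map Sum.inl +
        (Finset.univ : Finset (Fin n)).val.map Sum.inr := rfl
  rw [h1, Multiset.map_cons, h2, Multiset.map_add, Multiset.map_add]
  simp only [Multiset.map_map]
  rfl

private theorem AlgB_mon_sum {n : ℕ} {ι : Type} (T : Finset ι) (w : ι → Wt n) :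
    ∏ t ∈ T, mon (w t) = mon (∑ t ∈ T, w t) := by
  classical
  induction T using Finset.induction_on with
  | empty => rw [Finset.prod_empty, Finset.sum_empty]; rfl
  | insert x T hx ih =>
    rw [Finset.prod_insert hx, Finset.sum_insert hx, ih, mon, mon, mon,
      AddMonoidAlgebra.single_mul_single, one_mul]

private theorem AlgB_ext (n a : ℕ) :
    extV n a = ∑ T : Finset (Option (Fin n ⊕ Fin n)),
      if T.card = a then mon (∑ t ∈ T, AlgB_w t) else 0 := by
  classical
  rw [extV, AlgB_std, Multiset.map_map]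
  have h1 : (Multiset.map ((fun w => (1 + C (mon w) * X : (R n)[X])) ∘ AlgB_w)
      (Finset.univ : Finset (Option (Fin n ⊕ Fin n))).val).prod =
      ∏ t : Option (Fin n ⊕ Fin n), (1 + C (mon (AlgB_w t)) * X : (R n)[X]) := rfl
  rw [h1, Finset.prod_one_add, finsetSum_coeff, Finset.powerset_univ]
  refine Finset.sum_congr rfl fun T _ => ?_
  rw [Finset.prod_mul_distrib, Finset.prod_const, ← map_prod, AlgB_mon_sum, coeff_C_mul_X_pow]
  by_cases h : T.card = a
  · rw [if_pos h, if_pos h.symm]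
  · rw [if_neg h, if_neg (Ne.symm h)]

private theorem AlgB_ht_sum {n : ℕ} {ι : Type} (T : Finset ι) (w : ι → Wt n) :
    ht (∑ t ∈ T, w t) = ∑ t ∈ T, ht (w t) := by
  classical
  induction T using Finset.induction_on with
  | empty => rw [Finset.sum_empty, Finset.sum_empty, ht_zero]
  | insert x T hx ih => rw [Finset.sum_insert hx, Finset.sum_insert hx, ht_add, ih]

private theorem AlgB_ht_single {n : ℕ} (i : Fin n) :
    ht ((0, Pi.single i 1) : Wt n) = 2 * ((n : ℤ) - (i : ℕ)) := by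
  rw [ht, Finset.sum_eq_single i]
  · simp
    ring
  · intro j _ hj
    simp [Pi.single_eq_of_ne hj]
  · intro h
    exact absurd (Finset.mem_univ i) h

private theorem AlgB_ht_neg {n : ℕ} (i : Fin n) :
    ht ((0, -Pi.single i 1) : Wt n) = -(2 * ((n : ℤ) - (i : ℕ))) := by
  rw [← AlgB_ht_single, ← ht_neg]
  congr 1

/-- The set `T₀ = {e_0, …, e_{a-1}}`. -/
private def AlgB_T (n a : ℕ) : Finset (Option (Fin n ⊕ Fin n)) :=
  ((Finset.univ : Finset (Fin n)).filter fun i : Fin n => (i : ℕ) < a).image fun i => some (Sum.inl i)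

private theorem AlgB_T_card (n a : ℕ) (ha : a ≤ n) : (AlgB_T n a).card = a := by
  rw [AlgB_T, Finset.card_image_of_injective]
  · rw [Fin.card_filter_val_lt, min_eq_right ha]
  · intro i j h
    simpa using h

private theorem AlgB_T_sum (n a : ℕ) :
    ∑ t ∈ AlgB_T n a, AlgB_w t = ((0 : ℤ), fun i : Fin n => if (i : ℕ) < a then 1 else 0) := by
  rw [AlgB_T, Finset.sum_image]
  · have h1 : ∀ i : Fin n, AlgB_w (some (Sum.inl i)) = ((0 : ℤ), Pi.single i 1) := fun i => rfl
    simp only [h1]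
    ext j
    · rw [Prod.fst_sum]
      simp
    · rw [Prod.snd_sum, Finset.sum_apply]
      simp only [Pi.single_apply]
      rw [Finset.sum_ite_eq]
      simp
  · intro i _ j _ h
    simpa using h

private theorem AlgB_ht_mem {n a : ℕ} {t : Option (Fin n ⊕ Fin n)} (ht' : t ∈ AlgB_T n a) :
    2 * ((n : ℤ) - a) + 2 ≤ ht (AlgB_w t) := by
  rw [AlgB_T, Finset.mem_image] at ht'
  obtain ⟨i, hi, rfl⟩ := ht'
  rw [Finset.mem_filter] at hi
  have h1 : ht (AlgB_w (some (Sum.inl i))) = 2 * ((n : ℤ) - (i : ℕ)) := AlgB_ht_single i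
  rw [h1]
  omega

private theorem AlgB_ht_notMem {n a : ℕ} (ha : a ≤ n) {t : Option (Fin n ⊕ Fin n)}
    (ht' : t ∉ AlgB_T n a) : ht (AlgB_w t) ≤ 2 * ((n : ℤ) - a) := by
  match t, ht' with
  | none, _ =>
    have h1 : ht (AlgB_w (none : Option (Fin n ⊕ Fin n))) = 0 := ht_zero
    rw [h1]
    omega
  | some (Sum.inl i), h =>
    have h1 : ht (AlgB_w (some (Sum.inl i))) = 2 * ((n : ℤ) - (i : ℕ)) := AlgB_ht_single i
    rw [h1]
    have h2 : ¬ (i : ℕ) < a := by
      intro h3
      apply h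
      rw [AlgB_T, Finset.mem_image]
      exact ⟨i, Finset.mem_filter.2 ⟨Finset.mem_univ _, h3⟩, rfl⟩
    omega
  | some (Sum.inr i), _ =>
    have h1 : ht (AlgB_w (some (Sum.inr i))) = -(2 * ((n : ℤ) - (i : ℕ))) := AlgB_ht_neg i
    rw [h1]
    have := i.2
    omega

private theorem AlgB_lt {n a : ℕ} (ha : a ≤ n) (T : Finset (Option (Fin n ⊕ Fin n)))
    (hT : T.card = a) (hne : T ≠ AlgB_T n a) :
    ht (∑ t ∈ T, AlgB_w t) < ht (∑ t ∈ AlgB_T n a, AlgB_w t) := by
  classical
  rw [AlgB_ht_sum, AlgB_ht_sum]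
  set T₀ := AlgB_T n a with hT₀
  have hc0 : T₀.card = a := AlgB_T_card n a ha
  have hs1 : ∑ t ∈ T, ht (AlgB_w t) = ∑ t ∈ T \ T₀, ht (AlgB_w t) + ∑ t ∈ T ∩ T₀, ht (AlgB_w t) := by
    rw [← Finset.sum_sdiff (Finset.inter_subset_left : T ∩ T₀ ⊆ T), Finset.sdiff_inter_self_left]
  have hs2 : ∑ t ∈ T₀, ht (AlgB_w t) =
      ∑ t ∈ T₀ \ T, ht (AlgB_w t) + ∑ t ∈ T ∩ T₀, ht (AlgB_w t) := by
    rw [← Finset.sum_sdiff (Finset.inter_subset_right : T ∩ T₀ ⊆ T₀), Finset.sdiff_inter_self_right]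
  have hcard : (T \ T₀).card = (T₀ \ T).card :=
    Finset.card_sdiff_comm (by rw [hT, hc0])
  have hpos : 0 < (T₀ \ T).card := by
    rw [Finset.card_pos]
    by_contra hemp
    rw [Finset.not_nonempty_iff_eq_empty, Finset.sdiff_eq_empty_iff_subset] at hemp
    exact hne (Finset.eq_of_subset_of_card_le hemp (by rw [hT, hc0])).symm
  have hb1 : ∑ t ∈ T \ T₀, ht (AlgB_w t) ≤ (T \ T₀).card • (2 * ((n : ℤ) - a)) :=
    Finset.sum_le_card_nsmul _ _ _ fun t ht' =>
      AlgB_ht_notMem ha (Finset.mem_sdiff.1 ht').2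
  have hb2 : (T₀ \ T).card • (2 * ((n : ℤ) - a) + 2) ≤ ∑ t ∈ T₀ \ T, ht (AlgB_w t) :=
    Finset.card_nsmul_le_sum _ _ _ fun t ht' =>
      AlgB_ht_mem (Finset.mem_sdiff.1 ht').1
  rw [hcard] at hb1
  rw [nsmul_eq_mul] at hb1 hb2
  have hpos' : (0 : ℤ) < ((T₀ \ T).card : ℤ) := by exact_mod_cast hpos
  rw [hs1, hs2]
  nlinarith

/-- Proof. Expand `∏ (1 + C [w] X)` over the `2 n + 1` weights `w = 0, ± e_i`: the coefficient of
`X ^ a` is the sum over the `a`-element subsets `T` of the index set (for example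
`Option (Fin n ⊕ Fin n)`) of `[∑_{t ∈ T} w_t]`. The heights of the weights are `0` and `± 2 (n - i)`.
Let `T₀ = {e_0, …, e_{a-1}}`. If `T ≠ T₀` then all elements of `T₀ \ T` have height
`≥ 2 (n - a + 1)` and those of `T \ T₀` have height `≤ 2 (n - a)`, and these two sets have the
same nonzero number of elements; so the height of `T` is smaller. -/
theorem top_ext (n a : ℕ) (ha : a ≤ n) :
    Top ((0 : ℤ), fun i : Fin n => if (i : ℕ) < a then 1 else 0) (extV n a) := by
  classical
  rw [← AlgB_T_sum n a]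
  have hcoef : ∀ v, (extV n a).coeff v = ∑ T : Finset (Option (Fin n ⊕ Fin n)),
      if T.card = a ∧ ∑ t ∈ T, AlgB_w t = v then 1 else 0 := by
    intro v
    rw [AlgB_ext, AddMonoidAlgebra.coeff_sum, Finsupp.finsetSum_apply]
    refine Finset.sum_congr rfl fun T _ => ?_
    by_cases h : T.card = a
    · rw [if_pos h, mon, AddMonoidAlgebra.coeff_single, Finsupp.single_apply]
      by_cases h2 : ∑ t ∈ T, AlgB_w t = v
      · rw [if_pos h2, if_pos ⟨h, h2⟩]
      · rw [if_neg h2, if_neg fun h3 => h2 h3.2]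
    · rw [if_neg h, if_neg fun h3 => h h3.1]
      rfl
  constructor
  · rw [hcoef, Finset.sum_eq_single (AlgB_T n a)]
    · rw [if_pos ⟨AlgB_T_card n a ha, rfl⟩]
    · intro T _ hne
      rw [if_neg]
      rintro ⟨h1, h2⟩
      have := AlgB_lt ha T h1 hne
      rw [h2] at this
      exact lt_irrefl _ this
    · intro h
      exact absurd (Finset.mem_univ _) h
  · intro v hv hne
    rw [hcoef] at hv
    obtain ⟨T, -, hT⟩ := Finset.exists_ne_zero_of_sum_ne_zero hv
    have hT' : T.card = a ∧ ∑ t ∈ T, AlgB_w t = v := by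
      by_contra hcon
      rw [if_neg hcon] at hT
      exact hT rfl
    obtain ⟨h1, rfl⟩ := hT'
    apply AlgB_lt ha T h1
    rintro rfl
    exact hne rfl

end Pool.Agent.EEA520
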