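import Pool.Agent.W_eea520_h25.AlgB

/-! Products with a given dominant highest weight. -/

set_option autoImplicit false

namespace Pool.Agent.EEA520

open Polynomial

private theorem AlgC_card {n : ℕ} (lam : Fin n → ℤ) (hanti : ∀ i j, i ≤ j → lam j ≤ lam i)
    (i : Fin n) :
    (i : ℕ) < ((Finset.univ : Finset (Fin n)).filter fun j => 1 ≤ lam j).card ↔ 1 ≤ lam i := by
  constructor
  · intro h
    by_contra hc
    have hsub : ((Finset.univ : Finset (Fin n)).filter fun j => 1 ≤ lam j) ⊆ Finset.Iio i := by
      intro j hj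
      rw [Finset.mem_filter] at hj
      rw [Finset.mem_Iio]
      by_contra hji
      push Not at hji
      have := hanti i j hji
      omega
    have h1 := Finset.card_le_card hsub
    rw [Fin.card_Iio] at h1
    omega
  · intro h
    have hsub : Finset.Iic i ⊆ ((Finset.univ : Finset (Fin n)).filter fun j => 1 ≤ lam j) := by
      intro j hj
      rw [Finset.mem_Iic] at hj
      rw [Finset.mem_filter]
      exact ⟨Finset.mem_univ _, h.trans (hanti j i hj)⟩
    have h1 := Finset.card_le_card hsub
    rw [Fin.card_Iic] at h1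
    omega

private theorem AlgC_aux {n : ℕ} (N : ℕ) : ∀ lam : Fin n → ℤ, (∀ i, 0 ≤ lam i) →
    (∀ i, lam i ≤ N) → (∀ i j, i ≤ j → lam j ≤ lam i) →
    ∃ l : List ℕ, Top (0, lam) (l.map (extV n)).prod := by
  induction N with
  | zero =>
    intro lam h0 hN _
    refine ⟨[], ?_⟩
    have h1 : lam = 0 := by
      funext i
      have := h0 i
      have := hN i
      simp only [Pi.zero_apply]
      push_cast at this
      omega
    subst h1
    rw [List.map_nil, List.prod_nil]
    exact top_one
  | succ N ih =>
    intro lam h0 hN hanti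
    set a : ℕ := ((Finset.univ : Finset (Fin n)).filter fun j => 1 ≤ lam j).card with ha
    have hcard : ∀ i : Fin n, (i : ℕ) < a ↔ 1 ≤ lam i := AlgC_card lam hanti
    have han : a ≤ n := by
      have h1 := Finset.card_le_univ ((Finset.univ : Finset (Fin n)).filter fun j => 1 ≤ lam j)
      rwa [Fintype.card_fin] at h1
    obtain ⟨l, hl⟩ := ih (fun i => lam i - if (i : ℕ) < a then 1 else 0) (by
      intro i
      have h1 := h0 i
      show 0 ≤ lam i - if (i : ℕ) < a then 1 else 0
      split_ifs with h
      · have := (hcard i).1 h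
        omega
      · omega) (by
      intro i
      have h1 := hN i
      have h2 := h0 i
      push_cast at h1
      show lam i - (if (i : ℕ) < a then 1 else 0) ≤ N
      split_ifs with h
      · omega
      · have h3 : ¬ 1 ≤ lam i := fun h4 => h ((hcard i).2 h4)
        omega) (by
      intro i j hij
      have h1 := hanti i j hij
      have h2 := h0 j
      have h3 : (i : ℕ) ≤ j := hij
      show lam j - (if (j : ℕ) < a then 1 else 0) ≤ lam i - (if (i : ℕ) < a then 1 else 0)
      split_ifs with h4 h5 h5
      · omega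
      · omega
      · have h6 : ¬ 1 ≤ lam j := fun h7 => h4 ((hcard j).2 h7)
        have h8 := (hcard i).1 h5
        omega
      · omega)
    refine ⟨a :: l, ?_⟩
    rw [List.map_cons, List.prod_cons]
    have h1 := top_mul (top_ext n a han) hl
    have h2 : (((0 : ℤ), fun i : Fin n => if (i : ℕ) < a then (1 : ℤ) else 0) : Wt n) +
        (0, fun i => lam i - if (i : ℕ) < a then 1 else 0) = (0, lam) := by
      ext i
      · simp
      · simp
    rw [h2] at h1
    exact h1

/-- Proof. Induction on `∑ lam i`. If `lam = 0` take the empty list. Otherwise let `a` be the number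
of `i` with `1 ≤ lam i`; these are the `i < a`. Apply the induction hypothesis to
`lam - 1_{i < a}` and add `a` to the list (`top_ext`, `top_mul`). -/
theorem exists_list {n : ℕ} (lam : Fin n → ℤ) (h0 : ∀ i, 0 ≤ lam i)
    (hanti : ∀ i j, i ≤ j → lam j ≤ lam i) :
    ∃ l : List ℕ, Top (0, lam) (l.map (extV n)).prod := by
  refine AlgC_aux (∑ i, (lam i).toNat) lam h0 (fun i => ?_) hanti
  have h1 : (lam i).toNat ≤ ∑ i, (lam i).toNat :=
    Finset.single_le_sum (f := fun i => (lam i).toNat) (fun _ _ => Nat.zero_le _)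
      (Finset.mem_univ i)
  have h2 := Int.self_le_toNat (lam i)
  omega

/-- Proof. `w = (2 k' + e, μ)` with `e = 0, 1`; apply `exists_list` to `μ - k' - e`. -/
theorem exists_top {n : ℕ} (w : Wt n) (hw : Dominant w) : ∃ (k : ℤ) (l : List ℕ) (e : ℕ), e ≤ 1 ∧
    Top w (mon (k • nuW n) * (l.map (extV n)).prod * spR n ^ e) := by
  obtain ⟨k, μ⟩ := w
  obtain ⟨hd, hanti⟩ := hw
  have hd' : ∀ i, k ≤ 2 * μ i := hd
  have hanti' : ∀ i j, i ≤ j → μ j ≤ μ i := hanti
  obtain ⟨l, hl⟩ := exists_list (fun i => μ i - k / 2 - k % 2) (by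
    intro i
    have := hd' i
    show 0 ≤ μ i - k / 2 - k % 2
    omega) (by
    intro i j hij
    have := hanti' i j hij
    show μ j - k / 2 - k % 2 ≤ μ i - k / 2 - k % 2
    omega)
  have h1 := top_mul (top_mon ((k / 2) • nuW n)) hl
  rcases Int.emod_two_eq_zero_or_one k with h | h
  · refine ⟨k / 2, l, 0, by omega, ?_⟩
    rw [pow_zero]
    have h2 := top_mul h1 (top_one (n := n))
    have h3 : (k / 2) • nuW n + ((0 : ℤ), fun i => μ i - k / 2 - k % 2) + 0 = (k, μ) := by
      ext i
      · simp only [nuW, Prod.smul_mk, Prod.fst_add, smul_eq_mul, Prod.fst_zero]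
        omega
      · simp only [nuW, Prod.smul_mk, Prod.snd_add, Pi.add_apply, Pi.smul_apply, smul_eq_mul,
          Prod.snd_zero, Pi.zero_apply]
        omega
    rw [h3] at h2
    exact h2
  · refine ⟨k / 2, l, 1, le_refl 1, ?_⟩
    rw [pow_one]
    have h2 := top_mul h1 (top_spR n)
    have h3 : (k / 2) • nuW n + ((0 : ℤ), fun i => μ i - k / 2 - k % 2) + (1, fun _ => 1) =
        (k, μ) := by
      ext i
      · simp only [nuW, Prod.smul_mk, Prod.fst_add, smul_eq_mul]
        omega
      · simp only [nuW, Prod.smul_mk, Prod.snd_add, Pi.add_apply, Pi.smul_apply, smul_eq_mul]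
        omega
    rw [h3] at h2
    exact h2

end Pool.Agent.EEA520
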