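import Pool.Agent.W_eea520_h25.Core

/-! Weyl invariants. -/

set_option autoImplicit false

namespace Pool.Agent.EEA520

open Polynomial

/-- The permutation `σ` on weights. -/
def permW {n : ℕ} (σ : Equiv.Perm (Fin n)) : Wt n ≃+ Wt n where
  toFun w := (w.1, w.2 ∘ σ)
  invFun w := (w.1, w.2 ∘ σ.symm)
  left_inv w := by ext <;> simp
  right_inv w := by ext <;> simp
  map_add' v w := rfl

/-- The reflection `x_i ↦ x_i⁻¹`, `c ↦ c x_i` on weights. -/
def refW {n : ℕ} (i : Fin n) : Wt n ≃+ Wt n where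
  toFun w := (w.1, Function.update w.2 i (w.1 - w.2 i))
  invFun w := (w.1, Function.update w.2 i (w.1 - w.2 i))
  left_inv w := by ext <;> simp
  right_inv w := by ext <;> simp
  map_add' v w := by
    ext j
    · rfl
    · by_cases hj : j = i
      · subst hj
        simp
        ring
      · simp [hj]

theorem isCharacter_iff {n : ℕ} (m : Wt n →₀ ℤ) : IsCharacter m ↔
    (∀ σ w, m (permW σ w) = m w) ∧ ∀ i w, m (refW i w) = m w :=
  ⟨fun h => ⟨fun σ w => h.1 σ w.1 w.2, fun i w => h.2 i w.1 w.2⟩,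
    fun h => ⟨fun σ k μ => h.1 σ (k, μ), fun i k μ => h.2 i (k, μ)⟩⟩

private noncomputable def algD_M {n : ℕ} (φ : Wt n ≃+ Wt n) : R n →+* R n :=
  (AddMonoidAlgebra.mapDomainRingEquiv ℤ φ : R n ≃+* R n).toRingHom

private theorem algD_M_coeff {n : ℕ} (φ : Wt n ≃+ Wt n) (f : R n) (w : Wt n) :
    (algD_M φ f).coeff (φ w) = f.coeff w := by
  have h : (algD_M φ f).coeff = Finsupp.equivMapDomain φ.toEquiv f.coeff :=
    AddMonoidAlgebra.coeff_mapDomainRingEquiv φ f
  rw [h, Finsupp.equivMapDomain_apply]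
  congr 1
  exact φ.symm_apply_apply w

private theorem algD_M_mon {n : ℕ} (φ : Wt n ≃+ Wt n) (w : Wt n) :
    algD_M φ (mon w) = mon (φ w) :=
  AddMonoidAlgebra.mapDomainRingEquiv_single φ 1 w

private theorem algD_inv_iff {n : ℕ} (φ : Wt n ≃+ Wt n) (f : R n) :
    (∀ w, f.coeff (φ w) = f.coeff w) ↔ algD_M φ f = f := by
  constructor
  · intro h
    apply AddMonoidAlgebra.ext
    apply Finsupp.ext
    intro v
    obtain ⟨w, rfl⟩ := φ.surjective v
    rw [algD_M_coeff, h]
  · intro h w
    conv_lhs => rw [← h]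
    rw [algD_M_coeff]

private theorem algD_isCharacter {n : ℕ} (f : R n) :
    IsCharacter f.coeff ↔ (∀ σ, algD_M (permW σ) f = f) ∧ ∀ i, algD_M (refW i) f = f := by
  rw [isCharacter_iff]
  constructor
  · intro h
    exact ⟨fun σ => (algD_inv_iff _ f).1 (h.1 σ), fun i => (algD_inv_iff _ f).1 (h.2 i)⟩
  · intro h
    exact ⟨fun σ => (algD_inv_iff _ f).2 (h.1 σ), fun i => (algD_inv_iff _ f).2 (h.2 i)⟩

private theorem algD_mon_add {n : ℕ} (v w : Wt n) : (mon (v + w) : R n) = mon v * mon w := by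
  unfold mon
  rw [AddMonoidAlgebra.single_mul_single, one_mul]

private theorem algD_perm_single {n : ℕ} (σ : Equiv.Perm (Fin n)) (i : Fin n) (e : ℤ) :
    permW σ ((0 : ℤ), Pi.single i e) = ((0 : ℤ), Pi.single (σ.symm i) e) := by
  have h : permW σ ((0 : ℤ), Pi.single i e) = ((0 : ℤ), (Pi.single i e : Fin n → ℤ) ∘ σ) := rfl
  rw [h]
  congr 1
  funext j
  rw [Function.comp_apply]
  by_cases hj : σ j = i
  · have : j = σ.symm i := by rw [← hj, Equiv.symm_apply_apply]
    rw [this, Equiv.apply_symm_apply, Pi.single_eq_same, Pi.single_eq_same]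
  · have : j ≠ σ.symm i := fun h => hj (by rw [h, Equiv.apply_symm_apply])
    rw [Pi.single_eq_of_ne hj, Pi.single_eq_of_ne this]

private theorem algD_ref_single {n : ℕ} (i : Fin n) (e : ℤ) :
    refW i ((0 : ℤ), Pi.single i e) = ((0 : ℤ), Pi.single i (-e)) := by
  have h : refW i ((0 : ℤ), Pi.single i e) =
    ((0 : ℤ), Function.update (Pi.single i e : Fin n → ℤ) i (0 - (Pi.single i e : Fin n → ℤ) i)) :=
      rfl
  rw [h]
  congr 1
  funext j
  by_cases hj : j = i
  · subst hj
    simp
  · simp [hj]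

private theorem algD_ref_single_ne {n : ℕ} (i j : Fin n) (hij : j ≠ i) (e : ℤ) :
    refW i ((0 : ℤ), Pi.single j e) = ((0 : ℤ), Pi.single j e) := by
  have h : refW i ((0 : ℤ), Pi.single j e) =
    ((0 : ℤ), Function.update (Pi.single j e : Fin n → ℤ) i (0 - (Pi.single j e : Fin n → ℤ) i)) :=
      rfl
  rw [h]
  congr 1
  funext k
  by_cases hk : k = i
  · subst hk
    simp [Pi.single_eq_of_ne hij.symm]
  · simp [hk]

private theorem algD_ref_one {n : ℕ} (i : Fin n) :
    refW i ((1 : ℤ), (0 : Fin n → ℤ)) = ((1 : ℤ), Pi.single i 1) := by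
  have h : refW i ((1 : ℤ), (0 : Fin n → ℤ)) =
    ((1 : ℤ), Function.update (0 : Fin n → ℤ) i (1 - (0 : Fin n → ℤ) i)) := rfl
  rw [h]
  congr 1

/-- The factor `1 + C [w] X`. -/
private noncomputable def algD_F {n : ℕ} (w : Wt n) : (R n)[X] := 1 + C (mon w) * X

private theorem algD_extV (n a : ℕ) : extV n a =
    (algD_F (0 : Wt n) * ((∏ i : Fin n, algD_F ((0 : ℤ), Pi.single i 1)) *
      ∏ i : Fin n, algD_F ((0 : ℤ), -Pi.single i (1 : ℤ)))).coeff a := by
  unfold extV stdW
  rw [Multiset.map_cons, Multiset.map_add, Multiset.prod_cons, Multiset.prod_add,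
    Multiset.map_map, Multiset.map_map]
  rfl

private theorem algD_map_F {n : ℕ} (φ : Wt n ≃+ Wt n) (w : Wt n) :
    Polynomial.map (algD_M φ) (algD_F w) = algD_F (φ w) := by
  unfold algD_F
  rw [Polynomial.map_add, Polynomial.map_one, Polynomial.map_mul, Polynomial.map_C,
    Polynomial.map_X, algD_M_mon]

private theorem algD_map_extV {n : ℕ} (φ : Wt n ≃+ Wt n) (a : ℕ) : algD_M φ (extV n a) =
    (algD_F (0 : Wt n) * ((∏ i : Fin n, algD_F (φ ((0 : ℤ), Pi.single i 1))) *
      ∏ i : Fin n, algD_F (φ ((0 : ℤ), -Pi.single i (1 : ℤ))))).coeff a := by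
  rw [algD_extV, ← Polynomial.coeff_map, Polynomial.map_mul, Polynomial.map_mul,
    Polynomial.map_prod, Polynomial.map_prod, algD_map_F, map_zero]
  simp only [algD_map_F]

/-- Invariance of a product under an automorphism of the group of weights (compare with the ring
homomorphism `AddMonoidAlgebra.mapDomainRingHom`). -/
theorem mul_invariant {n : ℕ} (φ : Wt n ≃+ Wt n) (f g : R n)
    (hf : ∀ w, f.coeff (φ w) = f.coeff w) (hg : ∀ w, g.coeff (φ w) = g.coeff w) (w : Wt n) :
    (f * g).coeff (φ w) = (f * g).coeff w := by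
  refine (algD_inv_iff φ (f * g)).2 ?_ w
  rw [map_mul, (algD_inv_iff φ f).1 hf, (algD_inv_iff φ g).1 hg]

theorem isCharacter_mul {n : ℕ} {f g : R n} (hf : IsCharacter f.coeff) (hg : IsCharacter g.coeff) :
    IsCharacter (f * g).coeff := by
  rw [algD_isCharacter] at hf hg ⊢
  exact ⟨fun σ => by rw [map_mul, hf.1, hg.1], fun i => by rw [map_mul, hf.2, hg.2]⟩

theorem isCharacter_one {n : ℕ} : IsCharacter (1 : R n).coeff := by
  rw [algD_isCharacter]
  exact ⟨fun σ => by rw [map_one], fun i => by rw [map_one]⟩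

theorem isCharacter_add {n : ℕ} {f g : R n} (hf : IsCharacter f.coeff) (hg : IsCharacter g.coeff) :
    IsCharacter (f + g).coeff := by
  rw [algD_isCharacter] at hf hg ⊢
  exact ⟨fun σ => by rw [map_add, hf.1, hg.1], fun i => by rw [map_add, hf.2, hg.2]⟩

theorem isCharacter_zsmul {n : ℕ} {f : R n} (hf : IsCharacter f.coeff) (e : ℤ) :
    IsCharacter (e • f).coeff := by
  rw [algD_isCharacter] at hf ⊢
  exact ⟨fun σ => by rw [map_zsmul, hf.1], fun i => by rw [map_zsmul, hf.2]⟩

theorem isCharacter_nu {n : ℕ} (k : ℤ) : IsCharacter (mon (k • nuW n) : R n).coeff := by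
  rw [algD_isCharacter]
  constructor
  · intro σ
    rw [algD_M_mon, map_zsmul]
    rfl
  · intro i
    rw [algD_M_mon, map_zsmul]
    have h : refW i (nuW n) = nuW n := by
      have h1 : refW i (nuW n) = ((2 : ℤ), Function.update (fun _ : Fin n => (1 : ℤ)) i (2 - 1)) :=
        rfl
      rw [h1]
      unfold nuW
      congr 1
      funext j
      by_cases hj : j = i
      · subst hj
        simp
      · simp [hj]
    rw [h]

/-- `(spR n).coeff (k, μ)` is `1` if `k = 1` and all `μ i` are `0` or `1`, else `0`. -/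
theorem isCharacter_spR (n : ℕ) : IsCharacter (spR n).coeff := by
  rw [algD_isCharacter]
  constructor
  · intro σ
    unfold spR
    rw [map_mul, map_prod, algD_M_mon]
    have h1 : permW σ ((1 : ℤ), (0 : Fin n → ℤ)) = (1, 0) := rfl
    rw [h1]
    congr 1
    rw [← Equiv.prod_comp σ.symm (fun i : Fin n => (1 + mon ((0 : ℤ), Pi.single i 1) : R n))]
    refine Finset.prod_congr rfl fun i _ => ?_
    rw [map_add, map_one, algD_M_mon, algD_perm_single]
  · intro i
    unfold spR
    rw [map_mul, map_prod, algD_M_mon, algD_ref_one,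
      ← Finset.mul_prod_erase Finset.univ _ (Finset.mem_univ i),
      ← Finset.mul_prod_erase Finset.univ (fun i : Fin n => (1 + mon ((0 : ℤ), Pi.single i 1) : R n))
        (Finset.mem_univ i), ← mul_assoc, ← mul_assoc]
    congr 1
    · rw [map_add, map_one, algD_M_mon, algD_ref_single, mul_add, mul_add, mul_one, mul_one,
        ← algD_mon_add, ← algD_mon_add, add_comm]
      congr 2
      · ext j
        · simp
        · by_cases hj : j = i
          · subst hj
            simp
          · simp [hj]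
      · ext j
        · simp
        · simp
    · refine Finset.prod_congr rfl fun j hj => ?_
      rw [map_add, map_one, algD_M_mon, algD_ref_single_ne i j (Finset.ne_of_mem_erase hj)]

/-- The automorphism maps the multiset `stdW n` to itself, hence it preserves the product
`∏ (1 + C [w] X)`. -/
theorem isCharacter_ext (n a : ℕ) : IsCharacter (extV n a).coeff := by
  rw [algD_isCharacter]
  constructor
  · intro σ
    rw [algD_map_extV, algD_extV]
    have h1 : (∏ i : Fin n, algD_F (permW σ ((0 : ℤ), Pi.single i 1))) =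
        ∏ i : Fin n, algD_F ((0 : ℤ), Pi.single i 1) := by
      rw [← Equiv.prod_comp σ.symm (fun i : Fin n => algD_F ((0 : ℤ), Pi.single i 1))]
      refine Finset.prod_congr rfl fun i _ => ?_
      rw [algD_perm_single]
    have h2 : (∏ i : Fin n, algD_F (permW σ ((0 : ℤ), -Pi.single i (1 : ℤ)))) =
        ∏ i : Fin n, algD_F ((0 : ℤ), -Pi.single i (1 : ℤ)) := by
      rw [← Equiv.prod_comp σ.symm (fun i : Fin n => algD_F ((0 : ℤ), -Pi.single i (1 : ℤ)))]
      refine Finset.prod_congr rfl fun i _ => ?_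
      rw [← Pi.single_neg, ← Pi.single_neg, algD_perm_single]
    rw [h1, h2]
  · intro i
    rw [algD_map_extV, algD_extV, ← Finset.prod_mul_distrib, ← Finset.prod_mul_distrib]
    have h1 : (∏ j : Fin n, algD_F (refW i ((0 : ℤ), Pi.single j 1)) *
        algD_F (refW i ((0 : ℤ), -Pi.single j (1 : ℤ)))) =
        ∏ j : Fin n, algD_F ((0 : ℤ), Pi.single j 1) * algD_F ((0 : ℤ), -Pi.single j (1 : ℤ)) := by
      refine Finset.prod_congr rfl fun j _ => ?_
      rw [← Pi.single_neg]
      by_cases hj : j = i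
      · subst hj
        rw [algD_ref_single, algD_ref_single, neg_neg, mul_comm]
      · rw [algD_ref_single_ne i j hj, algD_ref_single_ne i j hj]
    rw [h1]

end Pool.Agent.EEA520
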