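import Pool.Agent.W_eea520_h25.AlgC
import Pool.Agent.W_eea520_h25.AlgD

/-! The invariants are spanned by the products. -/

set_option autoImplicit false

namespace Pool.Agent.EEA520

open Polynomial

private theorem AlgE_ht_sub {n : ℕ} (k : ℤ) (μ ν : Fin n → ℤ) :
    ht ((k, ν) : Wt n) - ht ((k, μ) : Wt n) =
      ∑ i : Fin n, ((n : ℤ) - (i : ℕ)) * (2 * (ν i - μ i)) := by
  simp only [ht, ← Finset.sum_sub_distrib]
  refine Finset.sum_congr rfl fun i _ => ?_
  ring

/-- A weight of maximal height in an invariant function is dominant. If `i < j` and `μ i < μ j`, the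
transposition of `i` and `j` increases the height by `2 (j - i) (μ j - μ i) > 0`; if `2 μ i < k`, the
reflection `refW i` increases it by `2 (n - i) (k - 2 μ i) > 0`. -/
theorem dominant_of_max {n : ℕ} {m : Wt n →₀ ℤ} (hm : IsCharacter m) {w : Wt n} (hw : m w ≠ 0)
    (hmax : ∀ v, m v ≠ 0 → ht v ≤ ht w) : Dominant w := by
  obtain ⟨k, μ⟩ := w
  constructor
  · intro i
    show k ≤ 2 * μ i
    by_contra hcon
    push Not at hcon
    have h1 : m (k, Function.update μ i (k - μ i)) ≠ 0 := by
      rw [hm.2 i k μ]
      exact hw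
    have h2 := hmax _ h1
    have h3 := AlgE_ht_sub k μ (Function.update μ i (k - μ i))
    rw [Finset.sum_eq_single i] at h3
    · rw [Function.update_self] at h3
      have h4 : 0 < (n : ℤ) - (i : ℕ) := by
        have := i.2
        omega
      have h5 : 0 < 2 * (k - μ i - μ i) := by omega
      have h6 := mul_pos h4 h5
      omega
    · intro j _ hj
      rw [Function.update_of_ne hj, sub_self, mul_zero, mul_zero]
    · intro h
      exact absurd (Finset.mem_univ i) h
  · intro i j hij
    show μ j ≤ μ i
    by_contra hcon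
    push Not at hcon
    have hne : i ≠ j := by
      rintro rfl
      exact lt_irrefl _ hcon
    have hlt : (i : ℕ) < (j : ℕ) := lt_of_le_of_ne hij fun h => hne (Fin.ext h)
    have h1 : m (k, μ ∘ Equiv.swap i j) ≠ 0 := by
      rw [hm.1 (Equiv.swap i j) k μ]
      exact hw
    have h2 := hmax _ h1
    have h3 := AlgE_ht_sub k μ (μ ∘ Equiv.swap i j)
    rw [← Finset.add_sum_erase _ _ (Finset.mem_univ i),
      ← Finset.add_sum_erase _ _ (Finset.mem_erase.mpr ⟨hne.symm, Finset.mem_univ j⟩),
      Finset.sum_eq_zero] at h3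
    · rw [Function.comp_apply, Function.comp_apply, Equiv.swap_apply_left,
        Equiv.swap_apply_right, add_zero] at h3
      have h4 : 0 < ((j : ℕ) : ℤ) - ((i : ℕ) : ℤ) := by omega
      have h5 : 0 < μ j - μ i := by omega
      have h6 := mul_pos h4 h5
      have h7 : ((n : ℤ) - ((i : ℕ) : ℤ)) * (2 * (μ j - μ i)) +
          ((n : ℤ) - ((j : ℕ) : ℤ)) * (2 * (μ i - μ j)) =
          2 * ((((j : ℕ) : ℤ) - ((i : ℕ) : ℤ)) * (μ j - μ i)) := by ring
      rw [h7] at h3
      omega
    · intro l hl
      rw [Finset.mem_erase, Finset.mem_erase] at hl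
      rw [Function.comp_apply, Equiv.swap_apply_of_ne_of_ne hl.2.1 hl.1, sub_self, mul_zero,
        mul_zero]

private theorem AlgE_list {n : ℕ} (l : List ℕ) :
    IsCharacter ((l.map (extV n)).prod : R n).coeff := by
  induction l with
  | nil =>
    rw [List.map_nil, List.prod_nil]
    exact isCharacter_one
  | cons a l ih =>
    rw [List.map_cons, List.prod_cons]
    exact isCharacter_mul (isCharacter_ext n a) ih

private theorem AlgE_pow {n : ℕ} (e : ℕ) : IsCharacter ((spR n) ^ e : R n).coeff := by
  induction e with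
  | zero =>
    rw [pow_zero]
    exact isCharacter_one
  | succ e ih =>
    rw [pow_succ]
    exact isCharacter_mul ih (isCharacter_spR n)

private theorem AlgE_sum {n : ℕ} {ι : Type} (s : Finset ι) (f : ι → R n)
    (h : ∀ i ∈ s, IsCharacter (f i).coeff) : IsCharacter (∑ i ∈ s, f i).coeff := by
  classical
  induction s using Finset.induction_on with
  | empty =>
    rw [Finset.sum_empty]
    exact ⟨fun _ _ _ => rfl, fun _ _ _ => rfl⟩
  | insert a s ha ih =>
    rw [Finset.sum_insert ha]
    exact isCharacter_add (h a (Finset.mem_insert_self _ _))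
      (ih fun i hi => h i (Finset.mem_insert_of_mem hi))

private theorem AlgE_ind (n : ℕ) (U : AddSubgroup (R n))
    (hU : ∀ (k : ℤ) (l : List ℕ) (e : ℕ), e ≤ 1 →
      mon (k • nuW n) * (l.map (extV n)).prod * spR n ^ e ∈ U) (N : ℕ) :
    ∀ m : R n, IsCharacter m.coeff → (∀ w, m.coeff w ≠ 0 → ht w < N) → m ∈ U := by
  classical
  induction N with
  | zero =>
    intro m hm hlt
    have h0 : m = 0 := by
      by_contra hne
      have h1 : m.coeff.support.Nonempty := by
        rw [Finsupp.support_nonempty_iff]
        intro h2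
        apply hne
        apply AddMonoidAlgebra.ext
        rw [h2]
        rfl
      obtain ⟨w, hw, hmax⟩ := Finset.exists_max_image m.coeff.support ht h1
      have h2 : Dominant w := dominant_of_max hm (Finsupp.mem_support_iff.mp hw)
        fun v hv => hmax v (Finsupp.mem_support_iff.mpr hv)
      have h3 := h2.ht_nonneg
      have h4 := hlt w (Finsupp.mem_support_iff.mp hw)
      rw [Nat.cast_zero] at h4
      omega
    rw [h0]
    exact U.zero_mem
  | succ N ih =>
    intro m hm hlt
    have hex : ∀ w : Wt n, m.coeff w ≠ 0 → ht w = N →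
        ∃ P : R n, Top w P ∧ P ∈ U ∧ IsCharacter P.coeff := by
      intro w hw hN
      have h2 : Dominant w := dominant_of_max hm hw fun v hv => by
        have := hlt v hv
        push_cast at this
        omega
      obtain ⟨k, l, e, he, htop⟩ := exists_top w h2
      exact ⟨_, htop, hU k l e he,
        isCharacter_mul (isCharacter_mul (isCharacter_nu k) (AlgE_list l)) (AlgE_pow e)⟩
    choose! P hP using hex
    let S : Finset (Wt n) := m.coeff.support.filter fun w => ht w = N
    have hS : ∀ w, w ∈ S ↔ m.coeff w ≠ 0 ∧ ht w = N := fun w => by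
      rw [Finset.mem_filter, Finsupp.mem_support_iff]
    let T : R n := ∑ w ∈ S, m.coeff w • P w
    have hT : IsCharacter T.coeff := AlgE_sum _ _ fun w hw =>
      isCharacter_zsmul (hP w ((hS w).1 hw).1 ((hS w).1 hw).2).2.2 _
    have hTU : T ∈ U := U.sum_mem fun w hw =>
      U.zsmul_mem (hP w ((hS w).1 hw).1 ((hS w).1 hw).2).2.1 _
    have hTc : ∀ v, T.coeff v = ∑ w ∈ S, m.coeff w * (P w).coeff v := by
      intro v
      have h1 : T.coeff = ∑ w ∈ S, (m.coeff w • P w).coeff :=
        AddMonoidAlgebra.coeff_sum _ _
      rw [h1, Finsupp.finsetSum_apply]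
      refine Finset.sum_congr rfl fun w _ => ?_
      rw [AddMonoidAlgebra.coeff_smul_apply, smul_eq_mul]
    have hm' : m + (-1 : ℤ) • T ∈ U := by
      apply ih _ (isCharacter_add hm (isCharacter_zsmul hT _))
      intro v hv
      by_contra hcon
      push Not at hcon
      apply hv
      have h1 : (m + (-1 : ℤ) • T).coeff v = m.coeff v - T.coeff v := by
        rw [AddMonoidAlgebra.coeff_add, Finsupp.add_apply, AddMonoidAlgebra.coeff_smul_apply,
          smul_eq_mul]
        ring
      rw [h1, hTc]
      have h0 : ∀ w ∈ S, v ≠ w → (P w).coeff v = 0 := by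
        intro w hw hvw
        by_contra h2
        have h3 := (hP w ((hS w).1 hw).1 ((hS w).1 hw).2).1.2 v h2 hvw
        rw [((hS w).1 hw).2] at h3
        omega
      by_cases hvS : v ∈ S
      · rw [Finset.sum_eq_single v]
        · rw [(hP v ((hS v).1 hvS).1 ((hS v).1 hvS).2).1.1, mul_one, sub_self]
        · intro w hw hwv
          rw [h0 w hw hwv.symm, mul_zero]
        · intro h
          exact absurd hvS h
      · have h2 : m.coeff v = 0 := by
          by_contra h3
          apply hvS
          rw [hS]
          refine ⟨h3, ?_⟩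
          have := hlt v h3
          push_cast at this
          omega
        rw [h2, zero_sub, neg_eq_zero]
        refine Finset.sum_eq_zero fun w hw => ?_
        rw [h0 w hw (fun h => hvS (by rw [h]; exact hw)), mul_zero]
    have h2 : m = (m + (-1 : ℤ) • T) + T := by
      rw [neg_smul, one_smul, neg_add_cancel_right]
    rw [h2]
    exact U.add_mem hm' hTU

/-- Proof. Induction on the natural number `N` such that all `w` with `m.coeff w ≠ 0` have height
`< N`. If `N = 0`, then `m = 0`: a weight of maximal height is dominant, so its height is `≥ 0`.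
Step from `N` to `N + 1`: for every `w` in the support of height `N` choose a product `P w` by
`exists_top` (`w` is dominant by `dominant_of_max`); `m - ∑ m.coeff w • P w` is a character
(`isCharacter_mul`, …) all of whose weights have height `< N`. -/
theorem alg (n : ℕ) (U : AddSubgroup (R n))
    (hU : ∀ (k : ℤ) (l : List ℕ) (e : ℕ), e ≤ 1 →
      mon (k • nuW n) * (l.map (extV n)).prod * spR n ^ e ∈ U)
    (m : R n) (hm : IsCharacter m.coeff) : m ∈ U := by
  classical
  obtain ⟨N, hN⟩ : ∃ N : ℕ, ∀ w, m.coeff w ≠ 0 → ht w < N := by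
    refine ⟨(∑ w ∈ m.coeff.support, |ht w|).toNat + 1, fun w hw => ?_⟩
    have h1 : |ht w| ≤ ∑ w ∈ m.coeff.support, |ht w| :=
      Finset.single_le_sum (f := fun w => |ht w|) (fun v _ => abs_nonneg _)
        (Finsupp.mem_support_iff.mpr hw)
    have h2 := le_abs_self (ht w)
    have h3 := Int.self_le_toNat (∑ w ∈ m.coeff.support, |ht w|)
    push_cast
    omega
  exact AlgE_ind n U hU N m hm hN

end Pool.Agent.EEA520
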