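import Pool.Agent.W_eea520_h25.LamB

/-! `Cont` is closed under addition, negation and twists. -/

set_option autoImplicit false

namespace Pool.Agent.EEA520

open Filter

theorem LL_add {D D' : Dat} (hD : D ∈ BB) (hD' : D' ∈ BB) :
    ∃ b : ℝ, ∀ s : ℂ, b < s.re → LL (D + D') s = LL D s + LL D' s := by
  obtain ⟨b, hb, -⟩ := LL_nice D hD
  obtain ⟨b', hb', -⟩ := LL_nice D' hD'
  refine ⟨max b b', fun s hs => ?_⟩
  have h1 := hb s (lt_of_le_of_lt (le_max_left _ _) hs)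
  have h2 := hb' s (lt_of_le_of_lt (le_max_right _ _) hs)
  unfold LL
  rw [← h1.tsum_add h2]
  refine tsum_congr fun p => ?_
  rw [Pi.add_apply, map_add]

theorem LL_neg (D : Dat) (s : ℂ) : LL (-D) s = -LL D s := by
  unfold LL
  rw [← tsum_neg]
  refine tsum_congr fun p => ?_
  rw [Pi.neg_apply, map_neg]

theorem LL_tw (z : ℂ) (D : Dat) (s : ℂ) : LL (tw z * D) s = LL D (s - z) := by
  unfold LL
  refine tsum_congr fun p => ?_
  have hp : ((p : ℕ) : ℂ) ≠ 0 := Nat.cast_ne_zero.2 p.2.ne_zero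
  have h : (tw z * D) p = el (ppow p z) * D p := rfl
  rw [h, Lam_el_mul]
  have h2 : ((ppow p z : ℂˣ) : ℂ) * ((p : ℕ) : ℂ) ^ (-s) = ((p : ℕ) : ℂ) ^ (-(s - z)) := by
    have h3 : ((ppow p z : ℂˣ) : ℂ) = ((p : ℕ) : ℂ) ^ z := rfl
    rw [h3, ← Complex.cpow_add _ _ hp]
    congr 1
    ring
  rw [h2]

theorem tw_mem (z : ℂ) : tw z ∈ BB := by
  exact Subring.subset_closure ⟨fun p => ppow p z, poly_ppow z, rfl⟩

theorem tw_pow (z : ℂ) (a : ℕ) : tw z ^ a = tw (a * z) := by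
  funext p
  have h : (tw z ^ a) p = el (ppow p z) ^ a := rfl
  have h1 : tw (a * z) p = el (ppow p (a * z)) := rfl
  rw [h, h1]
  unfold el
  rw [← map_pow]
  congr 1
  apply Units.ext
  rw [Units.val_pow_eq_pow_val]
  have h3 : ∀ w, ((ppow p w : ℂˣ) : ℂ) = ((p : ℕ) : ℂ) ^ w := fun w => rfl
  rw [h3, h3, ← Complex.cpow_nat_mul]

theorem tw_neg_mul (z : ℂ) (D : Dat) : tw (-z) * (tw z * D) = D := by
  funext p
  have h : (tw (-z) * (tw z * D)) p = el (ppow p (-z)) * (el (ppow p z) * D p) := rfl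
  rw [h, ← mul_assoc]
  have h1 : el (ppow p (-z)) * el (ppow p z) = 1 := by
    unfold el
    rw [← map_mul]
    have h2 : ppow p (-z) * ppow p z = 1 := by
      apply Units.ext
      have hp : ((p : ℕ) : ℂ) ≠ 0 := Nat.cast_ne_zero.2 p.2.ne_zero
      have h3 : ∀ w, ((ppow p w : ℂˣ) : ℂ) = ((p : ℕ) : ℂ) ^ w := fun w => rfl
      rw [Units.val_mul, h3, h3, ← Complex.cpow_add _ _ hp]
      simp
    rw [h2, map_one]
  rw [h1, one_mul]

theorem cont_zero : Cont 0 := by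
  refine ⟨BB.zero_mem, 0, fun _ => 1, Meromorphic.const 1, fun s _ => ?_⟩
  unfold EE LL
  simp

theorem Cont.add {D D' : Dat} (h : Cont D) (h' : Cont D') : Cont (D + D') := by
  obtain ⟨hD, b, g, hg, hb⟩ := h
  obtain ⟨hD', b', g', hg', hb'⟩ := h'
  obtain ⟨b0, hb0⟩ := LL_add hD hD'
  refine ⟨BB.add_mem hD hD', max b0 (max b b'), g * g', hg.mul hg', fun s hs => ?_⟩
  have h0 := hb0 s (lt_of_le_of_lt (le_max_left _ _) hs)
  have h1 := hb s (lt_of_le_of_lt ((le_max_left _ _).trans (le_max_right _ _)) hs)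
  have h2 := hb' s (lt_of_le_of_lt ((le_max_right _ _).trans (le_max_right _ _)) hs)
  unfold EE at h1 h2 ⊢
  rw [h0, Complex.exp_add, h1, h2, Pi.mul_apply]

theorem Cont.neg {D : Dat} (h : Cont D) : Cont (-D) := by
  obtain ⟨hD, b, g, hg, hb⟩ := h
  refine ⟨BB.neg_mem hD, b, g⁻¹, hg.inv, fun s hs => ?_⟩
  have h1 := hb s hs
  unfold EE at h1 ⊢
  rw [LL_neg, Complex.exp_neg, h1, Pi.inv_apply]

theorem Cont.sub {D D' : Dat} (h : Cont D) (h' : Cont D') : Cont (D - D') := by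
  rw [sub_eq_add_neg]
  exact h.add h'.neg

/-- `EE (tw z * D) s = EE D (s - z)`. -/
theorem Cont.tw {D : Dat} (h : Cont D) (z : ℂ) : Cont (tw z * D) := by
  obtain ⟨hD, b, g, hg, hb⟩ := h
  refine ⟨BB.mul_mem (tw_mem z) hD, b + z.re, fun s => g (s - z), fun x => ?_, fun s hs => ?_⟩
  · exact (hg (x - z)).comp_analyticAt (g := fun s => s - z) (by fun_prop)
  · have h1 := hb (s - z) (by rw [Complex.sub_re]; linarith)
    unfold EE at h1 ⊢
    rw [LL_tw, h1]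

end Pool.Agent.EEA520
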