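import Pool.Agent.W_eea520_h25.ContA

/-! Finitely many primes do not matter. -/

set_option autoImplicit false

namespace Pool.Agent.EEA520

open Filter

private theorem ContB_Lam (d : A) (q : ℂ) :
    Lam q d = ∑ u ∈ d.coeff.support, ((d.coeff u : ℤ) : ℂ) * (-Complex.log (1 - (u : ℂ) * q)) := by
  rfl

/-- `exp (Lam q d)` is the Euler factor. (`d` is a finite sum of the `e [u]`; induction on the finitely
supported function or `Finsupp.sum`; `exp (e * (-log w)) = w ^ (-e)` for `w ≠ 0` and an integer `e`.) -/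
theorem exp_Lam (d : A) (q : ℂ) (h : ∀ u ∈ d.coeff.support, 1 - (u : ℂ) * q ≠ 0) :
    Complex.exp (Lam q d) = d.coeff.prod fun u e => (1 - (u : ℂ) * q) ^ (-e) := by
  rw [ContB_Lam, Complex.exp_sum, Finsupp.prod]
  refine Finset.prod_congr rfl fun u hu => ?_
  rw [Complex.exp_int_mul, Complex.exp_neg, Complex.exp_log (h u hu), inv_zpow, zpow_neg]

private theorem ContB_an (p : Pr) (u : ℂˣ) :
    Meromorphic fun s : ℂ => 1 - (u : ℂ) * ((p : ℕ) : ℂ) ^ (-s) := by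
  intro x
  have hp0 : (((p : ℕ) : ℂ)) ≠ 0 := Nat.cast_ne_zero.2 p.2.ne_zero
  have h : Differentiable ℂ fun s : ℂ => 1 - (u : ℂ) * ((p : ℕ) : ℂ) ^ (-s) := by
    intro s
    apply DifferentiableAt.const_sub
    apply DifferentiableAt.const_mul
    exact (differentiableAt_id.neg).const_cpow (Or.inl hp0)
  exact (h.analyticAt x).meromorphicAt

/-- A single Euler factor is meromorphic: for `re s` large, `exp (Lam (p⁻ˢ) d)` equals the finite
product of `exp_Lam`, which is meromorphic in `s`. -/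
theorem local_factor (p : Pr) (d : A) : ∃ (b : ℝ) (g : ℂ → ℂ), Meromorphic g ∧
    ∀ s : ℂ, b < s.re → Complex.exp (Lam (((p : ℕ) : ℂ) ^ (-s)) d) = g s := by
  refine ⟨∑ u ∈ d.coeff.support, |Real.logb ((p : ℕ) : ℝ) ‖(u : ℂ)‖|,
    ∏ u ∈ d.coeff.support, (fun s : ℂ => 1 - (u : ℂ) * ((p : ℕ) : ℂ) ^ (-s)) ^ (-d.coeff u),
    Meromorphic.prod fun u _ => (ContB_an p u).zpow, fun s hs => ?_⟩
  have hp1 : (1 : ℝ) < ((p : ℕ) : ℝ) := by exact_mod_cast p.2.one_lt
  have hp0 : (0 : ℝ) < ((p : ℕ) : ℝ) := by linarith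
  rw [exp_Lam, Finsupp.prod, Finset.prod_apply]
  · exact Finset.prod_congr rfl fun u _ => rfl
  · intro u hu h0
    have h1 : (u : ℂ) * ((p : ℕ) : ℂ) ^ (-s) = 1 := (sub_eq_zero.1 h0).symm
    have h2 : ‖(u : ℂ)‖ * ((p : ℕ) : ℝ) ^ (-s.re) = 1 := by
      have h3 := congrArg norm h1
      rw [norm_mul, Complex.norm_natCast_cpow_of_pos p.2.pos, norm_one, Complex.neg_re] at h3
      exact h3
    have h4 : |Real.logb ((p : ℕ) : ℝ) ‖(u : ℂ)‖| < s.re :=
      lt_of_le_of_lt (Finset.single_le_sum (f := fun u : ℂˣ => |Real.logb ((p : ℕ) : ℝ) ‖(u : ℂ)‖|)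
        (fun _ _ => abs_nonneg _) hu) hs
    have h5 : 0 < ‖(u : ℂ)‖ := norm_pos_iff.2 (Units.ne_zero _)
    have h6 : ‖(u : ℂ)‖ = ((p : ℕ) : ℝ) ^ Real.logb ((p : ℕ) : ℝ) ‖(u : ℂ)‖ :=
      (Real.rpow_logb hp0 hp1.ne' h5).symm
    have h7 : ((p : ℕ) : ℝ) ^ (Real.logb ((p : ℕ) : ℝ) ‖(u : ℂ)‖ + -s.re) = 1 := by
      rw [Real.rpow_add hp0, ← h6, h2]
    have h8 : ((p : ℕ) : ℝ) ^ (Real.logb ((p : ℕ) : ℝ) ‖(u : ℂ)‖ + -s.re) < 1 := by
      apply Real.rpow_lt_one_of_one_lt_of_neg hp1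
      linarith [le_abs_self (Real.logb ((p : ℕ) : ℝ) ‖(u : ℂ)‖)]
    linarith

/-- `LL D s` is a finite sum over the primes with `D p ≠ 0`. -/
theorem cont_of_finite {D : Dat} (hD : D ∈ BB) (h : ∀ᶠ p in cofinite, D p = 0) : Cont D := by
  have hfin : {p : Pr | ¬ D p = 0}.Finite := h
  choose b g hg hb using fun p : Pr => local_factor p (D p)
  refine ⟨hD, ∑ p ∈ hfin.toFinset, |b p|, ∏ p ∈ hfin.toFinset, g p,
    Meromorphic.prod fun p _ => hg p, fun s hs => ?_⟩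
  have h1 : LL D s = ∑ p ∈ hfin.toFinset, Lam (((p : ℕ) : ℂ) ^ (-s)) (D p) := by
    unfold LL
    refine tsum_eq_sum fun p hp => ?_
    have h2 : D p = 0 := by
      by_contra h3
      exact hp (hfin.mem_toFinset.2 h3)
    rw [h2, map_zero]
  unfold EE
  rw [h1, Complex.exp_sum, Finset.prod_apply]
  refine Finset.prod_congr rfl fun p hp => ?_
  apply hb
  have h4 : |b p| ≤ ∑ p ∈ hfin.toFinset, |b p| :=
    Finset.single_le_sum (f := fun p : Pr => |b p|) (fun _ _ => abs_nonneg _) hp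
  linarith [le_abs_self (b p)]

theorem cont_congr {D D' : Dat} (hD' : D' ∈ BB) (h : ∀ᶠ p in cofinite, D p = D' p)
    (hc : Cont D) : Cont D' := by
  have h1 : Cont (D' - D) := by
    refine cont_of_finite (BB.sub_mem hD' hc.1) ?_
    filter_upwards [h] with p hp
    rw [Pi.sub_apply, hp, sub_self]
  have h2 := hc.add h1
  rwa [add_sub_cancel] at h2

end Pool.Agent.EEA520
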