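import Pool.Agent.W_eea520_h25.Defs

/-!
# The group ring of `ℂˣ`, logarithms of Euler products

`A = ℤ[ℂˣ]`: the element `∑ e [u]` stands for the Euler factor `∏ (1 - u q) ^ (-e)`.
`Dat = Pr → A`; `EE D s = exp (∑_p Lam (p⁻ˢ) (D p))` is the Euler product of `D`.
-/

set_option autoImplicit false

namespace Pool.Agent.EEA520

open Filter Polynomial

/-- The group ring of `ℂˣ`. -/
abbrev A : Type := MonoidAlgebra ℤ ℂˣ

/-- The element `[u]` of the group ring. -/
noncomputable def el (u : ℂˣ) : A := MonoidAlgebra.of ℤ ℂˣ u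

/-- For every prime an element of the group ring. -/
abbrev Dat : Type := Pr → A

/-- `Lam q (∑ e [u]) = ∑ e * (-log (1 - u q))`. -/
noncomputable def Lam (q : ℂ) : A →+ ℂ :=
  MonoidAlgebra.liftNC (Int.castAddHom ℂ) fun u : ℂˣ => -Complex.log (1 - (u : ℂ) * q)

/-- The logarithm of the Euler product. -/
noncomputable def LL (D : Dat) (s : ℂ) : ℂ := ∑' p : Pr, Lam (((p : ℕ) : ℂ) ^ (-s)) (D p)

/-- The Euler product. -/
noncomputable def EE (D : Dat) (s : ℂ) : ℂ := Complex.exp (LL D s)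

/-- Bounded by a power of `p`. -/
def Poly (a : Pr → ℂˣ) : Prop := ∃ B : ℝ, ∀ p : Pr, ‖(a p : ℂ)‖ ≤ ((p : ℕ) : ℝ) ^ B

/-- All parameters of the system are bounded by powers of `p`. -/
def Bdd {n : ℕ} (π : GSys n) : Prop := ∃ B : ℝ, ∀ᶠ p : Pr in cofinite,
    (‖((π p).c : ℂ)‖ ≤ ((p : ℕ) : ℝ) ^ B ∧ ‖(((π p).c⁻¹ : ℂˣ) : ℂ)‖ ≤ ((p : ℕ) : ℝ) ^ B) ∧
    ∀ i, ‖((π p).x i : ℂ)‖ ≤ ((p : ℕ) : ℝ) ^ B ∧ ‖((((π p).x i)⁻¹ : ℂˣ) : ℂ)‖ ≤ ((p : ℕ) : ℝ) ^ B

/-- All parameters of the system are bounded by powers of `p`. -/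
def BddL {k : ℕ} (σ : GLSys k) : Prop := ∃ B : ℝ, ∀ᶠ p : Pr in cofinite,
    ∀ i, ‖(σ p i : ℂ)‖ ≤ ((p : ℕ) : ℝ) ^ B

/-- The ring generated by the `p ↦ [a p]`, `a` bounded by a power of `p`. -/
noncomputable def BB : Subring Dat := Subring.closure {D | ∃ a, Poly a ∧ D = fun p => el (a p)}

/-- `D` is in `BB` and its Euler product continues to a meromorphic function on `ℂ`. -/
def Cont (D : Dat) : Prop :=
  D ∈ BB ∧ ∃ (b : ℝ) (g : ℂ → ℂ), Meromorphic g ∧ ∀ s : ℂ, b < s.re → EE D s = g s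

/-- `p ↦ [p ^ z]`. -/
noncomputable def tw (z : ℂ) : Dat := fun p => el (ppow p z)

/-- The spin representation of a system of parameters. -/
noncomputable def spinD {n : ℕ} (π : GSys n) : Dat :=
  fun p => el (π p).c * ∏ i, (1 + el ((π p).x i))

/-- The `a`-th exterior power of a system of parameters for `GL_k`. -/
noncomputable def extD {k : ℕ} (σ : GLSys k) (a : ℕ) : Dat :=
  fun p => (∏ i, (1 + C (el (σ p i)) * X : A[X])).coeff a

/-- The ring generated by the exterior powers of the members of `Gl`. -/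
noncomputable def MM (Gl : (k : ℕ) → Set (GLSys k)) : Subring Dat :=
  Subring.closure {D | ∃ (k : ℕ) (σ : GLSys k) (a : ℕ), σ ∈ Gl k ∧ D = extD σ a}

/-- The group ring of the group of weights. -/
abbrev R (n : ℕ) : Type := AddMonoidAlgebra ℤ (Wt n)

/-- The element `[w]` of the group ring. -/
noncomputable def mon {n : ℕ} (w : Wt n) : R n := AddMonoidAlgebra.single w 1

/-- The weight `c² ∏ x_i`. -/
def nuW (n : ℕ) : Wt n := (2, fun _ => 1)

/-- The weights of the standard representation. -/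
def stdW (n : ℕ) : Multiset (Wt n) :=
  0 ::ₘ (Finset.univ.val.map (fun i => ((0 : ℤ), Pi.single i (1 : ℤ))) +
    Finset.univ.val.map fun i => ((0 : ℤ), -Pi.single i (1 : ℤ)))

/-- The `a`-th exterior power of the standard representation. -/
noncomputable def extV (n a : ℕ) : R n :=
  ((stdW n).map fun w => (1 + C (mon w) * X : (R n)[X])).prod.coeff a

/-- The spin representation. -/
noncomputable def spR (n : ℕ) : R n := mon (1, 0) * ∏ i : Fin n, (1 + mon (0, Pi.single i 1))

/-- Evaluation of characters at an element of the torus. -/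
noncomputable def evT {n : ℕ} (t : Torus n) : R n →+* A :=
  (AddMonoidAlgebra.lift ℤ A (Wt n)
    { toFun := fun w => el (t.ev (Multiplicative.toAdd w))
      map_one' := by simp [el, Torus.ev, MonoidAlgebra.one_def]
      map_mul' := fun v w => by
        simp only [el, ← map_mul]
        congr 1
        simp only [Torus.ev, toAdd_mul, Prod.fst_add, Prod.snd_add, Pi.add_apply, zpow_add,
          Finset.prod_mul_distrib]
        rw [mul_mul_mul_comm] }).toRingHom

/-- Evaluation of characters at a system of parameters. -/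
noncomputable def Phi {n : ℕ} (π : GSys n) : R n →+* Dat := RingHom.pi fun p => evT (π p)

end Pool.Agent.EEA520
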