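import Pool.Agent.W_eea520_h25.Defs

/-!
# Parabolic induction of systems of parameters
-/

set_option autoImplicit false

namespace Pool.Agent.EEA520

open Filter

/-- Parabolic induction from `GL_k × GSp_{2n}` to `GSp_{2(n+k)}` of `σ |det| ^ (-z) ⊗ π`. -/
noncomputable def induce {n k : ℕ} (π : GSys n) (σ : GLSys k) (z : ℂ) : GSys (n + k) :=
  fun p => ⟨(π p).c, Fin.append (π p).x fun i => σ p i * ppow p z⟩

/-- The twist by the power `-w` of the absolute value of the similitude factor. -/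
noncomputable def twist {n : ℕ} (π : GSys n) (w : ℂ) : GSys n :=
  fun p => ⟨(π p).c * ppow p w, (π p).x⟩

/-- The systems which are obtained from the members of the sets `P n` by parabolic induction with
members of the sets `S k` and all complex twists (up to changes at finitely many primes). -/
inductive Eis (S : (k : ℕ) → Set (GLSys k)) (P : (n : ℕ) → Set (GSys n)) :
    (n : ℕ) → GSys n → Prop
  | base {n : ℕ} {π : GSys n} : π ∈ P n → Eis S P n π
  | ind {n k : ℕ} {π : GSys n} {σ : GLSys k} (z : ℂ) : Eis S P n π → σ ∈ S k →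
      Eis S P (n + k) (induce π σ z)
  | tw {n : ℕ} {π : GSys n} (w : ℂ) : Eis S P n π → Eis S P n (twist π w)
  | congr {n : ℕ} {π π' : GSys n} : Eis S P n π → (∀ᶠ p in cofinite, π p = π' p) → Eis S P n π'

/-- The systems which are properly induced: `σ |det| ^ (-z) ⊗ π` is induced from `GL_k × GSp_{2n}`,
`k ≥ 1`, with `Re z < Z π σ`, where `Z` is a given function (for example, such that the Eisenstein
series converge absolutely for `Re z < Z π σ`), and twisted. -/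
inductive EisInd (S : (k : ℕ) → Set (GLSys k)) (P : (n : ℕ) → Set (GSys n))
    (Z : (n k : ℕ) → GSys n → GLSys k → ℝ) : (n : ℕ) → GSys n → Prop
  | mk {n k : ℕ} {π : GSys n} {σ : GLSys k} (z w : ℂ) : 0 < k → Eis S P n π → σ ∈ S k →
      z.re < Z n k π σ → EisInd S P Z (n + k) (twist (induce π σ z) w)

/-- The character `ν = c² ∏ x_i` of the torus, the similitude factor of `GSpin_{2n+1}`. Its value at
the Satake class `A_p` is the value at `p` of the central character. -/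
def Torus.nu {n : ℕ} (t : Torus n) : ℂˣ := t.c ^ 2 * ∏ i, t.x i

/-- The central character is trivial (at almost all primes). -/
def TrivialCentral {n : ℕ} (π : GSys n) : Prop := ∀ᶠ p in cofinite, (π p).nu = 1

/-- Properties of the sets `S k` and `P n` of systems of parameters. The example to have in mind:
`S k` (for `k ≥ 1`) and `P n` are the systems of Satake parameters of the unitary cuspidal
automorphic representations of `GL_k` and `GSp_{2n}` over `ℚ`. -/
structure IsCuspidal (S : (k : ℕ) → Set (GLSys k)) (P : (n : ℕ) → Set (GSys n)) : Prop where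
  /-- The parameters are bounded by powers of `p`. -/
  bddS : ∀ k, ∀ σ ∈ S k, ∃ B : ℝ, ∀ᶠ p : Pr in cofinite,
    ∀ i, ‖(σ p i : ℂ)‖ ≤ ((p : ℕ) : ℝ) ^ B ∧ ‖(((σ p i)⁻¹ : ℂˣ) : ℂ)‖ ≤ ((p : ℕ) : ℝ) ^ B
  /-- The parameters are bounded by powers of `p`. -/
  bddP : ∀ n, ∀ π ∈ P n, ∃ B : ℝ, ∀ᶠ p : Pr in cofinite,
    (‖((π p).c : ℂ)‖ ≤ ((p : ℕ) : ℝ) ^ B ∧ ‖(((π p).c⁻¹ : ℂˣ) : ℂ)‖ ≤ ((p : ℕ) : ℝ) ^ B) ∧
    ∀ i, ‖((π p).x i : ℂ)‖ ≤ ((p : ℕ) : ℝ) ^ B ∧ ‖((((π p).x i)⁻¹ : ℂˣ) : ℂ)‖ ≤ ((p : ℕ) : ℝ) ^ B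
  /-- `S 1` is a group (the group of unitary Hecke characters). -/
  one : ∃ χ ∈ S 1, ∀ᶠ p in cofinite, χ p 0 = 1
  mul : ∀ χ ∈ S 1, ∀ χ' ∈ S 1, ∃ χ'' ∈ S 1, ∀ᶠ p in cofinite, χ'' p 0 = χ p 0 * χ' p 0
  inv : ∀ χ ∈ S 1, ∃ χ' ∈ S 1, ∀ᶠ p in cofinite, χ' p 0 = (χ p 0)⁻¹
  /-- It contains the central characters of the members of `S k` and `P n`. -/
  det : ∀ k, ∀ σ ∈ S k, ∃ χ ∈ S 1, ∀ᶠ p in cofinite, χ p 0 = ∏ i, σ p i
  nu : ∀ n, ∀ π ∈ P n, ∃ χ ∈ S 1, ∀ᶠ p in cofinite, χ p 0 = (π p).nu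
  /-- `P 0` contains the trivial representation of `GSp_0 = GL_1`. -/
  triv : ∃ π ∈ P 0, ∀ᶠ p in cofinite, (π p).c = 1

/-- The eigenvalues of `π` in the standard representation of `GSpin_{2n+1}` (of degree `2n+1`) are, at
almost all primes, the union of the parameters of finitely many twists `σ_j |det| ^ (-z_j)` of members
of the sets `S k`. -/
def HasTransfer (S : (k : ℕ) → Set (GLSys k)) {n : ℕ} (π : GSys n) : Prop :=
  ∃ (r : ℕ) (d : Fin r → ℕ) (σ : (j : Fin r) → GLSys (d j)) (z : Fin r → ℂ),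
    (∀ j, σ j ∈ S (d j)) ∧ ∀ᶠ p in cofinite,
      (π p).std = ∑ j, Finset.univ.val.map fun i => σ j p i * ppow p (z j)

/-- The Euler product of `π` for the character `m`, over the primes outside some finite set `S`,
converges in some right half plane to a function which extends to a meromorphic function on the half
plane `Re s > c`. -/
def ContinuesTo (c : ℝ) {n : ℕ} (π : GSys n) (m : Wt n →₀ ℤ) : Prop :=
  ∃ (S : Finset Pr) (b : ℝ) (g : ℂ → ℂ), MeromorphicOn g {s : ℂ | c < s.re} ∧ ∀ s : ℂ, b < s.re →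
    HasProd (fun p : {p : Pr // p ∉ S} => (π p.1).factor m (((p.1 : ℕ) : ℂ) ^ (-s))) (g s)

/-- The virtual characters of `GL_k`: symmetric finitely supported functions on `ℤ ^ k`. -/
def IsSymmetric {k : ℕ} (m : (Fin k → ℤ) →₀ ℤ) : Prop :=
  ∀ (τ : Equiv.Perm (Fin k)) (μ : Fin k → ℤ), m (μ ∘ τ) = m μ

/-- `det (1 - ρ(t) q)⁻¹` for the representation `ρ` of `GL_k` with character `m` and the diagonal
matrix `t`. -/
noncomputable def glFactor {k : ℕ} (t : Fin k → ℂˣ) (m : (Fin k → ℤ) →₀ ℤ) (q : ℂ) : ℂ :=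
  m.prod fun μ e => (1 - ((∏ i, t i ^ μ i : ℂˣ) : ℂ) * q) ^ (-e)

/-- The Euler product of `σ` for the character `m` of `GL_k` extends to a meromorphic function
on `ℂ`. -/
def GLContinues {k : ℕ} (σ : GLSys k) (m : (Fin k → ℤ) →₀ ℤ) : Prop :=
  ∃ (S : Finset Pr) (b : ℝ) (g : ℂ → ℂ), Meromorphic g ∧ ∀ s : ℂ, b < s.re →
    HasProd (fun p : {p : Pr // p ∉ S} => glFactor (σ p.1) m (((p.1 : ℕ) : ℂ) ^ (-s))) (g s)

end Pool.Agent.EEA520
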