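import Pool.Agent.W_eea520_h25.Core

/-! Basic properties of `Lam`, `Poly`, `BB`. -/

set_option autoImplicit false

namespace Pool.Agent.EEA520

open Filter

theorem Lam_el (q : ℂ) (u : ℂˣ) : Lam q (el u) = -Complex.log (1 - (u : ℂ) * q) := by
  simp [Lam, el, MonoidAlgebra.of_apply, MonoidAlgebra.liftNC_single]

/-- Both sides are additive in `d`; check on `d = e [v]`. -/
theorem Lam_el_mul (q : ℂ) (u : ℂˣ) (d : A) : Lam q (el u * d) = Lam ((u : ℂ) * q) d := by
  have h : (Lam q).comp (AddMonoidHom.mulLeft (el u)) = Lam ((u : ℂ) * q) := by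
    refine MonoidAlgebra.addMonoidHom_ext ?_
    intro v e
    simp only [AddMonoidHom.comp_apply, AddMonoidHom.coe_mulLeft, el, MonoidAlgebra.of_apply,
      MonoidAlgebra.single_mul_single, one_mul, Lam, MonoidAlgebra.liftNC_single, Units.val_mul]
    congr 3
    ring_nf
  exact DFunLike.congr_fun h d

theorem poly_mul {a b : Pr → ℂˣ} (ha : Poly a) (hb : Poly b) : Poly (fun p => a p * b p) := by
  obtain ⟨B, hB⟩ := ha
  obtain ⟨B', hB'⟩ := hb
  refine ⟨B + B', fun p => ?_⟩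
  have hp : (0 : ℝ) < ((p : ℕ) : ℝ) := Nat.cast_pos.2 p.2.pos
  rw [Units.val_mul, norm_mul, Real.rpow_add hp]
  exact mul_le_mul (hB p) (hB' p) (norm_nonneg _) (Real.rpow_nonneg hp.le _)

theorem poly_one : Poly (fun _ => 1) := ⟨0, fun p => by simp⟩

theorem poly_ppow (z : ℂ) : Poly (fun p => ppow p z) := by
  refine ⟨z.re, fun p => ?_⟩
  have h : ((ppow p z : ℂˣ) : ℂ) = ((p : ℕ) : ℂ) ^ z := rfl
  rw [h, Complex.norm_natCast_cpow_of_pos p.2.pos]

/-- A bound at almost all primes is enough: `p ≥ 2`, so finitely many values can be absorbed by a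
larger exponent. -/
theorem poly_of_eventually {a : Pr → ℂˣ} (B : ℝ)
    (h : ∀ᶠ p : Pr in cofinite, ‖(a p : ℂ)‖ ≤ ((p : ℕ) : ℝ) ^ B) : Poly a := by
  have hfin : {p : Pr | ¬ ‖(a p : ℂ)‖ ≤ ((p : ℕ) : ℝ) ^ B}.Finite := h
  obtain ⟨C, hC⟩ := (hfin.image fun p : Pr => Real.logb ((p : ℕ) : ℝ) ‖(a p : ℂ)‖).bddAbove
  refine ⟨max B C, fun p => ?_⟩
  have hp1 : (1 : ℝ) < ((p : ℕ) : ℝ) := by exact_mod_cast p.2.one_lt
  by_cases hp : ‖(a p : ℂ)‖ ≤ ((p : ℕ) : ℝ) ^ B
  · exact hp.trans (Real.rpow_le_rpow_of_exponent_le hp1.le (le_max_left _ _))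
  · have h2 : Real.logb ((p : ℕ) : ℝ) ‖(a p : ℂ)‖ ≤ C := hC ⟨p, hp, rfl⟩
    have h3 : 0 < ‖(a p : ℂ)‖ := norm_pos_iff.2 (Units.ne_zero _)
    calc ‖(a p : ℂ)‖ = ((p : ℕ) : ℝ) ^ Real.logb ((p : ℕ) : ℝ) ‖(a p : ℂ)‖ :=
          (Real.rpow_logb (by linarith) (by linarith) h3).symm
      _ ≤ ((p : ℕ) : ℝ) ^ (max B C) :=
          Real.rpow_le_rpow_of_exponent_le hp1.le (h2.trans (le_max_right _ _))

/-- The ring `BB` is generated additively by the elements `p ↦ [a p]` (they form a monoid; use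
`Subring.mem_closure_iff`, `Submonoid.closure_eq`-type arguments, or `Subring.closure_induction` for the
membership in the additive subgroup generated by them). -/
theorem BB_induction {P : Dat → Prop} (gen : ∀ a, Poly a → P (fun p => el (a p))) (zero : P 0)
    (add : ∀ D D', D ∈ BB → D' ∈ BB → P D → P D' → P (D + D')) (neg : ∀ D, D ∈ BB → P D → P (-D)) :
    ∀ D ∈ BB, P D := by
  intro D hD
  let M : Submonoid Dat :=
    { carrier := {D | ∃ a, Poly a ∧ D = fun p => el (a p)}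
      mul_mem' := by
        rintro _ _ ⟨a, ha, rfl⟩ ⟨b, hb, rfl⟩
        refine ⟨fun p => a p * b p, poly_mul ha hb, ?_⟩
        funext p
        simp only [Pi.mul_apply, el, map_mul]
      one_mem' := ⟨fun _ => 1, poly_one, by funext p; simp only [Pi.one_apply, el, map_one]⟩ }
  have hM : (Submonoid.closure {D : Dat | ∃ a, Poly a ∧ D = fun p => el (a p)} : Submonoid Dat) =
      M := Submonoid.closure_eq M
  have hD' : D ∈ AddSubgroup.closure ((M : Submonoid Dat) : Set Dat) := by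
    rw [BB, Subring.mem_closure_iff, hM] at hD
    exact hD
  have hBB : ∀ x ∈ AddSubgroup.closure ((M : Submonoid Dat) : Set Dat), x ∈ BB := by
    intro x hx
    rw [BB, Subring.mem_closure_iff, hM]
    exact hx
  induction hD' using AddSubgroup.closure_induction with
  | mem x hx =>
    obtain ⟨a, ha, rfl⟩ := hx
    exact gen a ha
  | zero => exact zero
  | add x y hx hy h1 h2 => exact add x y (hBB x hx) (hBB y hy) (h1 (hBB x hx)) (h2 (hBB y hy))
  | neg x hx h1 => exact neg x (hBB x hx) (h1 (hBB x hx))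

end Pool.Agent.EEA520
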