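import Pool.Agent.W_eea520_h25.Cusp
import Pool.Agent.W_eea520_h25.LamA

/-! Bounds and central characters of the induced systems. -/

set_option autoImplicit false

namespace Pool.Agent.EEA520

open Filter

theorem ppow_add (p : Pr) (z w : ℂ) : ppow p (z + w) = ppow p z * ppow p w := by
  ext
  show ((p : ℕ) : ℂ) ^ (z + w) = ((p : ℕ) : ℂ) ^ z * ((p : ℕ) : ℂ) ^ w
  exact Complex.cpow_add _ _ (Nat.cast_ne_zero.2 p.2.ne_zero)

theorem ppow_zero (p : Pr) : ppow p 0 = 1 := by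
  ext
  show ((p : ℕ) : ℂ) ^ (0 : ℂ) = 1
  exact Complex.cpow_zero _

theorem ppow_nat_mul (p : Pr) (k : ℕ) (z : ℂ) : ppow p (k * z) = ppow p z ^ k := by
  induction k with
  | zero => rw [Nat.cast_zero, zero_mul, ppow_zero, pow_zero]
  | succ k ih =>
    rw [Nat.cast_succ, add_mul, one_mul, ppow_add, ih, pow_succ]

theorem ppow_neg (p : Pr) (z : ℂ) : ppow p (-z) = (ppow p z)⁻¹ := by
  rw [eq_inv_iff_mul_eq_one, ← ppow_add, neg_add_cancel, ppow_zero]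

theorem ppow_int_mul (p : Pr) (k : ℤ) (z : ℂ) : ppow p (k * z) = ppow p z ^ k := by
  obtain ⟨k, rfl | rfl⟩ := k.eq_nat_or_neg
  · rw [Int.cast_natCast, ppow_nat_mul, zpow_natCast]
  · rw [Int.cast_neg, Int.cast_natCast, neg_mul, ppow_neg, ppow_nat_mul, zpow_neg, zpow_natCast]

private lemma CuspA_pos (p : Pr) : (0 : ℝ) < ((p : ℕ) : ℝ) := Nat.cast_pos.2 p.2.pos

private lemma CuspA_one (p : Pr) : (1 : ℝ) ≤ ((p : ℕ) : ℝ) := by exact_mod_cast p.2.one_lt.le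

private lemma CuspA_mono {p : Pr} {B B' : ℝ} (h : B ≤ B') {x : ℝ}
    (hx : x ≤ ((p : ℕ) : ℝ) ^ B) : x ≤ ((p : ℕ) : ℝ) ^ B' :=
  hx.trans (Real.rpow_le_rpow_of_exponent_le (CuspA_one p) h)

private lemma CuspA_norm (p : Pr) (z : ℂ) : ‖((ppow p z : ℂˣ) : ℂ)‖ = ((p : ℕ) : ℝ) ^ z.re := by
  show ‖((p : ℕ) : ℂ) ^ z‖ = _
  rw [← Complex.ofReal_natCast, Complex.norm_cpow_eq_rpow_re_of_pos (CuspA_pos p)]

private lemma CuspA_mul {p : Pr} {B : ℝ} {a : ℂˣ} (z : ℂ)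
    (ha : ‖(a : ℂ)‖ ≤ ((p : ℕ) : ℝ) ^ B ∧ ‖((a⁻¹ : ℂˣ) : ℂ)‖ ≤ ((p : ℕ) : ℝ) ^ B) :
    ‖((a * ppow p z : ℂˣ) : ℂ)‖ ≤ ((p : ℕ) : ℝ) ^ (B + |z.re|) ∧
      ‖(((a * ppow p z)⁻¹ : ℂˣ) : ℂ)‖ ≤ ((p : ℕ) : ℝ) ^ (B + |z.re|) := by
  constructor
  · rw [Units.val_mul, norm_mul, CuspA_norm, Real.rpow_add (CuspA_pos p)]
    exact mul_le_mul ha.1 (Real.rpow_le_rpow_of_exponent_le (CuspA_one p) (le_abs_self _))
      (Real.rpow_nonneg (CuspA_pos p).le _) (Real.rpow_nonneg (CuspA_pos p).le _)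
  · rw [mul_inv, Units.val_mul, norm_mul, ← ppow_neg, CuspA_norm, Real.rpow_add (CuspA_pos p)]
    refine mul_le_mul ha.2 (Real.rpow_le_rpow_of_exponent_le (CuspA_one p) ?_)
      (Real.rpow_nonneg (CuspA_pos p).le _) (Real.rpow_nonneg (CuspA_pos p).le _)
    rw [Complex.neg_re]
    exact neg_le_abs _

variable {S : (k : ℕ) → Set (GLSys k)} {P : (n : ℕ) → Set (GSys n)}

/-- All parameters (and their inverses) of all members are bounded by powers of `p`. -/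
theorem Eis.bdd (h : IsCuspidal S P) {n : ℕ} {π : GSys n} (hπ : Eis S P n π) : Bdd π := by
  induction hπ with
  | base hπ => exact h.bddP _ _ hπ
  | @ind n k π σ z _ hσ ih =>
    obtain ⟨B, hB⟩ := ih
    obtain ⟨B', hB'⟩ := h.bddS k σ hσ
    refine ⟨max B (B' + |z.re|), ?_⟩
    filter_upwards [hB, hB'] with p h1 h2
    refine ⟨⟨CuspA_mono (le_max_left _ _) h1.1.1, CuspA_mono (le_max_left _ _) h1.1.2⟩,
      fun i => ?_⟩
    show ‖((Fin.append (π p).x (fun i => σ p i * ppow p z) i : ℂˣ) : ℂ)‖ ≤ _ ∧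
      ‖(((Fin.append (π p).x (fun i => σ p i * ppow p z) i)⁻¹ : ℂˣ) : ℂ)‖ ≤ _
    refine Fin.addCases (fun i => ?_) (fun i => ?_) i
    · rw [Fin.append_left]
      exact ⟨CuspA_mono (le_max_left _ _) (h1.2 i).1, CuspA_mono (le_max_left _ _) (h1.2 i).2⟩
    · rw [Fin.append_right]
      have h3 := CuspA_mul z (h2 i)
      exact ⟨CuspA_mono (le_max_right _ _) h3.1, CuspA_mono (le_max_right _ _) h3.2⟩
  | @tw n π w _ ih =>
    obtain ⟨B, hB⟩ := ih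
    refine ⟨B + |w.re|, ?_⟩
    filter_upwards [hB] with p h1
    have h0 : B ≤ B + |w.re| := le_add_of_nonneg_right (abs_nonneg _)
    exact ⟨CuspA_mul w h1.1, fun i => ⟨CuspA_mono h0 (h1.2 i).1, CuspA_mono h0 (h1.2 i).2⟩⟩
  | @congr n π π' _ he ih =>
    obtain ⟨B, hB⟩ := ih
    refine ⟨B, ?_⟩
    filter_upwards [hB, he] with p h1 h2
    rw [← h2]
    exact h1

theorem nu_induce {n k : ℕ} (π : GSys n) (σ : GLSys k) (z : ℂ) (p : Pr) :
    (induce π σ z p).nu = (π p).nu * (∏ i, σ p i) * ppow p (k * z) := by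
  show (π p).c ^ 2 * ∏ i, Fin.append (π p).x (fun i => σ p i * ppow p z) i = _
  rw [Fin.prod_univ_add]
  simp only [Fin.append_left, Fin.append_right, Torus.nu]
  rw [Finset.prod_mul_distrib, Finset.prod_const, Finset.card_univ, Fintype.card_fin,
    ppow_nat_mul]
  simp only [mul_assoc]

theorem nu_twist {n : ℕ} (π : GSys n) (w : ℂ) (p : Pr) :
    (twist π w p).nu = (π p).nu * ppow p (2 * w) := by
  show ((π p).c * ppow p w) ^ 2 * ∏ i, (π p).x i = _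
  have h2 : ppow p (2 * w) = ppow p w ^ 2 := by
    have := ppow_nat_mul p 2 w
    rwa [Nat.cast_ofNat] at this
  rw [h2, mul_pow, Torus.nu]
  exact mul_right_comm _ _ _

/-- The central character of every member is a twist of a member of `S 1`. -/
theorem Eis.central (h : IsCuspidal S P) {n : ℕ} {π : GSys n} (hπ : Eis S P n π) :
    ∃ χ ∈ S 1, ∃ t : ℂ, ∀ᶠ p in cofinite, (π p).nu = χ p 0 * ppow p t := by
  induction hπ with
  | base hπ =>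
    obtain ⟨χ, hχ, he⟩ := h.nu _ _ hπ
    refine ⟨χ, hχ, 0, ?_⟩
    filter_upwards [he] with p hp
    rw [hp, ppow_zero, mul_one]
  | @ind n k π σ z _ hσ ih =>
    obtain ⟨χ, hχ, t, he⟩ := ih
    obtain ⟨χ', hχ', he'⟩ := h.det k σ hσ
    obtain ⟨χ'', hχ'', he''⟩ := h.mul χ hχ χ' hχ'
    refine ⟨χ'', hχ'', t + k * z, ?_⟩
    filter_upwards [he, he', he''] with p h1 h2 h3
    rw [nu_induce, h1, ← h2, h3, ppow_add, mul_right_comm (χ p 0), mul_assoc]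
  | @tw n π w _ ih =>
    obtain ⟨χ, hχ, t, he⟩ := ih
    refine ⟨χ, hχ, t + 2 * w, ?_⟩
    filter_upwards [he] with p h1
    rw [nu_twist, h1, ppow_add, mul_assoc]
  | @congr n π π' _ he ih =>
    obtain ⟨χ, hχ, t, he'⟩ := ih
    refine ⟨χ, hχ, t, ?_⟩
    filter_upwards [he, he'] with p h1 h2
    rw [← h1]
    exact h2

/-- `S 1` is closed under integer powers. -/
theorem IsCuspidal.zpow (h : IsCuspidal S P) {χ : GLSys 1} (hχ : χ ∈ S 1) (j : ℤ) :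
    ∃ χ' ∈ S 1, ∀ᶠ p in cofinite, χ' p 0 = χ p 0 ^ j := by
  have hn : ∀ χ ∈ S 1, ∀ k : ℕ, ∃ χ' ∈ S 1, ∀ᶠ p in cofinite, χ' p 0 = χ p 0 ^ k := by
    intro χ hχ k
    induction k with
    | zero =>
      obtain ⟨χ', hχ', he⟩ := h.one
      exact ⟨χ', hχ', he.mono fun p hp => by rw [hp, pow_zero]⟩
    | succ k ih =>
      obtain ⟨χ₁, hχ₁, he₁⟩ := ih
      obtain ⟨χ₂, hχ₂, he₂⟩ := h.mul χ₁ hχ₁ χ hχ
      refine ⟨χ₂, hχ₂, ?_⟩
      filter_upwards [he₁, he₂] with p h1 h2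
      rw [h2, h1, pow_succ]
  obtain ⟨k, rfl | rfl⟩ := j.eq_nat_or_neg
  · obtain ⟨χ', hχ', he⟩ := hn χ hχ k
    exact ⟨χ', hχ', he.mono fun p hp => by rw [hp, zpow_natCast]⟩
  · obtain ⟨χ₁, hχ₁, he₁⟩ := h.inv χ hχ
    obtain ⟨χ', hχ', he⟩ := hn χ₁ hχ₁ k
    refine ⟨χ', hχ', ?_⟩
    filter_upwards [he, he₁] with p h1 h2
    rw [h1, h2, zpow_neg, zpow_natCast, inv_pow]

end Pool.Agent.EEA520
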