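import Mathlib

/-!
# Satake parameters for `GSp(2n)`, characters of `GSpin(2n+1)`, Euler products (MP_eea520_nt)
-/

set_option autoImplicit false

namespace Pool.Agent.EEA520

open Filter

/-- The prime numbers. -/
abbrev Pr : Type := Nat.Primes

/-- An element of the maximal torus of the dual group `GSpin_{2n+1}(ℂ)` of `GSp_{2n}`: in the spin
representation it acts with the `2 ^ n` eigenvalues `c ∏_{i ∈ I} x_i`, `I ⊆ {1, …, n}`, and in the
standard representation (of degree `2 n + 1`) with the eigenvalues `1, x_i, x_i⁻¹`. -/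
@[ext]
structure Torus (n : ℕ) where
  c : ℂˣ
  x : Fin n → ℂˣ

/-- The weights: `(k, μ)` stands for the character `c ^ k ∏ x_i ^ μ_i` of the torus. -/
abbrev Wt (n : ℕ) : Type := ℤ × (Fin n → ℤ)

/-- The value of a weight at an element of the torus. -/
def Torus.ev {n : ℕ} (t : Torus n) (w : Wt n) : ℂˣ := t.c ^ w.1 * ∏ i, t.x i ^ w.2 i

/-- The (virtual) characters of `GSpin_{2n+1}`: the finitely supported functions on the set of weights
which are invariant under the Weyl group. It is generated by the permutations of the `x_i` and the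
reflections `x_i ↦ x_i⁻¹`, `c ↦ c x_i`. -/
def IsCharacter {n : ℕ} (m : Wt n →₀ ℤ) : Prop :=
  (∀ (σ : Equiv.Perm (Fin n)) (k : ℤ) (μ : Fin n → ℤ), m (k, μ ∘ σ) = m (k, μ)) ∧
  ∀ (i : Fin n) (k : ℤ) (μ : Fin n → ℤ), m (k, Function.update μ i (k - μ i)) = m (k, μ)

/-- The character of the spin representation. -/
noncomputable def spin (n : ℕ) : Wt n →₀ ℤ :=
  ∑ I : Finset (Fin n), Finsupp.single (1, fun i => if i ∈ I then 1 else 0) 1

/-- `det (1 - ρ(t) q)⁻¹` for the representation `ρ` with character `m`. -/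
noncomputable def Torus.factor {n : ℕ} (t : Torus n) (m : Wt n →₀ ℤ) (q : ℂ) : ℂ :=
  m.prod fun w e => (1 - (t.ev w : ℂ) * q) ^ (-e)

/-- Systems of parameters for `GSp_{2n}`. (The values at finitely many primes do not matter.) -/
abbrev GSys (n : ℕ) : Type := Pr → Torus n

/-- Systems of parameters for `GL_k`. (The values at finitely many primes do not matter.) -/
abbrev GLSys (k : ℕ) : Type := Pr → Fin k → ℂˣ

/-- The Euler product `∏_{p ∉ S} det (1 - ρ(A_p) p⁻ˢ)⁻¹`, where `A_p` is the conjugacy class of `π p`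
and `m` is the character of `ρ`, converges in some right half plane to a function which extends to a
meromorphic function on `ℂ`, for some finite set `S`. -/
def Continues {n : ℕ} (π : GSys n) (m : Wt n →₀ ℤ) : Prop :=
  ∃ (S : Finset Pr) (b : ℝ) (g : ℂ → ℂ), Meromorphic g ∧ ∀ s : ℂ, b < s.re →
    HasProd (fun p : {p : Pr // p ∉ S} => (π p.1).factor m (((p.1 : ℕ) : ℂ) ^ (-s))) (g s)

/-- The positive real number `p`, as a unit, to the complex power `z`. -/
noncomputable def ppow (p : Pr) (z : ℂ) : ℂˣ :=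
  Units.mk0 (((p : ℕ) : ℂ) ^ z) (by
    rw [Ne, Complex.cpow_eq_zero_iff, not_and_or]
    exact Or.inl (Nat.cast_ne_zero.2 p.2.ne_zero))

/-- The eigenvalues of `t` in the standard representation. -/
def Torus.std {n : ℕ} (t : Torus n) : Multiset ℂˣ :=
  1 ::ₘ (Finset.univ.val.map t.x + Finset.univ.val.map fun i => (t.x i)⁻¹)

end Pool.Agent.EEA520
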