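import Pool.Agent.W_eea520_h25.LamA

/-! Membership in `BB`. -/

set_option autoImplicit false

namespace Pool.Agent.EEA520

open Filter Polynomial

theorem el_mem {a : Pr → ℂˣ} (ha : Poly a) : (fun p => el (a p) : Dat) ∈ BB :=
  Subring.subset_closure ⟨a, ha, rfl⟩

private theorem mem_c {n : ℕ} {π : GSys n} (hπ : Bdd π) : Poly (fun p => (π p).c) := by
  obtain ⟨B, hB⟩ := hπ
  exact poly_of_eventually B (hB.mono fun p hp => hp.1.1)

private theorem mem_cinv {n : ℕ} {π : GSys n} (hπ : Bdd π) : Poly (fun p => (π p).c⁻¹) := by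
  obtain ⟨B, hB⟩ := hπ
  exact poly_of_eventually B (hB.mono fun p hp => hp.1.2)

private theorem mem_x {n : ℕ} {π : GSys n} (hπ : Bdd π) (i : Fin n) :
    Poly (fun p => (π p).x i) := by
  obtain ⟨B, hB⟩ := hπ
  exact poly_of_eventually B (hB.mono fun p hp => (hp.2 i).1)

private theorem mem_xinv {n : ℕ} {π : GSys n} (hπ : Bdd π) (i : Fin n) :
    Poly (fun p => ((π p).x i)⁻¹) := by
  obtain ⟨B, hB⟩ := hπ
  exact poly_of_eventually B (hB.mono fun p hp => (hp.2 i).2)

theorem spinD_mem {n : ℕ} {π : GSys n} (hπ : Bdd π) : spinD π ∈ BB := by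
  have h : spinD π = (fun p => el (π p).c : Dat) *
      ∏ i, (1 + (fun p => el ((π p).x i) : Dat)) := by
    funext p
    simp only [spinD, Pi.mul_apply, Finset.prod_apply, Pi.add_apply, Pi.one_apply]
  rw [h]
  exact Subring.mul_mem _ (el_mem (mem_c hπ))
    (Subring.prod_mem _ fun i _ => Subring.add_mem _ (Subring.one_mem _) (el_mem (mem_x hπ i)))

/-- The coefficients of a finite product of polynomials `1 + C b * X` with `b` in a subring are in the
subring; `extD σ a` is the coefficient of such a product over the ring `Dat`, evaluated at every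
`p` (or do an induction on the finite product). -/
theorem extD_mem {k : ℕ} {σ : GLSys k} (hσ : BddL σ) (a : ℕ) : extD σ a ∈ BB := by
  obtain ⟨B, hB⟩ := hσ
  have hi : ∀ i, (fun p => el (σ p i) : Dat) ∈ BB := fun i =>
    el_mem (poly_of_eventually B (hB.mono fun p hp => hp i))
  have h : extD σ a = (∏ i, (1 + C (fun p => el (σ p i) : Dat) * X : Dat[X])).coeff a := by
    funext p
    have h1 : (∏ i, (1 + C (el (σ p i)) * X : A[X])) =
        (∏ i, (1 + C (fun p => el (σ p i) : Dat) * X : Dat[X])).map
          (Pi.evalRingHom (fun _ : Pr => A) p) := by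
      rw [Polynomial.map_prod]
      refine Finset.prod_congr rfl fun i _ => ?_
      simp
    simp only [extD]
    rw [h1, Polynomial.coeff_map]
    rfl
  rw [h]
  have h2 : (∏ i, (1 + C (fun p => el (σ p i) : Dat) * X : Dat[X])) ∈
      Polynomial.lifts BB.subtype := by
    refine prod_mem fun i _ => add_mem (one_mem _) (mul_mem ?_ (Polynomial.X_mem_lifts _))
    exact Polynomial.C_mem_lifts BB.subtype ⟨_, hi i⟩
  obtain ⟨b, hb⟩ := (Polynomial.lifts_iff_coeff_lifts _).1 h2 a
  rw [← hb]
  exact b.2

private theorem mem_pow {a : Pr → ℂˣ} (ha : Poly a) (k : ℕ) : Poly (fun p => a p ^ k) := by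
  induction k with
  | zero => simpa using poly_one
  | succ k ih => simpa only [pow_succ] using poly_mul ih ha

private theorem mem_zpow {a : Pr → ℂˣ} (ha : Poly a) (ha' : Poly (fun p => (a p)⁻¹)) (k : ℤ) :
    Poly (fun p => a p ^ k) := by
  obtain ⟨k, rfl | rfl⟩ := k.eq_nat_or_neg
  · simpa only [zpow_natCast] using mem_pow ha k
  · have := mem_pow ha' k
    simpa only [zpow_neg, zpow_natCast, inv_pow] using this

private theorem mem_prod {ι : Type} (s : Finset ι) {a : ι → Pr → ℂˣ}
    (ha : ∀ i ∈ s, Poly (a i)) : Poly (fun p => ∏ i ∈ s, a i p) := by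
  classical
  induction s using Finset.induction_on with
  | empty => simpa using poly_one
  | insert i s his ih =>
    simp only [Finset.prod_insert his]
    exact poly_mul (ha i (Finset.mem_insert_self i s))
      (ih fun j hj => ha j (Finset.mem_insert_of_mem hj))

/-- A polynomial bound for the values of a weight, at all primes. -/
theorem poly_ev {n : ℕ} {π : GSys n} (hπ : Bdd π) (w : Wt n) : Poly (fun p => (π p).ev w) := by
  have h := poly_mul (mem_zpow (mem_c hπ) (mem_cinv hπ) w.1)
    (mem_prod Finset.univ (a := fun i p => (π p).x i ^ w.2 i) fun i _ =>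
      mem_zpow (mem_x hπ i) (mem_xinv hπ i) (w.2 i))
  exact h

/-- `Phi π m` is a finite `ℤ`-combination of the `p ↦ [ev (π p) w]`. -/
theorem Phi_mem {n : ℕ} {π : GSys n} (hπ : Bdd π) (m : R n) : Phi π m ∈ BB := by
  induction m using AddMonoidAlgebra.induction_on with
  | of w =>
    have h : Phi π (AddMonoidAlgebra.of ℤ (Wt n) (Multiplicative.ofAdd w)) =
        fun p => el ((π p).ev w) := by
      funext p
      change (AddMonoidAlgebra.lift ℤ A (Wt n) _)
        (AddMonoidAlgebra.of ℤ (Wt n) (Multiplicative.ofAdd w)) = _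
      rw [AddMonoidAlgebra.lift_of]
      rfl
    rw [h]
    exact el_mem (poly_ev hπ w)
  | add x y hx hy =>
    rw [map_add]
    exact Subring.add_mem _ hx hy
  | smul r x hx =>
    rw [map_zsmul]
    exact Subring.zsmul_mem _ hx r

end Pool.Agent.EEA520
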