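import Pool.Agent.W_eea520_h25.ContB
import Pool.Agent.W_eea520_h25.Mem

/-! The Euler product of a system of parameters. -/

set_option autoImplicit false

namespace Pool.Agent.EEA520

open Filter

theorem evT_mon {n : ℕ} (t : Torus n) (w : Wt n) : evT t (mon w) = el (t.ev w) := by
  unfold evT mon
  simp [AddMonoidAlgebra.lift_single]

private theorem Euler_Lam_el (q : ℂ) (u : ℂˣ) : Lam q (el u) = -Complex.log (1 - (u : ℂ) * q) := by
  simp [Lam, el]

private theorem Euler_single {n : ℕ} (w : Wt n) (e : ℤ) :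
    (AddMonoidAlgebra.single w e : R n) = e • mon w := by
  simp [mon]

private theorem Euler_Lam_evT {n : ℕ} (t : Torus n) (m : R n) (q : ℂ) :
    Lam q (evT t m) = m.coeff.sum fun w e => (e : ℂ) * -Complex.log (1 - (t.ev w : ℂ) * q) := by
  have h1 : m = m.coeff.sum fun w e => e • mon w := by
    have h0 : (AddMonoidAlgebra.single : Wt n → ℤ → R n) = fun w e => e • mon w := by
      funext w e
      exact Euler_single w e
    conv_lhs => rw [← AddMonoidAlgebra.sum_coeff_single m, h0]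
  conv_lhs => rw [h1]
  rw [Finsupp.sum, map_sum, map_sum, Finsupp.sum]
  refine Finset.sum_congr rfl fun w _ => ?_
  rw [map_zsmul, map_zsmul, evT_mon, Euler_Lam_el, zsmul_eq_mul]

/-- The factor of `m` is the exponential of `Lam`. (Induction on `m`, additively: `Lam q (evT t m)`
is `∑ m w * (-log (1 - ev w * q))`; `exp (e * (-log x)) = x ^ (-e)` for `x ≠ 0`.) -/
theorem exp_Lam_evT {n : ℕ} (t : Torus n) (m : R n) (q : ℂ)
    (h : ∀ w ∈ m.coeff.support, 1 - (t.ev w : ℂ) * q ≠ 0) :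
    Complex.exp (Lam q (evT t m)) = t.factor m.coeff q := by
  rw [Euler_Lam_evT, Finsupp.sum, Complex.exp_sum, Torus.factor, Finsupp.prod]
  refine Finset.prod_congr rfl fun w hw => ?_
  rw [Complex.exp_int_mul, Complex.exp_neg, Complex.exp_log (h w hw), zpow_neg, inv_zpow]

/-- For `re s` large no factor vanishes. -/
theorem factor_ne {n : ℕ} {π : GSys n} (hπ : Bdd π) (m : R n) : ∃ b : ℝ, ∀ s : ℂ, b < s.re →
    ∀ p : Pr, ∀ w ∈ m.coeff.support, 1 - ((π p).ev w : ℂ) * ((p : ℕ) : ℂ) ^ (-s) ≠ 0 := by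
  choose B hB using fun w : Wt n => poly_ev hπ w
  obtain ⟨b, hb⟩ : ∃ b : ℝ, ∀ w ∈ m.coeff.support, B w ≤ b := by
    obtain ⟨b, hb⟩ := (m.coeff.support.image B).bddAbove
    exact ⟨b, fun w hw => hb (Finset.mem_coe.2 (Finset.mem_image_of_mem B hw))⟩
  refine ⟨b, fun s hs p w hw h0 => ?_⟩
  have hp : (1 : ℝ) < ((p : ℕ) : ℝ) := by exact_mod_cast p.2.one_lt
  have h1 : ((π p).ev w : ℂ) * ((p : ℕ) : ℂ) ^ (-s) = 1 := (sub_eq_zero.1 h0).symm
  have h2 : ‖((π p).ev w : ℂ) * ((p : ℕ) : ℂ) ^ (-s)‖ < 1 := by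
    rw [norm_mul]
    have h3 : ‖((p : ℕ) : ℂ) ^ (-s)‖ = ((p : ℕ) : ℝ) ^ (-s.re) := by
      rw [Complex.norm_natCast_cpow_of_pos p.2.pos]
      simp
    rw [h3]
    calc ‖((π p).ev w : ℂ)‖ * ((p : ℕ) : ℝ) ^ (-s.re)
        ≤ ((p : ℕ) : ℝ) ^ (B w) * ((p : ℕ) : ℝ) ^ (-s.re) :=
          mul_le_mul_of_nonneg_right (hB w p) (Real.rpow_nonneg (by linarith) _)
      _ = ((p : ℕ) : ℝ) ^ (B w - s.re) := by
          rw [← Real.rpow_add (by linarith)]
          rfl
      _ < 1 := Real.rpow_lt_one_of_one_lt_of_neg hp (by linarith [hb w hw])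
  rw [h1, norm_one] at h2
  exact lt_irrefl _ h2

private theorem Euler_factor_ne_zero {n : ℕ} (t : Torus n) (m : R n) (q : ℂ)
    (h : ∀ w ∈ m.coeff.support, 1 - (t.ev w : ℂ) * q ≠ 0) : t.factor m.coeff q ≠ 0 := by
  rw [← exp_Lam_evT t m q h]
  exact Complex.exp_ne_zero _

/-- For a finite set `S` and `re s` large, `∏_{p ∉ S} factor` converges, and its product with the
finite product of the factors at `p ∈ S` is `EE (Phi π m) s`. -/
theorem hasProd_factor {n : ℕ} {π : GSys n} (hπ : Bdd π) (m : R n) (S : Finset Pr) :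
    ∃ b : ℝ, ∀ s : ℂ, b < s.re →
      HasProd (fun p : {p : Pr // p ∉ S} => (π p.1).factor m.coeff (((p.1 : ℕ) : ℂ) ^ (-s)))
        (EE (Phi π m) s / ∏ p ∈ S, (π p).factor m.coeff (((p : ℕ) : ℂ) ^ (-s))) := by
  obtain ⟨b₁, h₁⟩ := factor_ne hπ m
  obtain ⟨b₂, h₂, -⟩ := LL_nice (Phi π m) (Phi_mem hπ m)
  refine ⟨max b₁ b₂, fun s hs => ?_⟩
  have hs₁ : b₁ < s.re := lt_of_le_of_lt (le_max_left _ _) hs
  have hs₂ : b₂ < s.re := lt_of_le_of_lt (le_max_right _ _) hs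
  have hS := (h₂ s hs₂).hasSum
  have hPhi : ∀ p : Pr, Phi π m p = evT (π p) m := fun p => rfl
  have key : ∀ p : Pr, Complex.exp (Lam (((p : ℕ) : ℂ) ^ (-s)) (Phi π m p)) =
      (π p).factor m.coeff (((p : ℕ) : ℂ) ^ (-s)) := fun p => by
    rw [hPhi]
    exact exp_Lam_evT (π p) m _ (h₁ s hs₁ p)
  have hc : HasSum (fun p : {p : Pr // p ∉ S} => Lam (((p.1 : ℕ) : ℂ) ^ (-s)) (Phi π m p.1))
      (LL (Phi π m) s - ∑ p ∈ S, Lam (((p : ℕ) : ℂ) ^ (-s)) (Phi π m p)) := by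
    refine (Finset.hasSum_compl_iff (f := fun p : Pr => Lam (((p : ℕ) : ℂ) ^ (-s)) (Phi π m p)) S).2 ?_
    rw [sub_add_cancel]
    exact hS
  have hd := hc.cexp
  rw [Complex.exp_sub, Complex.exp_sum] at hd
  simp only [key] at hd
  have he : (Complex.exp ∘ fun p : {p : Pr // p ∉ S} =>
      Lam (((p.1 : ℕ) : ℂ) ^ (-s)) (Phi π m p.1)) =
      fun p : {p : Pr // p ∉ S} => (π p.1).factor m.coeff (((p.1 : ℕ) : ℂ) ^ (-s)) :=
    funext fun p => key p.1
  rw [he] at hd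
  exact hd

/-- A single factor is a meromorphic function of `s`. -/
theorem factor_meromorphic {n : ℕ} (t : Torus n) (m : Wt n →₀ ℤ) (p : Pr) :
    Meromorphic fun s : ℂ => t.factor m (((p : ℕ) : ℂ) ^ (-s)) := by
  intro s
  unfold Torus.factor Finsupp.prod
  refine MeromorphicAt.fun_prod fun w _ => ?_
  refine MeromorphicAt.fun_zpow ?_ _
  have hp : ((p : ℕ) : ℂ) ≠ 0 := Nat.cast_ne_zero.2 p.2.ne_zero
  have hd : Differentiable ℂ fun s : ℂ => 1 - (t.ev w : ℂ) * ((p : ℕ) : ℂ) ^ (-s) := by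
    intro s
    have h1 : DifferentiableAt ℂ (fun s : ℂ => ((p : ℕ) : ℂ) ^ (-s)) s :=
      DifferentiableAt.const_cpow (differentiableAt_id.neg) (Or.inl hp)
    exact (differentiableAt_const _).sub ((differentiableAt_const _).mul h1)
  exact (hd.analyticAt s).meromorphicAt

theorem continues_iff {n : ℕ} {π : GSys n} (hπ : Bdd π) (m : R n) :
    Continues π m.coeff ↔ Cont (Phi π m) := by
  constructor
  · rintro ⟨S, b, g, hg, h⟩
    refine ⟨Phi_mem hπ m, ?_⟩
    obtain ⟨b₁, h₁⟩ := factor_ne hπ m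
    obtain ⟨b₂, h₂⟩ := hasProd_factor hπ m S
    refine ⟨max b (max b₁ b₂), fun s => g s * ∏ p ∈ S, (π p).factor m.coeff (((p : ℕ) : ℂ) ^ (-s)),
      ?_, fun s hs => ?_⟩
    · intro s
      exact (hg s).mul (MeromorphicAt.fun_prod fun p _ => factor_meromorphic (π p) m.coeff p s)
    · have hs0 : b < s.re := lt_of_le_of_lt (le_max_left _ _) hs
      have hs1 : b₁ < s.re := lt_of_le_of_lt ((le_max_left _ _).trans (le_max_right _ _)) hs
      have hs2 : b₂ < s.re := lt_of_le_of_lt ((le_max_right _ _).trans (le_max_right _ _)) hs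
      have hu := (h s hs0).unique (h₂ s hs2)
      have hne : ∏ p ∈ S, (π p).factor m.coeff (((p : ℕ) : ℂ) ^ (-s)) ≠ 0 :=
        Finset.prod_ne_zero_iff.2 fun p _ => Euler_factor_ne_zero (π p) m _ (h₁ s hs1 p)
      simp only [hu]
      rw [div_mul_cancel₀ _ hne]
  · rintro ⟨-, b, g, hg, h⟩
    obtain ⟨b₂, h₂⟩ := hasProd_factor hπ m ∅
    refine ⟨∅, max b b₂, g, hg, fun s hs => ?_⟩
    have hs0 : b < s.re := lt_of_le_of_lt (le_max_left _ _) hs
    have hs2 : b₂ < s.re := lt_of_le_of_lt (le_max_right _ _) hs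
    have h3 := h₂ s hs2
    rw [Finset.prod_empty, div_one, h s hs0] at h3
    exact h3

end Pool.Agent.EEA520
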