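import Mathlib

/-! Gluing meromorphic functions on growing half planes. -/

set_option autoImplicit false

namespace Pool.Agent.EEA520

open Filter Topology

/-- Identity theorem on a half plane (convex, hence preconnected): if two meromorphic functions agree
for large `re s`, they agree near every point of the half plane, off this point.
(`MeromorphicOn.exists_meromorphicOrderAt_ne_top_iff_forall` for the difference.) -/
theorem glue_identity (M c : ℝ) (g h : ℂ → ℂ) (hg : MeromorphicOn g {s : ℂ | M < s.re})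
    (hh : MeromorphicOn h {s : ℂ | M < s.re}) (hgh : ∀ s : ℂ, c < s.re → g s = h s) :
    ∀ s : ℂ, M < s.re → g =ᶠ[𝓝[≠] s] h := by
  intro s hs
  have hd : MeromorphicOn (g - h) {s : ℂ | M < s.re} := hg.sub hh
  have hU : IsPreconnected {s : ℂ | M < s.re} := (convex_halfSpace_re_gt M).isPreconnected
  have htop : meromorphicOrderAt (g - h) s = ⊤ := by
    by_contra hne
    have hy : (((max M c + 1 : ℝ) : ℂ)) ∈ {s : ℂ | M < s.re} := by
      show M < (((max M c + 1 : ℝ) : ℂ)).re
      rw [Complex.ofReal_re]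
      have := le_max_left M c
      linarith
    have h1 := hd.meromorphicOrderAt_ne_top_of_isPreconnected hU hs hy hne
    apply h1
    rw [meromorphicOrderAt_eq_top_iff]
    apply Filter.Eventually.filter_mono nhdsWithin_le_nhds
    have hopen : IsOpen {s : ℂ | c < s.re} := isOpen_lt continuous_const Complex.continuous_re
    have hmem : (((max M c + 1 : ℝ) : ℂ)) ∈ {s : ℂ | c < s.re} := by
      show c < (((max M c + 1 : ℝ) : ℂ)).re
      rw [Complex.ofReal_re]
      have := le_max_right M c
      linarith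
    filter_upwards [hopen.mem_nhds hmem] with z hz
    simp [hgh z hz]
  rw [meromorphicOrderAt_eq_top_iff] at htop
  filter_upwards [htop] with z hz
  simpa [sub_eq_zero] using hz

/-- Proof. For every natural number `M` take `g M` and replace it by its normal form
`toMeromorphicNFOn (g M) {s | -M < re s}`. By `glue_identity` and
`MeromorphicNFAt.eventuallyEq_nhdsNE_iff_eventuallyEq_nhds` these functions agree on the common half
planes, so they define a function `G` on `ℂ` (`G s = g M s` for every `M > - re s`), which is locally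
equal to one of them. `G = F` for large `re s` since `F` is analytic there (both sides are in normal
form). -/
theorem glue (F : ℂ → ℂ) (b : ℝ) (hF : DifferentiableOn ℂ F {s : ℂ | b < s.re})
    (h : ∀ M : ℝ, ∃ (c : ℝ) (g : ℂ → ℂ), MeromorphicOn g {s : ℂ | -M < s.re} ∧
      ∀ s : ℂ, c < s.re → F s = g s) :
    ∃ (b' : ℝ) (g : ℂ → ℂ), Meromorphic g ∧ ∀ s : ℂ, b' < s.re → F s = g s := by
  choose c g hg hc using fun n : ℕ => h (n : ℝ)
  have hN : ∀ s : ℂ, -((⌈-s.re⌉₊ + 1 : ℕ) : ℝ) < s.re := by
    intro s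
    have := Nat.le_ceil (-s.re)
    push_cast
    linarith
  -- consistency
  have key : ∀ (m n : ℕ) (s : ℂ), -(m : ℝ) < s.re → -(n : ℝ) < s.re →
      toMeromorphicNFAt (g m) s s = toMeromorphicNFAt (g n) s s := by
    intro m n s hm hn
    have h1 : g m =ᶠ[𝓝[≠] s] g n := by
      refine glue_identity (max (-(m : ℝ)) (-(n : ℝ))) (max (c m) (c n)) (g m) (g n) ?_ ?_ ?_ s
        (max_lt hm hn)
      · intro z hz
        exact hg m z (lt_of_le_of_lt (le_max_left (-(m : ℝ)) (-(n : ℝ))) hz)
      · intro z hz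
        exact hg n z (lt_of_le_of_lt (le_max_right (-(m : ℝ)) (-(n : ℝ))) hz)
      · intro z hz
        rw [← hc m z (lt_of_le_of_lt (le_max_left _ _) hz),
          ← hc n z (lt_of_le_of_lt (le_max_right _ _) hz)]
    exact (toMeromorphicNFAt_eventuallyEq_nhds_congr h1).eq_of_nhds
  refine ⟨max b (max (c 0) 0), fun s => toMeromorphicNFAt (g (⌈-s.re⌉₊ + 1)) s s, ?_, ?_⟩
  · intro s
    set n := ⌈-s.re⌉₊ + 1 with hn
    have hs : -(n : ℝ) < s.re := hN s
    have hev : (fun s => toMeromorphicNFAt (g (⌈-s.re⌉₊ + 1)) s s) =ᶠ[𝓝[≠] s] g n := by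
      have hopen : IsOpen {z : ℂ | -(n : ℝ) < z.re} :=
        isOpen_lt continuous_const Complex.continuous_re
      have h1 : ∀ᶠ z in 𝓝[≠] s, z ∈ {z : ℂ | -(n : ℝ) < z.re} :=
        Filter.Eventually.filter_mono nhdsWithin_le_nhds (hopen.mem_nhds hs)
      have h2 : ∀ᶠ z in 𝓝[≠] s, AnalyticAt ℂ (g n) z := (hg n s hs).eventually_analyticAt
      filter_upwards [h1, h2] with z hz1 hz2
      rw [key (⌈-z.re⌉₊ + 1) n z (hN z) hz1]
      rw [toMeromorphicNFAt_eq_self.2 hz2.meromorphicNFAt]
    exact (hg n s hs).congr hev.symm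
  · intro s hs
    have hs1 : b < s.re := lt_of_le_of_lt (le_max_left _ _) hs
    have hs2 : c 0 < s.re := lt_of_le_of_lt ((le_max_left _ _).trans (le_max_right _ _)) hs
    have hs3 : 0 < s.re := lt_of_le_of_lt ((le_max_right _ _).trans (le_max_right _ _)) hs
    have hopen : IsOpen {z : ℂ | b < z.re} := isOpen_lt continuous_const Complex.continuous_re
    have hopen2 : IsOpen {z : ℂ | c 0 < z.re} := isOpen_lt continuous_const Complex.continuous_re
    have hFan : AnalyticAt ℂ F s := hF.analyticAt (hopen.mem_nhds hs1)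
    have hFg : F =ᶠ[𝓝 s] g 0 := by
      filter_upwards [hopen2.mem_nhds hs2] with z hz
      exact hc 0 z hz
    have hgan : AnalyticAt ℂ (g 0) s := hFan.congr hFg
    show F s = toMeromorphicNFAt (g (⌈-s.re⌉₊ + 1)) s s
    rw [key (⌈-s.re⌉₊ + 1) 0 s (hN s) (by simpa using hs3),
      toMeromorphicNFAt_eq_self.2 hgan.meromorphicNFAt]
    exact hFg.eq_of_nhds

end Pool.Agent.EEA520
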