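import Pool.Agent.W_eea520_h25.Iso
import Pool.Agent.W_eea520_h25.Euler
import Pool.Agent.W_eea520_h25.Cusp

/-! Continuation to a fixed half plane, for all twists. -/

set_option autoImplicit false

namespace Pool.Agent.EEA520

open Filter

/-- `D` is in `BB` and its Euler product continues to a meromorphic function on `re s > c`. -/
def ContTo (c : ℝ) (D : Dat) : Prop :=
  D ∈ BB ∧ ∃ (b : ℝ) (g : ℂ → ℂ), MeromorphicOn g {s : ℂ | c < s.re} ∧
    ∀ s : ℂ, b < s.re → EE D s = g s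

/-- As `cont_congr`: `D' - D` is zero at almost all primes, so `Cont (D' - D)` by
`cont_of_finite`; multiply the two continuations (`LL_add`). -/
theorem contTo_congr {c : ℝ} {D D' : Dat} (hD' : D' ∈ BB) (h : ∀ᶠ p in cofinite, D p = D' p)
    (hc : ContTo c D) : ContTo c D' := by
  obtain ⟨hD, b, g, hg, hb⟩ := hc
  have h0 : D' - D ∈ BB := sub_mem hD' hD
  obtain ⟨-, b', g', hg', hb'⟩ := cont_of_finite h0 (by
    filter_upwards [h] with p hp
    rw [Pi.sub_apply, hp, sub_self])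
  obtain ⟨b0, hb0⟩ := LL_add hD h0
  refine ⟨hD', max b0 (max b b'), fun s => g s * g' s, fun s hs => (hg s hs).mul (hg' s),
    fun s hs => ?_⟩
  have e0 := hb0 s (lt_of_le_of_lt (le_max_left _ _) hs)
  have e1 := hb s (lt_of_le_of_lt ((le_max_left _ _).trans (le_max_right _ _)) hs)
  have e2 := hb' s (lt_of_le_of_lt ((le_max_right _ _).trans (le_max_right _ _)) hs)
  rw [add_sub_cancel] at e0
  show EE D' s = g s * g' s
  rw [← e1, ← e2]
  unfold EE
  rw [e0, Complex.exp_add]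

/-- As `continues_iff` (`hasProd_factor`, `factor_meromorphic`). -/
theorem contTo_of_continuesTo {c : ℝ} {n : ℕ} {π : GSys n} (hπ : Bdd π) (m : R n)
    (h : ContinuesTo c π m.coeff) : ContTo c (Phi π m) := by
  obtain ⟨S, b, g, hg, h⟩ := h
  refine ⟨Phi_mem hπ m, ?_⟩
  obtain ⟨b₁, h₁⟩ := factor_ne hπ m
  obtain ⟨b₂, h₂⟩ := hasProd_factor hπ m S
  refine ⟨max b (max b₁ b₂), fun s => g s * ∏ p ∈ S, (π p).factor m.coeff (((p : ℕ) : ℂ) ^ (-s)),
    ?_, fun s hs => ?_⟩
  · intro s hs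
    exact (hg s hs).mul (MeromorphicAt.fun_prod fun p _ => factor_meromorphic (π p) m.coeff p s)
  · have hs0 : b < s.re := lt_of_le_of_lt (le_max_left _ _) hs
    have hs1 : b₁ < s.re := lt_of_le_of_lt ((le_max_left _ _).trans (le_max_right _ _)) hs
    have hs2 : b₂ < s.re := lt_of_le_of_lt ((le_max_right _ _).trans (le_max_right _ _)) hs
    have hu := (h s hs0).unique (h₂ s hs2)
    have hne : ∏ p ∈ S, (π p).factor m.coeff (((p : ℕ) : ℂ) ^ (-s)) ≠ 0 :=
      Finset.prod_ne_zero_iff.2 fun p _ => by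
        rw [← exp_Lam_evT (π p) m _ (h₁ s hs1 p)]
        exact Complex.exp_ne_zero _
    show EE (Phi π m) s = g s * ∏ p ∈ S, (π p).factor m.coeff (((p : ℕ) : ℂ) ^ (-s))
    rw [hu, div_mul_cancel₀ _ hne]

/-- The hypothesis says that `EE (D₀ + tw z * D₁)` continues to `re s > c + (t + z) / 2`
(`LL_tw`: `EE (tw w * D) s = EE D (s - w)`). `EE (tw z * D₁) s = EE D₁ (s - z)` is analytic without
zeros for `re s > b + z`. So `EE D₀` continues to `re s > max (c + (t + z) / 2) (b + z)`, for all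
`z < Z`; let `z` tend to `-∞` and use `glue`. -/
theorem iso_half (c t Z : ℝ) (D₀ D₁ : Dat) (h₀ : D₀ ∈ BB) (h₁ : D₁ ∈ BB)
    (h : ∀ z : ℝ, z < Z → ContTo c (tw ((-(t + z) / 2 : ℝ) : ℂ) * (D₀ + tw z * D₁))) :
    Cont D₀ := by
  obtain ⟨b₀, -, hb₀⟩ := LL_nice D₀ h₀
  obtain ⟨b₁, -, hb₁⟩ := LL_nice D₁ h₁
  have hF : DifferentiableOn ℂ (EE D₀) {s : ℂ | b₀ < s.re} := fun s hs => (hb₀ s hs).cexp
  obtain ⟨b', g, hg, hg'⟩ := glue (EE D₀) b₀ hF (by
    intro M
    obtain ⟨z, hz⟩ : ∃ z : ℝ, z = min (Z - 1) (min (-2 * M - 2 * c - t) (-M - b₁)) := ⟨_, rfl⟩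
    have hz0 : z ≤ Z - 1 := by rw [hz]; exact min_le_left _ _
    have hz1 : z ≤ -2 * M - 2 * c - t := by rw [hz]; exact (min_le_right _ _).trans (min_le_left _ _)
    have hz2 : z ≤ -M - b₁ := by rw [hz]; exact (min_le_right _ _).trans (min_le_right _ _)
    obtain ⟨-, b2, g, hg, hb2⟩ := h z (by linarith)
    obtain ⟨w, hw⟩ : ∃ w : ℝ, w = -(t + z) / 2 := ⟨_, rfl⟩
    rw [← hw] at hb2
    obtain ⟨b3, hb3⟩ := LL_add h₀ (mul_mem (tw_mem (z : ℂ)) h₁)
    have hopen : IsOpen {s : ℂ | -M < s.re} := isOpen_lt continuous_const Complex.continuous_re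
    have hdiff : DifferentiableOn ℂ (fun s : ℂ => Complex.exp (-LL D₁ (s - (z : ℂ))))
        {s : ℂ | -M < s.re} := by
      intro s hs
      have hmaps : Set.MapsTo (fun s : ℂ => s - (z : ℂ)) {s : ℂ | -M < s.re}
          {s : ℂ | b₁ < s.re} := by
        intro s hs
        have hs' : -M < s.re := hs
        show b₁ < (s - (z : ℂ)).re
        rw [Complex.sub_re, Complex.ofReal_re]
        linarith
      refine DifferentiableWithinAt.cexp (DifferentiableWithinAt.neg ?_)
      exact (hb₁ _ (hmaps hs)).comp s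
        ((differentiableAt_id.sub (differentiableAt_const _)).differentiableWithinAt) hmaps
    refine ⟨max (b2 - w) b3, fun s => g (s + (w : ℂ)) * Complex.exp (-LL D₁ (s - (z : ℂ))),
      fun s hs => ?_, fun s hs => ?_⟩
    · have hs' : -M < s.re := hs
      have h1 : c < (s + (w : ℂ)).re := by
        rw [Complex.add_re, Complex.ofReal_re, hw]
        linarith
      refine MeromorphicAt.mul ?_ ((hdiff.analyticAt (hopen.mem_nhds hs)).meromorphicAt)
      exact (hg (s + (w : ℂ)) h1).comp_analyticAt (g := fun s => s + (w : ℂ)) (by fun_prop)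
    · have hs1 : b2 - w < s.re := lt_of_le_of_lt (le_max_left _ _) hs
      have hs2 : b3 < s.re := lt_of_le_of_lt (le_max_right _ _) hs
      have e1 := hb2 (s + (w : ℂ)) (by
        rw [Complex.add_re, Complex.ofReal_re]
        linarith)
      have e2 := hb3 s hs2
      show EE D₀ s = g (s + (w : ℂ)) * Complex.exp (-LL D₁ (s - (z : ℂ)))
      rw [← e1]
      unfold EE
      rw [LL_tw, add_sub_cancel_right, e2, LL_tw, ← Complex.exp_add]
      congr 1
      ring)
  exact ⟨h₀, b', g, hg, hg'⟩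

end Pool.Agent.EEA520
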