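import Pool.Agent.W_eea520_h25.ContA
import Pool.Agent.W_eea520_h25.Glue

/-! The isolation lemma. -/

set_option autoImplicit false

namespace Pool.Agent.EEA520

open Filter

private theorem Iso_sum (k : ℕ) (E : ℕ → Dat) (hE : ∀ a < k, E a ∈ BB) :
    ∃ b : ℝ, ∀ s : ℂ, b < s.re →
      LL (∑ a ∈ Finset.range k, E a) s = ∑ a ∈ Finset.range k, LL (E a) s := by
  induction k with
  | zero =>
    refine ⟨0, fun s _ => ?_⟩
    rw [Finset.sum_range_zero, Finset.sum_range_zero]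
    unfold LL
    simp
  | succ k ih =>
    obtain ⟨b, hb⟩ := ih fun a ha => hE a (Nat.lt_succ_of_lt ha)
    obtain ⟨b', hb'⟩ := LL_add (D := ∑ a ∈ Finset.range k, E a) (D' := E k)
      (sum_mem fun a ha => hE a (Nat.lt_succ_of_lt (Finset.mem_range.1 ha)))
      (hE k (Nat.lt_succ_self k))
    refine ⟨max b b', fun s hs => ?_⟩
    rw [Finset.sum_range_succ, Finset.sum_range_succ, hb' s (lt_of_le_of_lt (le_max_right _ _) hs),
      hb s (lt_of_le_of_lt (le_max_left _ _) hs)]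

private theorem Iso_LL_tw_pow (z : ℂ) (a : ℕ) (D : Dat) (s : ℂ) :
    LL (tw z ^ a * D) s = LL D (s - a * z) := by
  rw [tw_pow, LL_tw]

private theorem Iso_split (k : ℕ) (z : ℂ) (D : ℕ → Dat) :
    ∑ a ∈ Finset.range (k + 1), tw z ^ a * D a =
      (∑ a ∈ Finset.range k, tw z ^ (a + 1) * D (a + 1)) + D 0 := by
  rw [Finset.sum_range_succ']
  congr 1
  rw [pow_zero, one_mul]

/-- Let `T z = ∑_{1 ≤ a ≤ k} tw z ^ a * D a`. There is `b` such that for `z = -M`, `M ≥ 0`,
`s ↦ exp (∑_{1 ≤ a ≤ k} LL (D a) (s + a M))` is analytic and without zeros for `re s > b - M`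
and equal to `EE (T z) s` for large `re s` (`LL_add`, `LL_tw`, `tw_pow`).
So `EE (D 0) = EE (D 0 + T z) / EE (T z)` continues meromorphically to `re s > b - M`, for all large
`M`: `glue`. -/
theorem iso_zero (k : ℕ) (D : ℕ → Dat) (hD : ∀ a ≤ k, D a ∈ BB) (Z : ℝ)
    (h : ∀ z : ℝ, z < Z → Cont (∑ a ∈ Finset.range (k + 1), tw z ^ a * D a)) : Cont (D 0) := by
  have hnice : ∀ a : ℕ, ∃ b : ℝ, a ≤ k → DifferentiableOn ℂ (LL (D a)) {s : ℂ | b < s.re} := by
    intro a
    by_cases ha : a ≤ k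
    · obtain ⟨b, -, hb⟩ := LL_nice (D a) (hD a ha)
      exact ⟨b, fun _ => hb⟩
    · exact ⟨0, fun h => absurd h ha⟩
  choose B hB using hnice
  obtain ⟨b, hb⟩ : ∃ b : ℝ, ∀ a ≤ k, B a ≤ b := by
    obtain ⟨b, hb⟩ := ((Finset.range (k + 1)).image B).bddAbove
    exact ⟨b, fun a ha => hb (Finset.mem_coe.2 (Finset.mem_image_of_mem B
      (Finset.mem_range.2 (Nat.lt_succ_of_le ha))))⟩
  have hF : DifferentiableOn ℂ (EE (D 0)) {s : ℂ | B 0 < s.re} := by
    intro s hs
    exact (hB 0 (Nat.zero_le k) s hs).cexp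
  obtain ⟨b', g, hg, hg'⟩ := glue (EE (D 0)) (B 0) hF (by
    intro M
    obtain ⟨N, hN⟩ : ∃ N : ℝ, N = max 0 (max (1 - Z) (b + M)) := ⟨_, rfl⟩
    have hN0 : 0 ≤ N := by rw [hN]; exact le_max_left _ _
    have hN1 : 1 - Z ≤ N := by rw [hN]; exact (le_max_left _ _).trans (le_max_right _ _)
    have hN2 : b + M ≤ N := by rw [hN]; exact (le_max_right _ _).trans (le_max_right _ _)
    obtain ⟨-, b1, g1, hg1, hb1⟩ := h (-N) (by linarith)
    have hmem : ∀ a < k, tw ((-N : ℝ) : ℂ) ^ (a + 1) * D (a + 1) ∈ BB := fun a ha =>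
      mul_mem (pow_mem (tw_mem _) _) (hD (a + 1) ha)
    obtain ⟨b2, hb2⟩ := Iso_sum k (fun a => tw ((-N : ℝ) : ℂ) ^ (a + 1) * D (a + 1)) hmem
    obtain ⟨b3, hb3⟩ := LL_add
      (D := ∑ a ∈ Finset.range k, tw ((-N : ℝ) : ℂ) ^ (a + 1) * D (a + 1)) (D' := D 0)
      (sum_mem fun a ha => hmem a (Finset.mem_range.1 ha)) (hD 0 (Nat.zero_le k))
    have hopen : IsOpen {s : ℂ | -M < s.re} := isOpen_lt continuous_const Complex.continuous_re
    have hdiff : DifferentiableOn ℂ (fun s : ℂ => Complex.exp (-∑ a ∈ Finset.range k,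
        LL (D (a + 1)) (s - ((a + 1 : ℕ) : ℂ) * ((-N : ℝ) : ℂ)))) {s : ℂ | -M < s.re} := by
      intro s hs
      refine DifferentiableWithinAt.cexp (DifferentiableWithinAt.neg ?_)
      refine DifferentiableWithinAt.fun_sum fun a ha => ?_
      have hak : a + 1 ≤ k := Finset.mem_range.1 ha
      have hmaps : Set.MapsTo (fun s : ℂ => s - ((a + 1 : ℕ) : ℂ) * ((-N : ℝ) : ℂ))
          {s : ℂ | -M < s.re} {s : ℂ | B (a + 1) < s.re} := by
        intro t ht
        have ht' : -M < t.re := ht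
        show B (a + 1) < (t - ((a + 1 : ℕ) : ℂ) * ((-N : ℝ) : ℂ)).re
        have h1 : (t - ((a + 1 : ℕ) : ℂ) * ((-N : ℝ) : ℂ)).re = t.re + ((a + 1 : ℕ) : ℝ) * N := by
          rw [Complex.sub_re, ← Complex.ofReal_natCast, ← Complex.ofReal_mul, Complex.ofReal_re]
          ring
        rw [h1]
        have h2 := hb (a + 1) hak
        have h3 : (1 : ℝ) ≤ ((a + 1 : ℕ) : ℝ) := by
          exact_mod_cast Nat.le_add_left 1 a
        have h4 : 1 * N ≤ ((a + 1 : ℕ) : ℝ) * N := mul_le_mul_of_nonneg_right h3 hN0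
        linarith
      exact (hB (a + 1) hak _ (hmaps hs)).comp s
        ((differentiableAt_id.sub (differentiableAt_const _)).differentiableWithinAt) hmaps
    refine ⟨max b1 (max b2 b3), fun s => g1 s * Complex.exp (-∑ a ∈ Finset.range k,
        LL (D (a + 1)) (s - ((a + 1 : ℕ) : ℂ) * ((-N : ℝ) : ℂ))), fun s hs => ?_, fun s hs => ?_⟩
    · exact (hg1 s).mul ((hdiff.analyticAt (hopen.mem_nhds hs)).meromorphicAt)
    · have hs1 : b1 < s.re := lt_of_le_of_lt (le_max_left _ _) hs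
      have hs2 : b2 < s.re := lt_of_le_of_lt ((le_max_left _ _).trans (le_max_right _ _)) hs
      have hs3 : b3 < s.re := lt_of_le_of_lt ((le_max_right _ _).trans (le_max_right _ _)) hs
      have e1 := hb1 s hs1
      have e2 := hb2 s hs2
      have e3 := hb3 s hs3
      rw [Iso_split] at e1
      simp only [Iso_LL_tw_pow] at e2
      show EE (D 0) s = g1 s * _
      rw [← e1]
      unfold EE
      rw [e3, e2, ← Complex.exp_add]
      congr 1
      ring)
  exact ⟨hD 0 (Nat.zero_le k), b', g, hg, hg'⟩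

/-- Induction on `k`: `iso_zero` gives `Cont (D 0)`; subtract `D 0`, multiply by `tw (-z)`, apply the
induction hypothesis to `a ↦ D (a + 1)`. -/
theorem isolation (k : ℕ) (D : ℕ → Dat) (hD : ∀ a ≤ k, D a ∈ BB) (Z : ℝ)
    (h : ∀ z : ℝ, z < Z → Cont (∑ a ∈ Finset.range (k + 1), tw z ^ a * D a)) :
    ∀ a ≤ k, Cont (D a) := by
  induction k generalizing D with
  | zero =>
    intro a ha
    obtain rfl : a = 0 := Nat.le_zero.1 ha
    exact iso_zero 0 D hD Z h
  | succ k ih =>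
    have h0 : Cont (D 0) := iso_zero (k + 1) D hD Z h
    have h1 : ∀ a ≤ k, Cont (D (a + 1)) := by
      refine ih (fun a => D (a + 1)) (fun a ha => hD (a + 1) (Nat.succ_le_succ ha)) fun z hz => ?_
      have h2 := h z hz
      rw [Iso_split] at h2
      have h3 := h2.sub h0
      have h4 : (∑ a ∈ Finset.range (k + 1), tw (z : ℂ) ^ (a + 1) * D (a + 1)) + D 0 - D 0 =
          tw (z : ℂ) * ∑ a ∈ Finset.range (k + 1), tw (z : ℂ) ^ a * D (a + 1) := by
        rw [add_sub_cancel_right, Finset.mul_sum]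
        refine Finset.sum_congr rfl fun a _ => ?_
        rw [pow_succ']
        ring
      rw [h4] at h3
      have h5 := h3.tw (-(z : ℂ))
      rw [tw_neg_mul] at h5
      exact h5
    intro a ha
    cases a with
    | zero => exact h0
    | succ a => exact h1 a (Nat.succ_le_succ_iff.1 ha)

end Pool.Agent.EEA520
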