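import Pool.Agent.W_eea520_h25.LamA

/-! Convergence of the logarithm of the Euler product. -/

set_option autoImplicit false

namespace Pool.Agent.EEA520

open Filter

private theorem LamB_pow_le {B : ℝ} {a : Pr → ℂˣ} (hB : ∀ p : Pr, ‖(a p : ℂ)‖ ≤ ((p : ℕ) : ℝ) ^ B)
    {s : ℂ} (hs : B + 2 < s.re) (p : Pr) :
    ‖(a p : ℂ) * ((p : ℕ) : ℂ) ^ (-s)‖ ≤ ((p : ℕ) : ℝ) ^ (-2 : ℝ) := by
  have hp2 : (2 : ℝ) ≤ ((p : ℕ) : ℝ) := by exact_mod_cast p.2.two_le
  have hp0 : (0 : ℝ) < ((p : ℕ) : ℝ) := by linarith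
  have h1 : ‖((p : ℕ) : ℂ) ^ (-s)‖ = ((p : ℕ) : ℝ) ^ (-s.re) := by
    have := Complex.norm_natCast_cpow_of_pos p.2.pos (-s)
    simpa using this
  calc ‖(a p : ℂ) * ((p : ℕ) : ℂ) ^ (-s)‖ = ‖(a p : ℂ)‖ * ((p : ℕ) : ℝ) ^ (-s.re) := by
        rw [norm_mul, h1]
    _ ≤ ((p : ℕ) : ℝ) ^ B * ((p : ℕ) : ℝ) ^ (-s.re) := by
        gcongr
        exact hB p
    _ = ((p : ℕ) : ℝ) ^ (B + -s.re) := by rw [Real.rpow_add hp0]
    _ ≤ ((p : ℕ) : ℝ) ^ (-2 : ℝ) := by
        apply Real.rpow_le_rpow_of_exponent_le (by linarith)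
        linarith

private theorem LamB_quarter (p : Pr) : ((p : ℕ) : ℝ) ^ (-2 : ℝ) ≤ 1 / 4 := by
  have hp2 : (2 : ℝ) ≤ ((p : ℕ) : ℝ) := by exact_mod_cast p.2.two_le
  have hp0 : (0 : ℝ) < ((p : ℕ) : ℝ) := by linarith
  have h : ((p : ℕ) : ℝ) ^ (-2 : ℝ) = (((p : ℕ) : ℝ) ^ 2)⁻¹ := by
    rw [Real.rpow_neg hp0.le]
    norm_num
  rw [h, one_div]
  apply inv_anti₀ (by norm_num)
  nlinarith

private theorem LamB_log_le {w : ℂ} (hw : ‖w‖ ≤ 1 / 4) : ‖-Complex.log (1 - w)‖ ≤ 2 * ‖w‖ := by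
  have h := Complex.norm_log_one_add_half_le_self (z := -w) (by rw [norm_neg]; linarith)
  rw [norm_neg, ← sub_eq_add_neg] at h
  rw [norm_neg]
  have := norm_nonneg w
  linarith

/-- By `BB_induction`. For a generator with `‖a p‖ ≤ p ^ B` take `b = B + 2`: for `re s > b` the number
`w = a p * p ^ (-s)` has `‖w‖ ≤ p ^ (-2) ≤ 1/4`, so `1 - w` is in the slit plane and
`‖log (1 - w)‖ ≤ 2 ‖w‖ ≤ 2 p ^ (-2)` (`Complex.norm_log_one_add_half_le_self` or similar), which is
summable over the primes (`Nat.Primes.summable_rpow`); `differentiableOn_tsum_of_summable_norm`.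
For sums take the maximum of the two numbers `b` (`LL (D + D') = LL D + LL D'` there). -/
theorem LL_nice (D : Dat) (hD : D ∈ BB) : ∃ b : ℝ,
    (∀ s : ℂ, b < s.re → Summable fun p : Pr => Lam (((p : ℕ) : ℂ) ^ (-s)) (D p)) ∧
    DifferentiableOn ℂ (LL D) {s : ℂ | b < s.re} := by
  refine BB_induction (P := fun D => ∃ b : ℝ,
    (∀ s : ℂ, b < s.re → Summable fun p : Pr => Lam (((p : ℕ) : ℂ) ^ (-s)) (D p)) ∧
    DifferentiableOn ℂ (LL D) {s : ℂ | b < s.re}) ?_ ?_ ?_ ?_ D hD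
  · rintro a ⟨B, hB⟩
    have hsum : Summable fun p : Pr => 2 * ((p : ℕ) : ℝ) ^ (-2 : ℝ) := by
      apply Summable.mul_left
      exact Nat.Primes.summable_rpow.2 (by norm_num)
    have hle : ∀ (p : Pr) (s : ℂ), s ∈ {s : ℂ | B + 2 < s.re} →
        ‖Lam (((p : ℕ) : ℂ) ^ (-s)) (el (a p))‖ ≤ 2 * ((p : ℕ) : ℝ) ^ (-2 : ℝ) := by
      intro p s hs
      rw [Lam_el]
      have h1 := LamB_pow_le hB hs p
      have h2 := LamB_quarter p
      exact (LamB_log_le (h1.trans h2)).trans (by linarith)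
    refine ⟨B + 2, ?_, ?_⟩
    · intro s hs
      exact Summable.of_norm_bounded hsum fun p => hle p s hs
    · have hopen : IsOpen {s : ℂ | B + 2 < s.re} := isOpen_lt continuous_const Complex.continuous_re
      refine Complex.differentiableOn_tsum_of_summable_norm hsum ?_ hopen hle
      intro p s hs
      have hp0 : (((p : ℕ) : ℂ)) ≠ 0 := Nat.cast_ne_zero.2 p.2.ne_zero
      have h1 : DifferentiableAt ℂ (fun s : ℂ => 1 - ((a p : ℂˣ) : ℂ) * ((p : ℕ) : ℂ) ^ (-s)) s := by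
        apply DifferentiableAt.const_sub
        apply DifferentiableAt.const_mul
        exact (differentiableAt_id.neg).const_cpow (Or.inl hp0)
      have h2 : 1 - ((a p : ℂˣ) : ℂ) * ((p : ℕ) : ℂ) ^ (-s) ∈ Complex.slitPlane := by
        have h1 := LamB_pow_le hB hs p
        have h2 := LamB_quarter p
        rw [sub_eq_add_neg]
        apply Complex.mem_slitPlane_of_norm_lt_one
        rw [norm_neg]
        linarith
      have h3 : DifferentiableAt ℂ
          (fun s : ℂ => Lam (((p : ℕ) : ℂ) ^ (-s)) (el (a p))) s := by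
        have h4 : (fun s : ℂ => Lam (((p : ℕ) : ℂ) ^ (-s)) (el (a p))) =
            fun s : ℂ => -Complex.log (1 - ((a p : ℂˣ) : ℂ) * ((p : ℕ) : ℂ) ^ (-s)) := by
          funext s
          rw [Lam_el]
        rw [h4]
        exact (h1.clog h2).neg
      exact h3.differentiableWithinAt
  · refine ⟨0, ?_, ?_⟩
    · intro s _
      simp
    · have h : LL (0 : Dat) = fun _ => 0 := by
        funext s
        simp [LL]
      rw [h]
      exact differentiableOn_const 0
  · rintro D D' - - ⟨b, h1, h2⟩ ⟨b', h1', h2'⟩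
    refine ⟨max b b', ?_, ?_⟩
    · intro s hs
      have := (h1 s (lt_of_le_of_lt (le_max_left _ _) hs)).add
        (h1' s (lt_of_le_of_lt (le_max_right _ _) hs))
      simpa using this
    · have h3 : DifferentiableOn ℂ (fun s => LL D s + LL D' s) {s : ℂ | max b b' < s.re} :=
        (h2.mono fun s (hs : max b b' < s.re) => lt_of_le_of_lt (le_max_left _ _) hs).add
          (h2'.mono fun s (hs : max b b' < s.re) => lt_of_le_of_lt (le_max_right _ _) hs)
      refine h3.congr ?_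
      intro s (hs : max b b' < s.re)
      have := (h1 s (lt_of_le_of_lt (le_max_left _ _) hs)).tsum_add
        (h1' s (lt_of_le_of_lt (le_max_right _ _) hs))
      rw [LL, LL, LL, ← this]
      simp
  · rintro D - ⟨b, h1, h2⟩
    refine ⟨b, ?_, ?_⟩
    · intro s hs
      have := (h1 s hs).neg
      simpa using this
    · refine h2.neg.congr ?_
      intro s _
      simp [LL, tsum_neg]

end Pool.Agent.EEA520
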