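import Pool.Agent.W_eea520_h25.Core

/-! Identities for spin and standard representations. -/

set_option autoImplicit false

namespace Pool.Agent.EEA520

open Filter Polynomial

private theorem Spin_natDegree_le {k : ℕ} (f : Fin k → A) :
    (∏ i, (1 + C (f i) * X : A[X])).natDegree ≤ k := by
  have h := natDegree_prod_le (Finset.univ : Finset (Fin k)) fun i => (1 + C (f i) * X : A[X])
  refine h.trans ?_
  have h1 : ∀ i ∈ (Finset.univ : Finset (Fin k)), (1 + C (f i) * X : A[X]).natDegree ≤ 1 := by
    intro i _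
    refine (natDegree_add_le _ _).trans ?_
    rw [natDegree_one]
    exact max_le (Nat.zero_le _) ((natDegree_C_mul_le _ _).trans natDegree_X_le)
  refine (Finset.sum_le_sum h1).trans ?_
  simp

private theorem Spin_evT_mon {n : ℕ} (t : Torus n) (w : Wt n) : evT t (mon w) = el (t.ev w) := by
  simp [evT, mon, AddMonoidAlgebra.lift_single]

private theorem Spin_Phi_mon {n : ℕ} (π : GSys n) (w : Wt n) (p : Pr) :
    Phi π (mon w) p = el ((π p).ev w) := Spin_evT_mon _ _

private theorem Spin_mon_mul {n : ℕ} (v w : Wt n) : (mon v * mon w : R n) = mon (v + w) := by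
  simp [mon, AddMonoidAlgebra.single_mul_single]

private theorem Spin_ev_single {n : ℕ} (t : Torus n) (i : Fin n) :
    t.ev ((0 : ℤ), Pi.single i (1 : ℤ)) = t.x i := by
  simp only [Torus.ev, zpow_zero, one_mul]
  rw [Finset.prod_eq_single i]
  · simp
  · intro j _ hj
    simp [hj]
  · simp

private theorem Spin_ev_neg_single {n : ℕ} (t : Torus n) (i : Fin n) :
    t.ev ((0 : ℤ), -Pi.single i (1 : ℤ)) = (t.x i)⁻¹ := by
  simp only [Torus.ev, zpow_zero, one_mul]
  rw [Finset.prod_eq_single i]
  · simp
  · intro j _ hj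
    simp [hj]
  · simp

/-- `∏ (1 + y b_i) = ∑_a y ^ a e_a(b)`: evaluate the polynomial `∏ (1 + C b_i * X)` at `y`. -/
theorem spin_ind {n k : ℕ} (π : GSys n) (σ : GLSys k) (z : ℂ) (π' : GSys (n + k)) (p : Pr)
    (h : π' p = ⟨(π p).c, Fin.append (π p).x fun i => σ p i * ppow p z⟩) :
    spinD π' p = ∑ a ∈ Finset.range (k + 1), tw z p ^ a * (extD σ a p * spinD π p) := by
  have hd : (∏ i, (1 + C (el (σ p i)) * X : A[X])).natDegree < k + 1 :=
    Nat.lt_succ_of_le (Spin_natDegree_le _)
  have h1 : ∑ a ∈ Finset.range (k + 1), tw z p ^ a * (extD σ a p * spinD π p) =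
      (∏ i, (1 + el (σ p i) * tw z p)) * spinD π p := by
    have h2 : (∏ i, (1 + C (el (σ p i)) * X : A[X])).eval (tw z p) =
        ∏ i, (1 + el (σ p i) * tw z p) := by
      rw [eval_prod]
      simp
    rw [← h2, eval_eq_sum_range' hd, Finset.sum_mul]
    refine Finset.sum_congr rfl fun a _ => ?_
    simp only [extD]
    ring
  rw [h1]
  simp only [spinD, h]
  rw [Fin.prod_univ_add]
  simp only [Fin.append_left, Fin.append_right]
  have h3 : ∀ i : Fin k, el (σ p i * ppow p z) = el (σ p i) * tw z p := by
    intro i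
    simp only [el, tw, map_mul]
  simp only [h3]
  ring

theorem extD_of_lt {k : ℕ} (σ : GLSys k) (a : ℕ) (h : k < a) : extD σ a = 0 := by
  funext p
  exact coeff_eq_zero_of_natDegree_lt (lt_of_le_of_lt (Spin_natDegree_le _) h)

theorem extD_zero {k : ℕ} (σ : GLSys k) : extD σ 0 = 1 := by
  funext p
  simp only [extD, coeff_zero_eq_eval_zero, eval_prod]
  simp

theorem extD_one (χ : GLSys 1) (p : Pr) : extD χ 1 p = el (χ p 0) := by
  simp only [extD, Fin.prod_univ_one]
  simp [coeff_one]

theorem Phi_spR {n : ℕ} (π : GSys n) : Phi π (spR n) = spinD π := by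
  funext p
  simp only [spR, map_mul, map_prod, map_add, map_one, Pi.mul_apply, Finset.prod_apply,
    Pi.add_apply, Pi.one_apply, Spin_Phi_mon, spinD]
  congr 1
  · simp [Torus.ev]
  · refine Finset.prod_congr rfl fun i _ => ?_
    rw [Spin_ev_single]

/-- `∏ (1 + [x_i]) = ∑_I [∑_{i ∈ I} e_i]` (`Finset.prod_one_add`). -/
theorem spR_coeff (n : ℕ) : (spR n).coeff = spin n := by
  have h0 : ∀ I : Finset (Fin n), ∏ i ∈ I, (mon (0, Pi.single i 1) : R n) =
      mon (0, fun i => if i ∈ I then 1 else 0) := by
    intro I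
    induction I using Finset.induction_on with
    | empty =>
      simp only [Finset.prod_empty, Finset.notMem_empty, if_false]
      rfl
    | insert a I ha ih =>
      rw [Finset.prod_insert ha, ih, Spin_mon_mul]
      congr 1
      refine Prod.ext (by simp) ?_
      funext i
      by_cases hi : i = a
      · subst hi
        simp [ha]
      · simp [hi]
  rw [spR, Finset.prod_one_add, Finset.mul_sum, AddMonoidAlgebra.coeff_sum, spin,
    Finset.powerset_univ]
  refine Finset.sum_congr rfl fun I _ => ?_
  rw [h0, Spin_mon_mul]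
  simp [mon]

theorem Phi_nu {n : ℕ} (π : GSys n) (k : ℤ) (p : Pr) :
    Phi π (mon (k • nuW n)) p = el (((π p).c ^ 2 * ∏ i, (π p).x i) ^ k) := by
  rw [Spin_Phi_mon]
  congr 1
  simp only [Torus.ev, nuW, Prod.smul_fst, Prod.smul_snd, Pi.smul_apply, smul_eq_mul, mul_one]
  rw [mul_zpow, Finset.prod_zpow, mul_comm k 2, zpow_mul]
  rfl

/-- The values of the weights of the standard representation are the `1, x_i, x_i⁻¹`; a ring
homomorphism commutes with the coefficients of a product of polynomials (`Polynomial.coeff_map`,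
`Polynomial.map_multiset_prod`). -/
theorem Phi_ext {n : ℕ} (π : GSys n) (a : ℕ) (p : Pr) (r : ℕ) (d : Fin r → ℕ)
    (σ : (j : Fin r) → GLSys (d j)) (h : (π p).std = ∑ j, Finset.univ.val.map (σ j p)) :
    Phi π (extV n a) p = (∏ j, ∏ i, (1 + C (el (σ j p i)) * X : A[X])).coeff a := by
  have h1 : (stdW n).map (fun w => (π p).ev w) = (π p).std := by
    simp only [stdW, Torus.std, Multiset.map_cons, Multiset.map_add, Multiset.map_map,
      Function.comp_def]
    congr 1
    · simp [Torus.ev]
    · congr 1
      · exact Multiset.map_congr rfl fun i _ => Spin_ev_single _ _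
      · exact Multiset.map_congr rfl fun i _ => Spin_ev_neg_single _ _
  have h2 : Phi π (extV n a) p =
      (((stdW n).map fun w => (1 + C (el ((π p).ev w)) * X : A[X])).prod).coeff a := by
    change evT (π p) (extV n a) = _
    rw [extV, ← coeff_map, Polynomial.map_multiset_prod, Multiset.map_map]
    congr 2
    refine Multiset.map_congr rfl fun w _ => ?_
    simp [Spin_evT_mon]
  have h3 : ((stdW n).map fun w => (1 + C (el ((π p).ev w)) * X : A[X])) =
      ((stdW n).map (fun w => (π p).ev w)).map fun u => (1 + C (el u) * X : A[X]) := by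
    rw [Multiset.map_map]
    rfl
  rw [h2, h3, h1, h]
  congr 1
  have h4 : ∀ (s : Finset (Fin r)), ((∑ j ∈ s, Finset.univ.val.map (σ j p)).map
      fun u => (1 + C (el u) * X : A[X])).prod =
      ∏ j ∈ s, ∏ i, (1 + C (el (σ j p i)) * X : A[X]) := by
    intro s
    induction s using Finset.induction_on with
    | empty => simp
    | insert b s hb ih =>
      rw [Finset.sum_insert hb, Finset.prod_insert hb, Multiset.map_add, Multiset.prod_add, ih,
        Multiset.map_map]
      rfl
  exact h4 Finset.univ

/-- By induction on `r`: the coefficients of `∏_i (1 + C [σ p i] X)` are the `extD σ a p`, and the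
coefficients of a product are sums of products of coefficients. -/
theorem exists_MM (Gl : (k : ℕ) → Set (GLSys k)) (r : ℕ) (d : Fin r → ℕ)
    (σ : (j : Fin r) → GLSys (d j)) (h : ∀ j, σ j ∈ Gl (d j)) (a : ℕ) :
    ∃ D ∈ MM Gl, ∀ p, D p = (∏ j, ∏ i, (1 + C (el (σ j p i)) * X : A[X])).coeff a := by
  induction r generalizing a with
  | zero =>
    refine ⟨if a = 0 then 1 else 0, ?_, ?_⟩
    · split_ifs
      · exact Subring.one_mem _
      · exact Subring.zero_mem _
    · intro p
      simp only [Finset.univ_eq_empty, Finset.prod_empty, coeff_one]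
      split_ifs <;> rfl
  | succ r ih =>
    choose D hD hD' using fun b => ih (fun j => d j.succ) (fun j => σ j.succ)
      (fun j => h j.succ) b
    refine ⟨∑ x ∈ Finset.HasAntidiagonal.antidiagonal a, extD (σ 0) x.1 * D x.2, ?_, ?_⟩
    · refine Subring.sum_mem _ fun x _ => Subring.mul_mem _ ?_ (hD x.2)
      exact Subring.subset_closure ⟨_, σ 0, x.1, h 0, rfl⟩
    · intro p
      rw [Fin.prod_univ_succ, coeff_mul, Finset.sum_apply]
      refine Finset.sum_congr rfl fun x _ => ?_
      rw [Pi.mul_apply, hD']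
      rfl

end Pool.Agent.EEA520
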