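import Pool.Agent.W_eea520_h25.Core

/-! Symmetric Laurent polynomials. -/

set_option autoImplicit false

namespace Pool.Agent.EEA520

open Polynomial

/-- The elementary symmetric polynomial of degree `a` in the `[(0, e_i)]`. -/
noncomputable def extG (k a : ℕ) : R k :=
  (∏ i : Fin k, (1 + C (mon (0, Pi.single i 1)) * X : (R k)[X])).coeff a

private theorem SymA_mon_mul {n : ℕ} (v w : Wt n) : mon v * mon w = mon (v + w) := by
  unfold mon
  rw [AddMonoidAlgebra.single_mul_single, one_mul]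

private theorem SymA_mon_zero {n : ℕ} : (mon (0 : Wt n) : R n) = 1 := rfl

private theorem SymA_mon_pow {n : ℕ} (v : Wt n) (a : ℕ) : mon v ^ a = mon (a • v) := by
  induction a with
  | zero => rw [pow_zero, zero_smul]; rfl
  | succ a ih => rw [pow_succ, ih, SymA_mon_mul, succ_nsmul]

private theorem SymA_mon_prod {n : ℕ} {ι : Type} (s : Finset ι) (f : ι → Wt n) :
    ∏ i ∈ s, mon (f i) = mon (∑ i ∈ s, f i) := by
  classical
  induction s using Finset.induction_on with
  | empty => rw [Finset.prod_empty, Finset.sum_empty]; rfl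
  | insert a s ha ih => rw [Finset.prod_insert ha, Finset.sum_insert ha, ih, SymA_mon_mul]

/-- the homomorphism `X i ↦ [(0, e_i)]` -/
private noncomputable def SymA_psi (k : ℕ) : MvPolynomial (Fin k) ℤ →ₐ[ℤ] R k :=
  MvPolynomial.aeval fun i => mon (0, Pi.single i 1)

private theorem SymA_psi_monomial (k : ℕ) (t : Fin k →₀ ℕ) (c : ℤ) :
    SymA_psi k (MvPolynomial.monomial t c) = c • mon (0, fun i => (t i : ℤ)) := by
  unfold SymA_psi
  rw [MvPolynomial.aeval_monomial, Finsupp.prod_fintype _ _ (fun i => by rw [pow_zero])]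
  simp only [SymA_mon_pow]
  rw [SymA_mon_prod, ← Algebra.smul_def]
  congr 2
  apply Prod.ext
  · rw [Prod.fst_sum]
    simp
  · rw [Prod.snd_sum]
    funext j
    rw [Finset.sum_apply]
    simp [Pi.single_apply]

private theorem SymA_coeff {B : Type} [CommRing B] (k a : ℕ) (r : Fin k → B) :
    (∏ i : Fin k, (1 + C (r i) * X : B[X])).coeff a =
      ∑ t ∈ Finset.powersetCard a (Finset.univ : Finset (Fin k)), ∏ i ∈ t, r i := by
  rw [Finset.prod_one_add, Polynomial.finsetSum_coeff, Finset.powersetCard_eq_filter,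
    Finset.sum_filter]
  refine Finset.sum_congr rfl fun t _ => ?_
  rw [Finset.prod_mul_distrib, Finset.prod_const, ← map_prod, Polynomial.coeff_C_mul_X_pow]
  by_cases h : a = t.card
  · rw [if_pos h, if_pos h.symm]
  · rw [if_neg h, if_neg (Ne.symm h)]

private theorem SymA_psi_esymm (k a : ℕ) :
    SymA_psi k (MvPolynomial.esymm (Fin k) ℤ a) = extG k a := by
  unfold extG
  rw [SymA_coeff, MvPolynomial.esymm, map_sum]
  refine Finset.sum_congr rfl fun t _ => ?_
  rw [map_prod]
  refine Finset.prod_congr rfl fun i _ => ?_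
  unfold SymA_psi
  rw [MvPolynomial.aeval_X]

private theorem SymA_gen (k : ℕ) (U : AddSubgroup (R k))
    (hU : ∀ (j : ℤ) (l : List ℕ), mon (0, fun _ => j) * (l.map (extG k)).prod ∈ U) (j : ℤ)
    (g : MvPolynomial (Fin k) ℤ) : ∀ l : List ℕ, mon (0, fun _ => j) * ((l.map (extG k)).prod *
      SymA_psi k (MvPolynomial.esymmAlgHom (Fin k) ℤ k g).val) ∈ U := by
  induction g using MvPolynomial.induction_on with
  | C c =>
    intro l
    have h1 : (MvPolynomial.esymmAlgHom (Fin k) ℤ k (MvPolynomial.C c)).val =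
        MvPolynomial.C c := by
      rw [MvPolynomial.esymmAlgHom_apply, MvPolynomial.aeval_C]
      rfl
    have h2 : SymA_psi k (MvPolynomial.C c) = (c : R k) := by
      unfold SymA_psi
      rw [MvPolynomial.aeval_C]
      simp
    rw [h1, h2, ← mul_assoc, mul_comm, ← zsmul_eq_mul]
    exact U.zsmul_mem (hU j l) c
  | add p q hp hq =>
    intro l
    have h1 : (MvPolynomial.esymmAlgHom (Fin k) ℤ k (p + q)).val =
        (MvPolynomial.esymmAlgHom (Fin k) ℤ k p).val +
          (MvPolynomial.esymmAlgHom (Fin k) ℤ k q).val := by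
      rw [map_add]
      rfl
    rw [h1, map_add, mul_add, mul_add]
    exact U.add_mem (hp l) (hq l)
  | mul_X p i hp =>
    intro l
    have h1 : (MvPolynomial.esymmAlgHom (Fin k) ℤ k (p * MvPolynomial.X i)).val =
        (MvPolynomial.esymmAlgHom (Fin k) ℤ k p).val * MvPolynomial.esymm (Fin k) ℤ (i + 1) := by
      rw [MvPolynomial.esymmAlgHom_apply, MvPolynomial.esymmAlgHom_apply, map_mul,
        MvPolynomial.aeval_X]
    have h2 := hp (((i : ℕ) + 1) :: l)
    rw [List.map_cons, List.prod_cons] at h2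
    rw [h1, map_mul, SymA_psi_esymm]
    have h3 : (List.map (extG k) l).prod *
        (SymA_psi k (MvPolynomial.esymmAlgHom (Fin k) ℤ k p).val * extG k (i + 1)) =
        extG k (i + 1) * (List.map (extG k) l).prod *
          SymA_psi k (MvPolynomial.esymmAlgHom (Fin k) ℤ k p).val := by ring
    rw [h3]
    exact h2

/-- the shifted exponents -/
private noncomputable def SymA_E (k N : ℕ) (μ : Fin k → ℤ) : Fin k →₀ ℕ :=
  Finsupp.equivFunOnFinite.symm fun i => (μ i + N).toNat

private theorem SymA_E_apply (k N : ℕ) (μ : Fin k → ℤ) (i : Fin k) :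
    SymA_E k N μ i = (μ i + N).toNat := rfl

private theorem SymA_E_map (k N : ℕ) (μ : Fin k → ℤ) (τ : Equiv.Perm (Fin k)) :
    (SymA_E k N μ).mapDomain τ = SymA_E k N (μ ∘ τ.symm) := by
  apply Finsupp.ext
  intro i
  rw [Finsupp.mapDomain_equiv_apply, SymA_E_apply, SymA_E_apply]
  rfl

/-- the polynomial -/
private noncomputable def SymA_f (k N : ℕ) (m : (Fin k → ℤ) →₀ ℤ) : MvPolynomial (Fin k) ℤ :=
  ∑ μ ∈ m.support, MvPolynomial.monomial (SymA_E k N μ) (m μ)

private theorem SymA_f_symm (k N : ℕ) (m : (Fin k → ℤ) →₀ ℤ)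
    (hm : ∀ (τ : Equiv.Perm (Fin k)) (μ : Fin k → ℤ), m (μ ∘ τ) = m μ) :
    (SymA_f k N m).IsSymmetric := by
  intro τ
  unfold SymA_f
  rw [map_sum]
  refine Finset.sum_bij (fun μ _ => μ ∘ τ.symm) ?_ ?_ ?_ ?_
  · intro μ hμ
    rw [Finsupp.mem_support_iff] at hμ ⊢
    rw [hm]
    exact hμ
  · intro μ _ μ' _ h
    funext i
    have h1 := congrFun h (τ i)
    simpa using h1
  · intro μ hμ
    refine ⟨μ ∘ τ, ?_, ?_⟩
    · rw [Finsupp.mem_support_iff] at hμ ⊢
      rw [hm]
      exact hμ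
    · funext i
      simp
  · intro μ _
    rw [MvPolynomial.rename_monomial, SymA_E_map, hm]

private theorem SymA_bound (k : ℕ) (m : (Fin k → ℤ) →₀ ℤ) :
    ∃ N : ℕ, ∀ μ ∈ m.support, ∀ i, 0 ≤ μ i + (N : ℤ) := by
  refine ⟨∑ μ ∈ m.support, ∑ i, (μ i).natAbs, fun μ hμ i => ?_⟩
  have h1 : (μ i).natAbs ≤ ∑ i, (μ i).natAbs :=
    Finset.single_le_sum (f := fun i => (μ i).natAbs) (fun _ _ => Nat.zero_le _)
      (Finset.mem_univ i)
  have h2 : ∑ i, (μ i).natAbs ≤ ∑ μ ∈ m.support, ∑ i, (μ i).natAbs :=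
    Finset.single_le_sum (f := fun μ : Fin k → ℤ => ∑ i, (μ i).natAbs) (fun _ _ => Nat.zero_le _) hμ
  have h3 : ((μ i).natAbs : ℤ) ≤ ((∑ μ ∈ m.support, ∑ i, (μ i).natAbs : ℕ) : ℤ) := by
    exact_mod_cast h1.trans h2
  have h4 : -((μ i).natAbs : ℤ) ≤ μ i := by omega
  omega

private theorem SymA_psi_f (k N : ℕ) (m : (Fin k → ℤ) →₀ ℤ)
    (hN : ∀ μ ∈ m.support, ∀ i, 0 ≤ μ i + (N : ℤ)) :
    mon (0, fun _ => -(N : ℤ)) * SymA_psi k (SymA_f k N m) =
      (AddMonoidAlgebra.ofCoeff (m.mapDomain fun μ => ((0 : ℤ), μ)) : R k) := by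
  unfold SymA_f
  rw [map_sum, Finset.mul_sum]
  have h1 : (AddMonoidAlgebra.ofCoeff (m.mapDomain fun μ => ((0 : ℤ), μ)) : R k) =
      ∑ μ ∈ m.support, m μ • mon ((0 : ℤ), μ) := by
    unfold Finsupp.mapDomain
    rw [AddMonoidAlgebra.ofCoeff_finsuppSum]
    refine Finset.sum_congr rfl fun μ _ => ?_
    show AddMonoidAlgebra.ofCoeff (Finsupp.single ((0 : ℤ), μ) (m μ)) = _
    rw [AddMonoidAlgebra.ofCoeff_single]
    unfold mon
    rw [AddMonoidAlgebra.smul_single, smul_eq_mul, mul_one]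
  rw [h1]
  refine Finset.sum_congr rfl fun μ hμ => ?_
  rw [SymA_psi_monomial, mul_smul_comm, SymA_mon_mul]
  congr 2
  apply Prod.ext
  · simp
  · funext i
    show -(N : ℤ) + ((SymA_E k N μ i : ℕ) : ℤ) = μ i
    rw [SymA_E_apply, Int.toNat_of_nonneg (hN μ hμ i)]
    ring

/-- The symmetric Laurent polynomials are spanned by the products of a power of
`[(0, (1, …, 1))]` and elementary symmetric polynomials.
Proof. Multiply `m` by `[(0, (N, …, N))]` with `N` large: then all exponents are natural numbers and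
`m` is the image of a symmetric polynomial in `MvPolynomial (Fin k) ℤ` under the ring homomorphism
`X i ↦ [(0, e_i)]`, which maps the elementary symmetric polynomial `esymm` of degree `a` to
`extG k a`. Every symmetric polynomial is a polynomial in the elementary symmetric ones
(`MvPolynomial.esymmAlgHom_surjective` or similar in `Mathlib`), hence a `ℤ`-combination of
products of them. (Alternatively: highest weights as in `AlgA`.) -/
theorem symm_alg (k : ℕ) (U : AddSubgroup (R k))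
    (hU : ∀ (j : ℤ) (l : List ℕ), mon (0, fun _ => j) * (l.map (extG k)).prod ∈ U)
    (m : (Fin k → ℤ) →₀ ℤ)
    (hm : ∀ (τ : Equiv.Perm (Fin k)) (μ : Fin k → ℤ), m (μ ∘ τ) = m μ) :
    (AddMonoidAlgebra.ofCoeff (m.mapDomain fun μ => ((0 : ℤ), μ)) : R k) ∈ U := by
  obtain ⟨N, hN⟩ := SymA_bound k m
  rw [← SymA_psi_f k N m hN]
  obtain ⟨g, hg⟩ := MvPolynomial.esymmAlgHom_surjective (σ := Fin k) (n := k) ℤ
    (by rw [Fintype.card_fin]) ⟨SymA_f k N m, SymA_f_symm k N m hm⟩
  have h1 := SymA_gen k U hU (-(N : ℤ)) g []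
  rw [List.map_nil, List.prod_nil, one_mul, hg] at h1
  exact h1

end Pool.Agent.EEA520
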