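import Pool.Agent.W_eea520_h25.Half
import Pool.Agent.W_eea520_h25.Spin
import Pool.Agent.W_eea520_h25.AlgE
import Pool.Agent.W_eea520_h25.SymA
import Pool.Agent.W_eea520_h25.CuspA

/-! The spin reduction. -/

set_option autoImplicit false

namespace Pool.Agent.EEA520

open Filter Polynomial

section

variable {S : (k : ℕ) → Set (GLSys k)} {P : (n : ℕ) → Set (GSys n)}
  {Z : (n k : ℕ) → GSys n → GLSys k → ℝ}

/-- The twists of the members of `S k`. -/
private def Main_Tw (S : (k : ℕ) → Set (GLSys k)) (k : ℕ) : Set (GLSys k) :=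
  {τ | ∃ σ ∈ S k, ∃ z : ℂ, τ = fun p i => σ p i * ppow p z}

private lemma Main_Tw_one {χ : GLSys 1} (hχ : χ ∈ S 1) (t : ℂ) :
    (fun p i => χ p i * ppow p t : GLSys 1) ∈ Main_Tw S 1 := ⟨χ, hχ, t, rfl⟩

private lemma Main_bddL (h : IsCuspidal S P) {k : ℕ} {τ : GLSys k} (hτ : τ ∈ Main_Tw S k) :
    BddL τ := by
  obtain ⟨σ, hσ, z, rfl⟩ := hτ
  obtain ⟨B, hB⟩ := h.bddS k σ hσ
  refine ⟨B + z.re, hB.mono fun p hp i => ?_⟩
  have hp0 : (0 : ℝ) < ((p : ℕ) : ℝ) := Nat.cast_pos.2 p.2.pos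
  have h1 : ‖((ppow p z : ℂˣ) : ℂ)‖ = ((p : ℕ) : ℝ) ^ z.re := by
    show ‖((p : ℕ) : ℂ) ^ z‖ = _
    rw [← Complex.ofReal_natCast, Complex.norm_cpow_eq_rpow_re_of_pos hp0]
  rw [Units.val_mul, norm_mul, h1, Real.rpow_add hp0]
  exact mul_le_mul_of_nonneg_right (hp i).1 (Real.rpow_nonneg hp0.le _)

/-- Induction from `GL_k × GSp_{2n}` and isolation of the exterior powers. -/
private lemma Main_ind (h : IsCuspidal S P) {n k : ℕ} {π : GSys n} (hπ : Eis S P n π)
    {τ : GLSys k} (hτ : τ ∈ Main_Tw S k) {D : Dat} (hD : D ∈ BB)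
    (hc : ∀ π', Eis S P (n + k) π' → Cont (D * spinD π')) :
    ∀ a ≤ k, Cont (extD τ a * D * spinD π) := by
  have hmem : ∀ a, extD τ a * D * spinD π ∈ BB := fun a =>
    mul_mem (mul_mem (extD_mem (Main_bddL h hτ) a) hD) (spinD_mem (hπ.bdd h))
  obtain ⟨σ, hσ, z₀, rfl⟩ := hτ
  refine isolation k (fun a => extD (fun p i => σ p i * ppow p z₀) a * D * spinD π)
    (fun a _ => hmem a) 0 fun z _ => ?_
  have heq : ∀ p, induce π σ (z₀ + z) p =
      ⟨(π p).c, Fin.append (π p).x fun i => (σ p i * ppow p z₀) * ppow p z⟩ := by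
    intro p
    unfold induce
    congr 2
    funext i
    rw [ppow_add, mul_assoc]
  refine cont_congr (sum_mem fun a _ => mul_mem (pow_mem (tw_mem z) a) (hmem a)) ?_
    (hc _ (Eis.ind (z₀ + z) hπ hσ))
  refine Eventually.of_forall fun p => ?_
  rw [Pi.mul_apply, spin_ind π (fun p i => σ p i * ppow p z₀) z (induce π σ (z₀ + z)) p (heq p),
    Finset.mul_sum, Finset.sum_apply]
  refine Finset.sum_congr rfl fun a _ => ?_
  simp only [Pi.mul_apply, Pi.pow_apply]
  ring

/-- The properly induced members with trivial central character show that the Euler product of `π`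
continues to `ℂ`. -/
private lemma Main_first (h : IsCuspidal S P) {n : ℕ} {c : ℝ}
    (hc : ∀ π, EisInd S P Z (n + 1) π → TrivialCentral π → ContinuesTo c π (spin (n + 1))) :
    ∀ π, Eis S P n π → Cont (spinD π) := by
  intro π hπ
  obtain ⟨χ, hχ, t, hν⟩ := hπ.central h
  obtain ⟨χ', hχ', hinv⟩ := h.inv χ hχ
  have hχB : BddL χ' := by
    obtain ⟨B, hB⟩ := h.bddS 1 χ' hχ'
    exact ⟨B, hB.mono fun p hp i => (hp i).1⟩
  have hsp := spinD_mem (hπ.bdd h)
  have hD₁ : tw (-(t.im * Complex.I)) * (extD χ' 1 * spinD π) ∈ BB :=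
    mul_mem (tw_mem _) (mul_mem (extD_mem hχB 1) hsp)
  refine iso_half c t.re (Z n 1 π χ') (spinD π) _ hsp hD₁ fun z hz => ?_
  obtain ⟨w, hw⟩ : ∃ w : ℂ, w = ((-(t.re + z) / 2 : ℝ) : ℂ) := ⟨_, rfl⟩
  obtain ⟨z', hz'⟩ : ∃ z' : ℂ, z' = (z : ℂ) + -(t.im * Complex.I) := ⟨_, rfl⟩
  rw [← hw]
  have hz1 : z'.re < Z n 1 π χ' := by
    rw [hz']
    simpa using hz
  have htw : t + z' + 2 * w = 0 := by
    rw [hz', hw]
    push_cast
    linear_combination (-1 : ℂ) * Complex.re_add_im t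
  have hE := EisInd.mk (S := S) (P := P) (Z := Z) z' w Nat.one_pos hπ hχ' hz1
  have htriv : TrivialCentral (twist (induce π χ' z') w) := by
    filter_upwards [hν, hinv] with p h1 h2
    rw [nu_twist, nu_induce, h1, Fin.prod_univ_one, h2, Nat.cast_one, one_mul]
    calc χ p 0 * ppow p t * (χ p 0)⁻¹ * ppow p z' * ppow p (2 * w)
        = (χ p 0 * (χ p 0)⁻¹) * (ppow p t * ppow p z' * ppow p (2 * w)) := by
          simp only [mul_assoc, mul_comm, mul_left_comm]
      _ = 1 := by rw [← ppow_add, ← ppow_add, htw, ppow_zero, mul_inv_cancel, one_mul]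
  have h6 := hc _ hE htriv
  have hb : Eis S P (n + 1) (twist (induce π χ' z') w) := Eis.tw w (Eis.ind z' hπ hχ')
  rw [← spR_coeff] at h6
  have h7 := contTo_of_continuesTo (hb.bdd h) _ h6
  rw [Phi_spR] at h7
  refine contTo_congr ?_ (Eventually.of_forall fun p => ?_) h7
  · exact mul_mem (tw_mem _) (add_mem hsp (mul_mem (tw_mem _) hD₁))
  · have h8 := spin_ind π χ' z' (induce π χ' z') p rfl
    rw [Finset.sum_range_succ, Finset.sum_range_one, extD_zero, pow_zero, pow_one, one_mul,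
      Pi.one_apply, one_mul] at h8
    have h9 : spinD (twist (induce π χ' z') w) p = tw w p * spinD (induce π χ' z') p := by
      simp only [spinD, twist, tw, el, map_mul]
      ring
    have h10 : tw z' p = tw (z : ℂ) p * tw (-(t.im * Complex.I)) p := by
      simp only [tw, el, ← map_mul]
      rw [hz', ppow_add]
    rw [h9, h8, h10]
    simp only [Pi.mul_apply, Pi.add_apply, mul_assoc]

private lemma Main_spin (h : IsCuspidal S P)
    (ha : ∀ N : ℕ, ∃ n ≥ N, ∃ c : ℝ, ∀ π, EisInd S P Z n π → TrivialCentral π →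
      ContinuesTo c π (spin n)) (n : ℕ) : ∀ π, Eis S P n π → Cont (spinD π) := by
  obtain ⟨N, hN, c, hc⟩ := ha (n + 1)
  have step : ∀ n, (∀ π, Eis S P (n + 1) π → Cont (spinD π)) →
      ∀ π, Eis S P n π → Cont (spinD π) := by
    intro n hn π hπ
    obtain ⟨χ, hχ, -⟩ := h.one
    have h1 := Main_ind h hπ (Main_Tw_one hχ 0) (one_mem BB)
      (fun π' hπ' => by rw [one_mul]; exact hn π' hπ') 0 (Nat.zero_le 1)
    rwa [extD_zero, one_mul, one_mul] at h1
  obtain ⟨d, rfl⟩ := Nat.exists_eq_add_of_le hN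
  clear hN
  rw [Nat.add_right_comm] at hc
  have h2 := Main_first h hc
  clear hc
  induction d with
  | zero => exact h2
  | succ d ih => exact ih (step (n + d) h2)

private lemma Main_MM (h : IsCuspidal S P) (hs : ∀ n π, Eis S P n π → Cont (spinD π)) (D : Dat)
    (hD : D ∈ MM (Main_Tw S)) : ∀ n π, Eis S P n π → Cont (D * spinD π) := by
  have hmon : ∀ D ∈ Submonoid.closure {D : Dat | ∃ (k : ℕ) (σ : GLSys k) (a : ℕ),
      σ ∈ Main_Tw S k ∧ D = extD σ a}, D ∈ BB ∧ ∀ n π, Eis S P n π → Cont (D * spinD π) := by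
    intro D hD
    induction hD using Submonoid.closure_induction_left with
    | one => exact ⟨one_mem BB, fun n π hπ => by rw [one_mul]; exact hs n π hπ⟩
    | mul_left x hx y hy ih =>
      obtain ⟨k, σ, a, hσ, rfl⟩ := hx
      refine ⟨mul_mem (extD_mem (Main_bddL h hσ) a) ih.1, fun n π hπ => ?_⟩
      rcases le_or_gt a k with hak | hak
      · exact Main_ind h hπ hσ ih.1 (fun π' hπ' => ih.2 _ π' hπ') a hak
      · rw [extD_of_lt σ a hak, zero_mul, zero_mul]
        exact cont_zero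
  rw [MM, Subring.mem_closure_iff] at hD
  induction hD using AddSubgroup.closure_induction with
  | mem x hx => exact (hmon x hx).2
  | zero =>
    intro n π hπ
    rw [zero_mul]
    exact cont_zero
  | add x y _ _ hx hy =>
    intro n π hπ
    rw [add_mul]
    exact (hx n π hπ).add (hy n π hπ)
  | neg x _ hx =>
    intro n π hπ
    rw [neg_mul]
    exact (hx n π hπ).neg

/-- With the trivial representation of `GSp_0`. -/
private lemma Main_one (h : IsCuspidal S P) (hs : ∀ n π, Eis S P n π → Cont (spinD π))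
    {D D' : Dat} (hD : D ∈ MM (Main_Tw S)) (hD' : D' ∈ BB) (he : ∀ᶠ p in cofinite, D' p = D p) :
    Cont D' := by
  obtain ⟨π₀, hπ₀, h1⟩ := h.triv
  refine cont_congr hD' ?_ (Main_MM h hs D hD 0 π₀ (Eis.base hπ₀))
  filter_upwards [he, h1] with p hp hp1
  rw [hp, Pi.mul_apply]
  have : spinD π₀ p = 1 := by
    unfold spinD el
    rw [hp1, map_one, one_mul]
    exact Fin.prod_univ_zero _
  rw [this, mul_one]

private lemma Main_list {n : ℕ} {π : GSys n} (ht : HasTransfer S π) (l : List ℕ) :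
    ∃ D ∈ MM (Main_Tw S), ∀ᶠ p in cofinite, Phi π (l.map (extV n)).prod p = D p := by
  obtain ⟨r, d, σ, z, hσ, hev⟩ := ht
  induction l with
  | nil => exact ⟨1, one_mem _, Eventually.of_forall fun p => by simp⟩
  | cons a l ih =>
    obtain ⟨D, hD, hl⟩ := ih
    obtain ⟨E, hE, hE'⟩ := exists_MM (Main_Tw S) r d (fun j p i => σ j p i * ppow p (z j))
      (fun j => ⟨σ j, hσ j, z j, rfl⟩) a
    refine ⟨E * D, mul_mem hE hD, ?_⟩
    filter_upwards [hl, hev] with p hp hp'
    rw [List.map_cons, List.prod_cons, map_mul, Pi.mul_apply, Pi.mul_apply, hp, hE',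
      Phi_ext π a p r d (fun j p i => σ j p i * ppow p (z j)) hp']

private lemma Main_all (h : IsCuspidal S P) (hs : ∀ n π, Eis S P n π → Cont (spinD π)) (n : ℕ)
    (π : GSys n) (hπ : Eis S P n π) (ht : HasTransfer S π) (m : Wt n →₀ ℤ)
    (hm : IsCharacter m) : Continues π m := by
  have hb := hπ.bdd h
  have key : ∀ (k : ℤ) (l : List ℕ) (e : ℕ), e ≤ 1 →
      Cont (Phi π (mon (k • nuW n) * (l.map (extV n)).prod * spR n ^ e)) := by
    intro k l e he
    obtain ⟨χ₀, hχ₀, t, hν⟩ := hπ.central h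
    obtain ⟨χ, hχ, hpow⟩ := h.zpow hχ₀ k
    obtain ⟨D, hD, hl⟩ := Main_list ht l
    have hE : extD (fun p i => χ p i * ppow p (k * t)) 1 * D ∈ MM (Main_Tw S) :=
      mul_mem (Subring.subset_closure ⟨1, _, 1, Main_Tw_one hχ (k * t), rfl⟩) hD
    have hev : ∀ᶠ p in cofinite, Phi π (mon (k • nuW n) * (l.map (extV n)).prod) p =
        (extD (fun p i => χ p i * ppow p (k * t)) 1 * D) p := by
      filter_upwards [hν, hpow, hl] with p h1 h2 h3
      rw [map_mul, Pi.mul_apply, Pi.mul_apply, h3, Phi_nu, extD_one, h2, ppow_int_mul,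
        ← mul_zpow, ← h1]
      rfl
    rcases Nat.le_one_iff_eq_zero_or_eq_one.1 he with rfl | rfl
    · refine Main_one h hs hE (Phi_mem hb _) ?_
      filter_upwards [hev] with p hp
      rw [pow_zero, mul_one, hp]
    · refine cont_congr (Phi_mem hb _) ?_ (Main_MM h hs _ hE n π hπ)
      filter_upwards [hev] with p hp
      rw [pow_one, map_mul, Pi.mul_apply, Pi.mul_apply (Phi π _), hp, Phi_spR]
  let U : AddSubgroup (R n) :=
    { carrier := {f | Cont (Phi π f)}
      zero_mem' := by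
        show Cont (Phi π 0)
        rw [map_zero]
        exact cont_zero
      add_mem' := fun {a b} ha hb => by
        show Cont (Phi π (a + b))
        rw [map_add]
        exact Cont.add ha hb
      neg_mem' := fun {a} ha => by
        show Cont (Phi π (-a))
        rw [map_neg]
        exact Cont.neg ha }
  have h2 : (AddMonoidAlgebra.ofCoeff m : R n) ∈ U := alg n U key _ hm
  exact (continues_iff hb (AddMonoidAlgebra.ofCoeff m)).2 h2

/-! ### The general linear groups -/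

private lemma Main_Phi_extG {k : ℕ} (σ : GLSys k) (a : ℕ) (p : Pr) :
    Phi (fun p => (⟨1, σ p⟩ : Torus k)) (extG k a) p = extD σ a p := by
  show evT _ ((∏ i : Fin k, (1 + C (mon (0, Pi.single i 1)) * X : (R k)[X])).coeff a) = _
  rw [← Polynomial.coeff_map, Polynomial.map_prod]
  unfold extD
  congr 2
  funext i
  rw [Polynomial.map_add, Polynomial.map_one, Polynomial.map_mul, Polynomial.map_C,
    Polynomial.map_X, evT_mon]
  congr 3
  congr 1
  simp only [Torus.ev, one_zpow, one_mul]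
  rw [Finset.prod_eq_single i]
  · rw [Pi.single_eq_same, zpow_one]
  · intro j _ hj
    rw [Pi.single_eq_of_ne hj, zpow_zero]
  · intro h
    exact absurd (Finset.mem_univ i) h

private lemma Main_gl_factor {k : ℕ} (t : Fin k → ℂˣ) (m : (Fin k → ℤ) →₀ ℤ) (q : ℂ) :
    (⟨1, t⟩ : Torus k).factor (m.mapDomain fun μ => ((0 : ℤ), μ)) q = glFactor t m q := by
  unfold Torus.factor glFactor
  rw [Finsupp.prod_mapDomain_index_inj (fun a b hab => (Prod.mk.injEq _ _ _ _ ▸ hab).2)]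
  refine Finset.prod_congr rfl fun μ _ => ?_
  simp only [Torus.ev, one_zpow, one_mul]

private lemma Main_gl (h : IsCuspidal S P) (hs : ∀ n π, Eis S P n π → Cont (spinD π)) (k : ℕ)
    (σ : GLSys k) (hσ : σ ∈ S k) (m : (Fin k → ℤ) →₀ ℤ) (hm : IsSymmetric m) :
    GLContinues σ m := by
  obtain ⟨B, hB⟩ := h.bddS k σ hσ
  have hbdd : Bdd (fun p => (⟨1, σ p⟩ : Torus k)) := by
    refine ⟨max B 0, hB.mono fun p hp => ⟨?_, fun i => ?_⟩⟩
    · have h1 : (1 : ℝ) ≤ ((p : ℕ) : ℝ) ^ max B 0 :=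
        Real.one_le_rpow (by exact_mod_cast p.2.one_lt.le) (le_max_right _ _)
      constructor
      · show ‖((1 : ℂˣ) : ℂ)‖ ≤ _
        simpa using h1
      · show ‖(((1 : ℂˣ)⁻¹ : ℂˣ) : ℂ)‖ ≤ _
        simpa using h1
    · have h1 : ((p : ℕ) : ℝ) ^ B ≤ ((p : ℕ) : ℝ) ^ max B 0 :=
        Real.rpow_le_rpow_of_exponent_le (by exact_mod_cast p.2.one_lt.le) (le_max_left _ _)
      exact ⟨(hp i).1.trans h1, (hp i).2.trans h1⟩
  have hσ0 : ∀ σ ∈ S k, σ ∈ Main_Tw S k := fun σ hσ => ⟨σ, hσ, 0, by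
    funext p i
    rw [ppow_zero, mul_one]⟩
  have key : ∀ (j : ℤ) (l : List ℕ), Cont (Phi (fun p => (⟨1, σ p⟩ : Torus k))
      (mon (0, fun _ => j) * (l.map (extG k)).prod)) := by
    intro j l
    obtain ⟨χ₀, hχ₀, hdet⟩ := h.det k σ hσ
    obtain ⟨χ, hχ, hpow⟩ := h.zpow hχ₀ j
    have hl : (l.map (extD σ)).prod ∈ MM (Main_Tw S) := by
      refine list_prod_mem fun D hD => ?_
      obtain ⟨a, -, rfl⟩ := List.mem_map.1 hD
      exact Subring.subset_closure ⟨k, σ, a, hσ0 σ hσ, rfl⟩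
    refine Main_one h hs (mul_mem (Subring.subset_closure ⟨1, _, 1, Main_Tw_one hχ 0, rfl⟩) hl)
      (Phi_mem hbdd _) ?_
    filter_upwards [hdet, hpow] with p h1 h2
    have hmap : l.map (⇑(Phi (fun p => (⟨1, σ p⟩ : Torus k))) ∘ extG k) = l.map (extD σ) :=
      List.map_congr_left fun a _ => funext fun q => Main_Phi_extG σ a q
    rw [map_mul, Pi.mul_apply, Pi.mul_apply, extD_one, h2, h1, ppow_zero, mul_one,
      map_list_prod, List.map_map, hmap]
    congr 1
    show evT _ (mon _) = _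
    rw [evT_mon]
    congr 1
    simp only [Torus.ev, one_zpow, one_mul]
    exact Finset.prod_zpow _ _ _
  let U : AddSubgroup (R k) :=
    { carrier := {f | Cont (Phi (fun p => (⟨1, σ p⟩ : Torus k)) f)}
      zero_mem' := by
        show Cont (Phi (fun p => (⟨1, σ p⟩ : Torus k)) 0)
        rw [map_zero]
        exact cont_zero
      add_mem' := fun {a b} ha hb => by
        show Cont (Phi (fun p => (⟨1, σ p⟩ : Torus k)) (a + b))
        rw [map_add]
        exact Cont.add ha hb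
      neg_mem' := fun {a} ha => by
        show Cont (Phi (fun p => (⟨1, σ p⟩ : Torus k)) (-a))
        rw [map_neg]
        exact Cont.neg ha }
  have h2 := symm_alg k U key m hm
  have h3 := (continues_iff hbdd (AddMonoidAlgebra.ofCoeff (m.mapDomain fun μ => ((0 : ℤ), μ)))).2 h2
  obtain ⟨S, b, g, hg, hp⟩ := h3
  refine ⟨S, b, g, hg, fun s hs => ?_⟩
  have h4 := hp s hs
  have h5 : (fun p : {p : Pr // p ∉ S} => (⟨1, σ p.1⟩ : Torus k).factor
      (m.mapDomain fun μ => ((0 : ℤ), μ)) (((p.1 : ℕ) : ℂ) ^ (-s))) =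
      fun p : {p : Pr // p ∉ S} => glFactor (σ p.1) m (((p.1 : ℕ) : ℂ) ^ (-s)) := by
    funext p
    exact Main_gl_factor _ _ _
  rw [← h5]
  exact h4

end

private lemma Main_mono {c : ℝ} {n : ℕ} {π : GSys n} {m : Wt n →₀ ℤ} (h : Continues π m) :
    ContinuesTo c π m := by
  obtain ⟨S, b, g, hg, hp⟩ := h
  exact ⟨S, b, g, fun s _ => hg s, hp⟩

private lemma Main_sub {S : (k : ℕ) → Set (GLSys k)} {P : (n : ℕ) → Set (GSys n)}
    {Z : (n k : ℕ) → GSys n → GLSys k → ℝ} {n : ℕ} {π : GSys n} (h : EisInd S P Z n π) :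
    Eis S P n π := by
  cases h with
  | mk z w _ hπ hσ _ => exact Eis.tw w (Eis.ind z hπ hσ)

theorem main {S : (k : ℕ) → Set (GLSys k)} {P : (n : ℕ) → Set (GSys n)}
    (h : IsCuspidal S P) (Z : (n k : ℕ) → GSys n → GLSys k → ℝ) :
    ((∀ N : ℕ, ∃ n ≥ N, ∃ c : ℝ, ∀ π, EisInd S P Z n π → TrivialCentral π →
        ContinuesTo c π (spin n)) ↔
      ∀ n π, Eis S P n π → Continues π (spin n)) ∧
    ((∀ n π, Eis S P n π → Continues π (spin n)) →
      (∀ n π, Eis S P n π → HasTransfer S π →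
        ∀ m : Wt n →₀ ℤ, IsCharacter m → Continues π m) ∧
      ∀ k, ∀ σ ∈ S k, ∀ m : (Fin k → ℤ) →₀ ℤ, IsSymmetric m → GLContinues σ m) := by
  have hiff : ∀ n π, Eis S P n π → (Continues π (spin n) ↔ Cont (spinD π)) := by
    intro n π hπ
    rw [← spR_coeff, continues_iff (hπ.bdd h), Phi_spR]
  refine ⟨⟨fun ha n π hπ => (hiff n π hπ).2 (Main_spin h ha n π hπ),
    fun hb N => ⟨N, le_rfl, 0, fun π hπ _ => Main_mono (hb N π (Main_sub hπ))⟩⟩, fun hb => ?_⟩
  have hs : ∀ n π, Eis S P n π → Cont (spinD π) := fun n π hπ => (hiff n π hπ).1 (hb n π hπ)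
  exact ⟨fun n π hπ ht m hm => Main_all h hs n π hπ ht m hm,
    fun k σ hσ m hm => Main_gl h hs k σ hσ m hm⟩

end Pool.Agent.EEA520
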